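import Mathlib

namespace Pool.Agent.Helper683.Lk

abbrev V4 := Fin 4 → ℝ

/-- determinant of four vectors -/
def D (a b c d : V4) : ℝ :=
  a 0 * (b 1 * (c 2 * d 3 - c 3 * d 2) - b 2 * (c 1 * d 3 - c 3 * d 1) + b 3 * (c 1 * d 2 - c 2 * d 1))
  - a 1 * (b 0 * (c 2 * d 3 - c 3 * d 2) - b 2 * (c 0 * d 3 - c 3 * d 0) + b 3 * (c 0 * d 2 - c 2 * d 0))
  + a 2 * (b 0 * (c 1 * d 3 - c 3 * d 1) - b 1 * (c 0 * d 3 - c 3 * d 0) + b 3 * (c 0 * d 1 - c 1 * d 0))
  - a 3 * (b 0 * (c 1 * d 2 - c 2 * d 1) - b 1 * (c 0 * d 2 - c 2 * d 0) + b 2 * (c 0 * d 1 - c 1 * d 0))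

theorem D_swap12 (a b c d : V4) : D b a c d = - D a b c d := by unfold D; ring
theorem D_swap23 (a b c d : V4) : D a c b d = - D a b c d := by unfold D; ring
theorem D_swap34 (a b c d : V4) : D a b d c = - D a b c d := by unfold D; ring

theorem D_lin1 (a b c d : V4) (w x y z : ℝ) : D (w • a + x • b + y • c + z • d) b c d = w * D a b c d := by
  unfold D; simp only [Pi.add_apply, Pi.smul_apply, smul_eq_mul]; ring
theorem D_lin2 (a b c d : V4) (w x y z : ℝ) : D a (w • a + x • b + y • c + z • d) c d = x * D a b c d := by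
  unfold D; simp only [Pi.add_apply, Pi.smul_apply, smul_eq_mul]; ring
theorem D_lin3 (a b c d : V4) (w x y z : ℝ) : D a b (w • a + x • b + y • c + z • d) d = y * D a b c d := by
  unfold D; simp only [Pi.add_apply, Pi.smul_apply, smul_eq_mul]; ring
theorem D_lin4 (a b c d : V4) (w x y z : ℝ) : D a b c (w • a + x • b + y • c + z • d) = z * D a b c d := by
  unfold D; simp only [Pi.add_apply, Pi.smul_apply, smul_eq_mul]; ring

theorem indep (a b c d : V4) (h : D a b c d ≠ 0) (w x y z : ℝ)
    (hl : w • a + x • b + y • c + z • d = 0) : w = 0 ∧ x = 0 ∧ y = 0 ∧ z = 0 := by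
  have z1 : ∀ p q r : V4, D 0 p q r = 0 := by intro p q r; unfold D; simp
  have z2 : ∀ p q r : V4, D p 0 q r = 0 := by intro p q r; unfold D; simp
  have z3 : ∀ p q r : V4, D p q 0 r = 0 := by intro p q r; unfold D; simp
  have z4 : ∀ p q r : V4, D p q r 0 = 0 := by intro p q r; unfold D; simp
  have h1 := D_lin1 a b c d w x y z
  have h2 := D_lin2 a b c d w x y z
  have h3 := D_lin3 a b c d w x y z
  have h4 := D_lin4 a b c d w x y z
  rw [hl] at h1 h2 h3 h4
  rw [z1] at h1; rw [z2] at h2; rw [z3] at h3; rw [z4] at h4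
  refine ⟨?_, ?_, ?_, ?_⟩
  · rcases mul_eq_zero.mp h1.symm with h' | h'; exacts [h', absurd h' h]
  · rcases mul_eq_zero.mp h2.symm with h' | h'; exacts [h', absurd h' h]
  · rcases mul_eq_zero.mp h3.symm with h' | h'; exacts [h', absurd h' h]
  · rcases mul_eq_zero.mp h4.symm with h' | h'; exacts [h', absurd h' h]

theorem dep_lin (a b c d e : V4) :
    D b c d e • a - D a c d e • b + D a b d e • c - D a b c e • d + D a b c d • e = 0 := by
  funext i
  fin_cases i <;> simp [D] <;> ring

/-- three term relation -/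
theorem plucker (m n i j k l : V4) :
    D m n k l * D m n i j - D m n j l * D m n i k + D m n j k * D m n i l = 0 := by
  have h : D i n m (D j k l n • m - D m k l n • j + D m j l n • k - D m j k n • l + D m j k l • n) = 0 := by
    rw [dep_lin m j k l n]; unfold D; simp
  have h2 : D i n m (D j k l n • m - D m k l n • j + D m j l n • k - D m j k n • l + D m j k l • n) =
    - D m k l n * D i n m j + D m j l n * D i n m k - D m j k n * D i n m l := by
    unfold D; simp only [Pi.add_apply, Pi.sub_apply, Pi.smul_apply, smul_eq_mul]; ring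
  have r1 : ∀ x y : V4, D m x y n = D m n x y := by
    intro x y; rw [D_swap34, D_swap23]; ring
  have r2 : ∀ x : V4, D i n m x = - D m n i x := by
    intro x; unfold D; ring
  rw [h2, r1, r1, r1, r2, r2, r2] at h
  linarith

end Pool.Agent.Helper683.Lk
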