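import Mathlib
import Pool.Agent.Helper683.BoolSigns

namespace Pool.Agent.Helper683.Lk

open Pool.Agent.Helper683

/-- `1 +` the signed indicator -/
def n3 (x y : Bool) : Nat := cond x (cond y 2 0) 1

theorem sb1_aux : (all2 fun b01 => all2 fun b02 => all2 fun b03 => all2 fun b04 => all2 fun b05 => all2 fun b12 => all2 fun b13 => all2 fun b14 => all2 fun b15 => all2 fun b23 => (!(gp (b01 == b23) (b02 == b13) (b03 == b12)) || all2 fun b24 => (!(gp (b01 == b24) (b02 == b14) (b04 == b12)) || all2 fun b25 => (!(gp (b01 == b25) (b02 == b15) (b05 == b12)) || all2 fun b34 => (!(gp (b01 == b34) (b03 == b14) (b04 == b13)) || (!(gp (b02 == b34) (b03 == b24) (b04 == b23)) || (!(gp (b12 == b34) (b13 == b24) (b14 == b23)) || all2 fun b35 => (!(gp (b01 == b35) (b03 == b15) (b05 == b13)) || (!(gp (b02 == b35) (b03 == b25) (b05 == b23)) || (!(gp (b12 == b35) (b13 == b25) (b15 == b23)) || all2 fun b45 => (!(gp (b01 == b45) (b04 == b15) (b05 == b14)) || (!(gp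 (b02 == b45) (b04 == b25) (b05 == b24)) || (!(gp (b03 == b45) (b04 == b35) (b05 == b34)) || (!(gp (b12 == b45) (b14 == b25) (b15 == b24)) || (!(gp (b13 == b45) (b14 == b35) (b15 == b34)) || (!(gp (b23 == b45) (b24 == b35) (b25 == b34)) || (Nat.beq (n3 (eq5 b01 (!b02) b03 b04 (!b05)) b05 + n3 (eq5 b02 (!b12) b23 b24 (!b25)) b25 + n3 (eq5 b05 (!b15) b25 (!b35) (!b45)) b45) (n3 (eq5 b01 (!b12) b13 b14 (!b15)) b15 + n3 (eq5 b03 (!b13) b23 b34 (!b35)) b35 + n3 (eq5 b04 (!b14) b24 (!b34) (!b45)) b45)))))))))))))))))) = true := by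
  decide +kernel

theorem sb1 (b01 b02 b03 b04 b05 b12 b13 b14 b15 b23 b24 b25 b34 b35 b45 : Bool)
    (h0 : gp (b01 == b23) (b02 == b13) (b03 == b12) = true)
    (h1 : gp (b01 == b24) (b02 == b14) (b04 == b12) = true)
    (h2 : gp (b01 == b25) (b02 == b15) (b05 == b12) = true)
    (h3 : gp (b01 == b34) (b03 == b14) (b04 == b13) = true)
    (h4 : gp (b01 == b35) (b03 == b15) (b05 == b13) = true)
    (h5 : gp (b01 == b45) (b04 == b15) (b05 == b14) = true)
    (h6 : gp (b02 == b34) (b03 == b24) (b04 == b23) = true)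
    (h7 : gp (b02 == b35) (b03 == b25) (b05 == b23) = true)
    (h8 : gp (b02 == b45) (b04 == b25) (b05 == b24) = true)
    (h9 : gp (b03 == b45) (b04 == b35) (b05 == b34) = true)
    (h10 : gp (b12 == b34) (b13 == b24) (b14 == b23) = true)
    (h11 : gp (b12 == b35) (b13 == b25) (b15 == b23) = true)
    (h12 : gp (b12 == b45) (b14 == b25) (b15 == b24) = true)
    (h13 : gp (b13 == b45) (b14 == b35) (b15 == b34) = true)
    (h14 : gp (b23 == b45) (b24 == b35) (b25 == b34) = true) :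
    (Nat.beq (n3 (eq5 b01 (!b02) b03 b04 (!b05)) b05 + n3 (eq5 b02 (!b12) b23 b24 (!b25)) b25 + n3 (eq5 b05 (!b15) b25 (!b35) (!b45)) b45) (n3 (eq5 b01 (!b12) b13 b14 (!b15)) b15 + n3 (eq5 b03 (!b13) b23 b34 (!b35)) b35 + n3 (eq5 b04 (!b14) b24 (!b34) (!b45)) b45)) = true :=
  (or_spec (or_spec (or_spec (or_spec (or_spec (or_spec (all2_spec (or_spec (or_spec (or_spec (all2_spec (or_spec (or_spec (or_spec (all2_spec (or_spec (all2_spec (or_spec (all2_spec (or_spec (all2_spec (all2_spec (all2_spec (all2_spec (all2_spec (all2_spec (all2_spec (all2_spec (all2_spec (all2_spec sb1_aux b01) b02) b03) b04) b05) b12) b13) b14) b15) b23) h0) b24) h1) b25) h2) b34) h3) h6) h10) b35) h4) h7) h11) b45) h5) h8) h9) h12) h13) h14)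

theorem sb2_aux : (all2 fun b01 => all2 fun b02 => all2 fun b03 => all2 fun b04 => all2 fun b05 => all2 fun b12 => all2 fun b13 => all2 fun b14 => all2 fun b15 => all2 fun b23 => (!(gp (b01 == b23) (b02 == b13) (b03 == b12)) || all2 fun b24 => (!(gp (b01 == b24) (b02 == b14) (b04 == b12)) || all2 fun b25 => (!(gp (b01 == b25) (b02 == b15) (b05 == b12)) || all2 fun b34 => (!(gp (b01 == b34) (b03 == b14) (b04 == b13)) || (!(gp (b02 == b34) (b03 == b24) (b04 == b23)) || (!(gp (b12 == b34) (b13 == b24) (b14 == b23)) || all2 fun b35 => (!(gp (b01 == b35) (b03 == b15) (b05 == b13)) || (!(gp (b02 == b35) (b03 == b25) (b05 == b23)) || (!(gp (b12 == b35) (b13 == b25) (b15 == b23)) || all2 fun b45 => (!(gp (b01 == b45) (b04 == b15) (b05 == b14)) || (!(gp (b02 == b45) (b04 == b25) (b05 == b24)) || (!(gp (b03 == b45) (b04 == b35) (b05 == b34)) || (!(gp (b12 == b45) (b14 == b25) (b15 == b24)) || (!(gp (b13 == b45) (b14 == b35) (b15 == b34)) || (!(gp (b23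 == b45) (b24 == b35) (b25 == b34)) || (Nat.beq (n3 (eq5 b03 (!b13) b23 b34 (!b35)) b35 + n3 (eq5 b05 (!b15) b25 b35 (!b45)) b45 + n3 (eq5 (!b01) b12 b13 (!b14) b15) (!b12)) (n3 (eq5 b04 (!b14) b24 b34 (!b45)) b45 + n3 (eq5 (!b01) b02 b03 (!b04) b05) (!b02) + n3 (eq5 (!b02) b12 b23 (!b24) b25) (!b12))))))))))))))))))) = true := by
  decide +kernel

theorem sb2 (b01 b02 b03 b04 b05 b12 b13 b14 b15 b23 b24 b25 b34 b35 b45 : Bool)
    (h0 : gp (b01 == b23) (b02 == b13) (b03 == b12) = true)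
    (h1 : gp (b01 == b24) (b02 == b14) (b04 == b12) = true)
    (h2 : gp (b01 == b25) (b02 == b15) (b05 == b12) = true)
    (h3 : gp (b01 == b34) (b03 == b14) (b04 == b13) = true)
    (h4 : gp (b01 == b35) (b03 == b15) (b05 == b13) = true)
    (h5 : gp (b01 == b45) (b04 == b15) (b05 == b14) = true)
    (h6 : gp (b02 == b34) (b03 == b24) (b04 == b23) = true)
    (h7 : gp (b02 == b35) (b03 == b25) (b05 == b23) = true)
    (h8 : gp (b02 == b45) (b04 == b25) (b05 == b24) = true)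
    (h9 : gp (b03 == b45) (b04 == b35) (b05 == b34) = true)
    (h10 : gp (b12 == b34) (b13 == b24) (b14 == b23) = true)
    (h11 : gp (b12 == b35) (b13 == b25) (b15 == b23) = true)
    (h12 : gp (b12 == b45) (b14 == b25) (b15 == b24) = true)
    (h13 : gp (b13 == b45) (b14 == b35) (b15 == b34) = true)
    (h14 : gp (b23 == b45) (b24 == b35) (b25 == b34) = true) :
    (Nat.beq (n3 (eq5 b03 (!b13) b23 b34 (!b35)) b35 + n3 (eq5 b05 (!b15) b25 b35 (!b45)) b45 + n3 (eq5 (!b01) b12 b13 (!b14) b15) (!b12)) (n3 (eq5 b04 (!b14) b24 b34 (!b45)) b45 + n3 (eq5 (!b01) b02 b03 (!b04) b05) (!b02) + n3 (eq5 (!b02) b12 b23 (!b24) b25) (!b12))) = true :=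
  (or_spec (or_spec (or_spec (or_spec (or_spec (or_spec (all2_spec (or_spec (or_spec (or_spec (all2_spec (or_spec (or_spec (or_spec (all2_spec (or_spec (all2_spec (or_spec (all2_spec (or_spec (all2_spec (all2_spec (all2_spec (all2_spec (all2_spec (all2_spec (all2_spec (all2_spec (all2_spec (all2_spec sb2_aux b01) b02) b03) b04) b05) b12) b13) b14) b15) b23) h0) b24) h1) b25) h2) b34) h3) h6) h10) b35) h4) h7) h11) b45) h5) h8) h9) h12) h13) h14)

end Pool.Agent.Helper683.Lk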