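import Mathlib
import Pool.Agent.Helper683.Lk.Alg
import Pool.Agent.Helper683.Lk.SBool
import Pool.Agent.Helper683.Geometry

namespace Pool.Agent.Helper683.Lk

open Pool.Agent.Helper683

/-- the cone over `a b c` meets the cone over `r s` -/
def X32 (a b c r s : V4) : Prop :=
  ∃ α β γ ρ σ : ℝ, 0 ≤ α ∧ 0 ≤ β ∧ 0 ≤ γ ∧ 0 ≤ ρ ∧ 0 ≤ σ ∧ α + β + γ + ρ + σ = 1 ∧
    α • a + β • b + γ • c = ρ • r + σ • s

/-- the cone over `a b c d` contains `r` -/
def X41 (a b c d r : V4) : Prop :=
  ∃ α β γ δ : ℝ, 0 ≤ α ∧ 0 ≤ β ∧ 0 ≤ γ ∧ 0 ≤ δ ∧
    α • a + β • b + γ • c + δ • d = r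

theorem X32_of {a b c r s : V4} {α β γ ρ σ : ℝ} (h1 : 0 ≤ α) (h2 : 0 ≤ β) (h3 : 0 ≤ γ) (h4 : 0 ≤ ρ)
    (h5 : 0 ≤ σ) (h6 : 0 < α + β + γ + ρ + σ) (h7 : α • a + β • b + γ • c = ρ • r + σ • s) :
    X32 a b c r s := by
  set t := α + β + γ + ρ + σ with ht
  refine ⟨α / t, β / t, γ / t, ρ / t, σ / t, by positivity, by positivity, by positivity, by positivity,
    by positivity, ?_, ?_⟩
  · field_simp; linarith
  · have : (α / t) • a + (β / t) • b + (γ / t) • c - ((ρ / t) • r + (σ / t) • s) =
      (1 / t) • (α • a + β • b + γ • c - (ρ • r + σ • s)) := by module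
    rw [h7, sub_self, smul_zero, sub_eq_zero] at this
    exact this

theorem pos_true {x : ℝ} (h : pos x = true) : 0 < x := by
  unfold pos at h; exact of_decide_eq_true h
theorem pos_false {x : ℝ} (hx : x ≠ 0) (h : pos x = false) : x < 0 := by
  unfold pos at h
  have := of_decide_eq_false h
  rcases lt_or_gt_of_ne hx with h' | h'
  · exact h'
  · exact absurd h' this
theorem pos_of_pos {x : ℝ} (h : 0 < x) : pos x = true := decide_eq_true h
theorem pos_of_neg {x : ℝ} (h : x < 0) : pos x = false := decide_eq_false h.not_gt

theorem X32_iff {a b c r s : V4} {la lb lc lr ls : ℝ}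
    (ha : la ≠ 0) (hb : lb ≠ 0) (hc : lc ≠ 0) (hr : lr ≠ 0) (hs : ls ≠ 0)
    (hlin : la • a + lb • b + lc • c + lr • r + ls • s = 0)
    (hdet : D a b c r ≠ 0) :
    X32 a b c r s ↔ eq5 (pos la) (pos lb) (pos lc) (!pos lr) (!pos ls) = true := by
  rw [eq5_iff]
  constructor
  · rintro ⟨α, β, γ, ρ, σ, hα, hβ, hγ, hρ, hσ, h1, h3⟩
    set k : ℝ := -σ / ls with hk
    have hkls : k * ls = -σ := by rw [hk]; field_simp
    have e2 : (α - k * la) • a + (β - k * lb) • b + (γ - k * lc) • c + (-ρ - k * lr) • r = 0 := by
      have h5 : (α - k * la) • a + (β - k * lb) • b + (γ - k * lc) • c + (-ρ - k * lr) • r =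
         (α • a + β • b + γ • c - ρ • r - σ • s) -
          k • (la • a + lb • b + lc • c + lr • r + ls • s) + (k * ls + σ) • s := by module
      rw [h5, hlin, hkls, h3]; simp
    obtain ⟨g1, g2, g3, g4⟩ := indep a b c r hdet _ _ _ _ e2
    have k0 : k ≠ 0 := by
      intro hk0
      rw [hk0] at g1 g2 g3 g4 hkls
      linarith
    have q1 : k * la = α := by linarith
    have q2 : k * lb = β := by linarith
    have q3 : k * lc = γ := by linarith
    have q4 : k * lr = -ρ := by linarith
    rcases lt_or_gt_of_ne k0 with hk' | hk'
    · have p1 : la < 0 := by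
        rcases lt_or_gt_of_ne ha with h | h; · exact h
        have := mul_neg_of_neg_of_pos hk' h; linarith
      have p2 : lb < 0 := by
        rcases lt_or_gt_of_ne hb with h | h; · exact h
        have := mul_neg_of_neg_of_pos hk' h; linarith
      have p3 : lc < 0 := by
        rcases lt_or_gt_of_ne hc with h | h; · exact h
        have := mul_neg_of_neg_of_pos hk' h; linarith
      have p4 : 0 < lr := by
        rcases lt_or_gt_of_ne hr with h | h; swap; · exact h
        have := mul_pos_of_neg_of_neg hk' h; linarith
      have p5 : 0 < ls := by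
        rcases lt_or_gt_of_ne hs with h | h; swap; · exact h
        have := mul_pos_of_neg_of_neg hk' h; linarith
      simp [pos, p1.not_gt, p2.not_gt, p3.not_gt, p4, p5]
    · have p1 : 0 < la := by
        rcases lt_or_gt_of_ne ha with h | h; swap; · exact h
        have := mul_neg_of_pos_of_neg hk' h; linarith
      have p2 : 0 < lb := by
        rcases lt_or_gt_of_ne hb with h | h; swap; · exact h
        have := mul_neg_of_pos_of_neg hk' h; linarith
      have p3 : 0 < lc := by
        rcases lt_or_gt_of_ne hc with h | h; swap; · exact h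
        have := mul_neg_of_pos_of_neg hk' h; linarith
      have p4 : lr < 0 := by
        rcases lt_or_gt_of_ne hr with h | h; · exact h
        have := mul_pos hk' h; linarith
      have p5 : ls < 0 := by
        rcases lt_or_gt_of_ne hs with h | h; · exact h
        have := mul_pos hk' h; linarith
      simp [pos, p1, p2, p3, p4.not_gt, p5.not_gt]
  · rintro ⟨h1, h2, h3, h4⟩
    cases h0 : pos la
    · rw [h0] at h1
      rw [← h1] at h2
      rw [← h2] at h3
      rw [← h3] at h4
      have a' := pos_false ha h0
      have b' := pos_false hb h1.symm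
      have c' := pos_false hc h2.symm
      have r' := pos_true (by simpa using h3.symm : pos lr = true)
      have s' := pos_true (by simpa using h4.symm : pos ls = true)
      apply X32_of (α := -la) (β := -lb) (γ := -lc) (ρ := lr) (σ := ls) (by linarith) (by linarith)
        (by linarith) (by linarith) (by linarith) (by linarith)
      have : -la • a + -lb • b + -lc • c - (lr • r + ls • s) =
        (-1 : ℝ) • (la • a + lb • b + lc • c + lr • r + ls • s) := by module
      rw [hlin, smul_zero, sub_eq_zero] at this
      exact this
    · rw [h0] at h1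
      rw [← h1] at h2
      rw [← h2] at h3
      rw [← h3] at h4
      have a' := pos_true h0
      have b' := pos_true h1.symm
      have c' := pos_true h2.symm
      have r' := pos_false hr (by simpa using h3.symm : pos lr = false)
      have s' := pos_false hs (by simpa using h4.symm : pos ls = false)
      apply X32_of (α := la) (β := lb) (γ := lc) (ρ := -lr) (σ := -ls) (by linarith) (by linarith)
        (by linarith) (by linarith) (by linarith) (by linarith)
      have : la • a + lb • b + lc • c - (-lr • r + -ls • s) =
        (la • a + lb • b + lc • c + lr • r + ls • s) := by module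
      rw [hlin, sub_eq_zero] at this
      exact this

theorem X41_iff {a b c d r : V4} {la lb lc ld lr : ℝ}
    (ha : la ≠ 0) (hb : lb ≠ 0) (hc : lc ≠ 0) (hd : ld ≠ 0) (hr : lr ≠ 0)
    (hlin : la • a + lb • b + lc • c + ld • d + lr • r = 0)
    (hdet : D a b c d ≠ 0) :
    X41 a b c d r ↔ eq5 (pos la) (pos lb) (pos lc) (pos ld) (!pos lr) = true := by
  rw [eq5_iff]
  constructor
  · rintro ⟨α, β, γ, δ, hα, hβ, hγ, hδ, h3⟩
    set k : ℝ := -1 / lr with hk
    have hklr : k * lr = -1 := by rw [hk]; field_simp
    have e2 : (α - k * la) • a + (β - k * lb) • b + (γ - k * lc) • c + (δ - k * ld) • d = 0 := by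
      have h5 : (α - k * la) • a + (β - k * lb) • b + (γ - k * lc) • c + (δ - k * ld) • d =
         (α • a + β • b + γ • c + δ • d - r) -
          k • (la • a + lb • b + lc • c + ld • d + lr • r) + (k * lr + 1) • r := by module
      rw [h5, hlin, h3, hklr]; simp
    obtain ⟨g1, g2, g3, g4⟩ := indep a b c d hdet _ _ _ _ e2
    have k0 : k ≠ 0 := by
      intro hk0
      rw [hk0] at hklr
      linarith
    have q1 : k * la = α := by linarith
    have q2 : k * lb = β := by linarith
    have q3 : k * lc = γ := by linarith
    have q4 : k * ld = δ := by linarith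
    rcases lt_or_gt_of_ne k0 with hk' | hk'
    · have p1 : la < 0 := by
        rcases lt_or_gt_of_ne ha with h | h; · exact h
        have := mul_neg_of_neg_of_pos hk' h; linarith
      have p2 : lb < 0 := by
        rcases lt_or_gt_of_ne hb with h | h; · exact h
        have := mul_neg_of_neg_of_pos hk' h; linarith
      have p3 : lc < 0 := by
        rcases lt_or_gt_of_ne hc with h | h; · exact h
        have := mul_neg_of_neg_of_pos hk' h; linarith
      have p4 : ld < 0 := by
        rcases lt_or_gt_of_ne hd with h | h; · exact h
        have := mul_neg_of_neg_of_pos hk' h; linarith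
      have p5 : 0 < lr := by
        rcases lt_or_gt_of_ne hr with h | h; swap; · exact h
        have := mul_pos_of_neg_of_neg hk' h; linarith
      simp [pos, p1.not_gt, p2.not_gt, p3.not_gt, p4.not_gt, p5]
    · have p1 : 0 < la := by
        rcases lt_or_gt_of_ne ha with h | h; swap; · exact h
        have := mul_neg_of_pos_of_neg hk' h; linarith
      have p2 : 0 < lb := by
        rcases lt_or_gt_of_ne hb with h | h; swap; · exact h
        have := mul_neg_of_pos_of_neg hk' h; linarith
      have p3 : 0 < lc := by
        rcases lt_or_gt_of_ne hc with h | h; swap; · exact h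
        have := mul_neg_of_pos_of_neg hk' h; linarith
      have p4 : 0 < ld := by
        rcases lt_or_gt_of_ne hd with h | h; swap; · exact h
        have := mul_neg_of_pos_of_neg hk' h; linarith
      have p5 : lr < 0 := by
        rcases lt_or_gt_of_ne hr with h | h; · exact h
        have := mul_pos hk' h; linarith
      simp [pos, p1, p2, p3, p4, p5.not_gt]
  · rintro ⟨h1, h2, h3, h4⟩
    cases h0 : pos la
    · rw [h0] at h1
      rw [← h1] at h2
      rw [← h2] at h3
      rw [← h3] at h4
      have a' := pos_false ha h0
      have b' := pos_false hb h1.symm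
      have c' := pos_false hc h2.symm
      have d' := pos_false hd h3.symm
      have r' := pos_true (by simpa using h4.symm : pos lr = true)
      refine ⟨-la / lr, -lb / lr, -lc / lr, -ld / lr, ?_, ?_, ?_, ?_, ?_⟩
      · apply div_nonneg <;> linarith
      · apply div_nonneg <;> linarith
      · apply div_nonneg <;> linarith
      · apply div_nonneg <;> linarith
      · have : (-la / lr) • a + (-lb / lr) • b + (-lc / lr) • c + (-ld / lr) • d - (lr / lr) • r =
          (-1 / lr) • (la • a + lb • b + lc • c + ld • d + lr • r) := by module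
        rw [hlin, smul_zero, div_self hr, one_smul, sub_eq_zero] at this
        exact this
    · rw [h0] at h1
      rw [← h1] at h2
      rw [← h2] at h3
      rw [← h3] at h4
      have a' := pos_true h0
      have b' := pos_true h1.symm
      have c' := pos_true h2.symm
      have d' := pos_true h3.symm
      have r' := pos_false hr (by simpa using h4.symm : pos lr = false)
      refine ⟨-la / lr, -lb / lr, -lc / lr, -ld / lr, ?_, ?_, ?_, ?_, ?_⟩
      · apply div_nonneg_of_nonpos <;> linarith
      · apply div_nonneg_of_nonpos <;> linarith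
      · apply div_nonneg_of_nonpos <;> linarith
      · apply div_nonneg_of_nonpos <;> linarith
      · have : (-la / lr) • a + (-lb / lr) • b + (-lc / lr) • c + (-ld / lr) • d - (lr / lr) • r =
          (-1 / lr) • (la • a + lb • b + lc • c + ld • d + lr • r) := by module
        rw [hlin, smul_zero, div_self hr, one_smul, sub_eq_zero] at this
        exact this

end Pool.Agent.Helper683.Lk
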