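import Mathlib
import Pool.Agent.Helper683.Lk.Loc

set_option maxHeartbeats 4000000

namespace Pool.Agent.Helper683.Lk

open Pool.Agent.Helper683

variable {ι : Type*}

theorem X32_swap12 {a b c r s : V4} : X32 a b c r s ↔ X32 b a c r s := by
  constructor
  · rintro ⟨α, β, γ, ρ, σ, h1, h2, h3, h4, h5, h6, h8⟩
    exact ⟨β, α, γ, ρ, σ, h2, h1, h3, h4, h5, by linarith, by rw [← h8]; module⟩
  · rintro ⟨α, β, γ, ρ, σ, h1, h2, h3, h4, h5, h6, h8⟩
    exact ⟨β, α, γ, ρ, σ, h2, h1, h3, h4, h5, by linarith, by rw [← h8]; module⟩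

theorem X32_swap23 {a b c r s : V4} : X32 a b c r s ↔ X32 a c b r s := by
  constructor
  · rintro ⟨α, β, γ, ρ, σ, h1, h2, h3, h4, h5, h6, h8⟩
    exact ⟨α, γ, β, ρ, σ, h1, h3, h2, h4, h5, by linarith, by rw [← h8]; module⟩
  · rintro ⟨α, β, γ, ρ, σ, h1, h2, h3, h4, h5, h6, h8⟩
    exact ⟨α, γ, β, ρ, σ, h1, h3, h2, h4, h5, by linarith, by rw [← h8]; module⟩

theorem X32_swap45 {a b c r s : V4} : X32 a b c r s ↔ X32 a b c s r := by
  constructor
  · rintro ⟨α, β, γ, ρ, σ, h1, h2, h3, h4, h5, h6, h8⟩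
    exact ⟨α, β, γ, σ, ρ, h1, h2, h3, h5, h4, by linarith, by rw [h8]; module⟩
  · rintro ⟨α, β, γ, ρ, σ, h1, h2, h3, h4, h5, h6, h8⟩
    exact ⟨α, β, γ, σ, ρ, h1, h2, h3, h5, h4, by linarith, by rw [h8]; module⟩

theorem sI_swap12 (a b c r s : V4) : sI b a c r s = - sI a b c r s := by
  unfold sI
  rw [D_swap12]
  by_cases h : X32 a b c r s
  · rw [if_pos h, if_pos (X32_swap12.mp h), Left.sign_neg]; simp
  · rw [if_neg h, if_neg (fun h' => h (X32_swap12.mp h'))]; simp

theorem sI_swap23 (a b c r s : V4) : sI a c b r s = - sI a b c r s := by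
  unfold sI
  rw [D_swap23]
  by_cases h : X32 a b c r s
  · rw [if_pos h, if_pos (X32_swap23.mp h), Left.sign_neg]; simp
  · rw [if_neg h, if_neg (fun h' => h (X32_swap23.mp h'))]; simp

theorem sI_swap45 {a b c r s : V4} (h1 : D a b c r ≠ 0) (h2 : D a b c s ≠ 0) :
    sI a b c s r = - sI a b c r s := by
  unfold sI
  by_cases h : X32 a b c r s
  · rw [if_pos h, if_pos (X32_swap45.mp h)]
    obtain ⟨α, β, γ, ρ, σ, hα, hβ, hγ, hρ, hσ, hs, he⟩ := h
    have e1 : D a b c (α • a + β • b + γ • c) = 0 := by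
      unfold D; simp only [Pi.add_apply, Pi.smul_apply, smul_eq_mul]; ring
    have e2 : D a b c (ρ • r + σ • s) = ρ * D a b c r + σ * D a b c s := by
      unfold D; simp only [Pi.add_apply, Pi.smul_apply, smul_eq_mul]; ring
    rw [he, e2] at e1
    have hρ0 : ρ ≠ 0 := by
      intro h0
      rw [h0] at e1 he hs
      have hσ0 : σ = 0 := by
        rcases mul_eq_zero.mp (by linarith : σ * D a b c s = 0) with h' | h'
        · exact h'
        · exact absurd h' h2
      rw [hσ0] at he hs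
      have := indep a b c r h1 α β γ 0 (by rw [he]; simp)
      obtain ⟨p1, p2, p3, _⟩ := this
      rw [p1, p2, p3] at hs; simp at hs
    have hρp : 0 < ρ := lt_of_le_of_ne hρ hρ0.symm
    rcases lt_or_gt_of_ne h1 with h' | h'
    · have : 0 < D a b c s := by
        by_contra hc
        have h3 : ρ * D a b c r < 0 := mul_neg_of_pos_of_neg hρp h'
        have h4 : σ * D a b c s ≤ 0 := mul_nonpos_of_nonneg_of_nonpos hσ (not_lt.mp hc)
        linarith
      rw [sign_pos this, sign_neg h']; simp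
    · have : D a b c s < 0 := by
        by_contra hc
        have h3 : 0 < ρ * D a b c r := mul_pos hρp h'
        have h4 : 0 ≤ σ * D a b c s := mul_nonneg hσ (not_lt.mp hc)
        linarith
      rw [sign_neg this, sign_pos h']; simp
  · rw [if_neg h, if_neg (fun h' => h (X32_swap45.mpr h'))]; simp

open Classical in
/-- signed crossing; zero for degenerate data -/
noncomputable def I (P : ι → V4) (a b c r s : ι) : ℤ :=
  if [a, b, c, r, s].Nodup then sI (P a) (P b) (P c) (P r) (P s) else 0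

open Classical in
noncomputable def J (P : ι → V4) (a b c d r : ι) : ℤ :=
  if [a, b, c, d, r].Nodup then sJ (P a) (P b) (P c) (P d) (P r) else 0

theorem I_swap12 (P : ι → V4) (a b c r s : ι) : I P b a c r s = - I P a b c r s := by
  unfold I
  have : [a, b, c, r, s].Nodup ↔ [b, a, c, r, s].Nodup := by
    simp only [List.nodup_cons, List.mem_cons, not_or]; tauto
  by_cases h : [a, b, c, r, s].Nodup
  · rw [if_pos h, if_pos (this.mp h), sI_swap12]
  · rw [if_neg h, if_neg (fun h' => h (this.mpr h'))]; simp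

theorem I_swap23 (P : ι → V4) (a b c r s : ι) : I P a c b r s = - I P a b c r s := by
  unfold I
  have : [a, b, c, r, s].Nodup ↔ [a, c, b, r, s].Nodup := by
    simp only [List.nodup_cons, List.mem_cons, not_or]; tauto
  by_cases h : [a, b, c, r, s].Nodup
  · rw [if_pos h, if_pos (this.mp h), sI_swap23]
  · rw [if_neg h, if_neg (fun h' => h (this.mpr h'))]; simp

theorem I_swap45 (P : ι → V4) (hP : Gen P) (a b c r s : ι) : I P a b c s r = - I P a b c r s := by
  unfold I
  have : [a, b, c, r, s].Nodup ↔ [a, b, c, s, r].Nodup := by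
    simp only [List.nodup_cons, List.mem_cons, not_or]; tauto
  by_cases h : [a, b, c, r, s].Nodup
  · rw [if_pos h, if_pos (this.mp h), sI_swap45]
    · simp only [List.nodup_cons, List.mem_cons, not_or] at h
      exact hP _ _ _ _ (by tauto) (by tauto) (by tauto) (by tauto) (by tauto) (by tauto)
    · simp only [List.nodup_cons, List.mem_cons, not_or] at h
      exact hP _ _ _ _ (by tauto) (by tauto) (by tauto) (by tauto) (by tauto) (by tauto)
  · rw [if_neg h, if_neg (fun h' => h (this.mpr h'))]; simp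

theorem I_deg12 (P : ι → V4) (a c r s : ι) : I P a a c r s = 0 := by
  unfold I; rw [if_neg]; simp
theorem I_deg23 (P : ι → V4) (a b r s : ι) : I P a b b r s = 0 := by
  unfold I; rw [if_neg]; simp
theorem I_deg13 (P : ι → V4) (a b r s : ι) : I P a b a r s = 0 := by
  unfold I; rw [if_neg]; simp
theorem I_deg45 (P : ι → V4) (a b c r : ι) : I P a b c r r = 0 := by
  unfold I; rw [if_neg]; simp

theorem local1 (P : ι → V4) (hP : Gen P) (O a b c r s : ι)
    (h1 : O ≠ r) (h2 : a ≠ r) (h3 : b ≠ r) (h4 : c ≠ r)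
    (h5 : O ≠ s) (h6 : a ≠ s) (h7 : b ≠ s) (h8 : c ≠ s) :
    I P a b c r s - I P O b c r s + I P O a c r s - I P O a b r s = J P O a b c s - J P O a b c r := by
  by_cases hrs : r = s
  · subst hrs; simp [I_deg45]
  by_cases hn : O ≠ a ∧ O ≠ b ∧ O ≠ c ∧ a ≠ b ∧ a ≠ c ∧ b ≠ c
  · obtain ⟨n1, n2, n3, n4, n5, n6⟩ := hn
    have h := six_l1 P hP O a b c r s n1 n2 n3 h1 h5 n4 n5 h2 h6 n6 h3 h7 h4 h8 hrs
    unfold I J
    rw [if_pos (by simp [*]), if_pos (by simp [*]), if_pos (by simp [*]), if_pos (by simp [*]),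
      if_pos (by simp [*]), if_pos (by simp [*])]
    exact h
  · have hJ : ∀ t, J P O a b c t = 0 := by
      intro t; unfold J; rw [if_neg]
      intro hnd
      apply hn
      simp only [List.nodup_cons, List.mem_cons, not_or] at hnd
      tauto
    rw [hJ, hJ, sub_zero]
    have : O = a ∨ O = b ∨ O = c ∨ a = b ∨ a = c ∨ b = c := by tauto
    rcases this with h | h | h | h | h | h
    · subst h; rw [I_deg12, I_deg12]; ring
    · subst h; rw [I_deg13, I_deg12, I_swap12 P a O c r s]; ring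
    · subst h; rw [I_deg13, I_deg13, I_swap12 P a O b, I_swap23 P a b O]; ring
    · subst h; rw [I_deg12, I_deg23]; ring
    · subst h; rw [I_deg13, I_deg23, I_swap23 P O a b]; ring
    · subst h; rw [I_deg23, I_deg23]; ring

theorem local2 (P : ι → V4) (hP : Gen P) (O p q O' r s : ι)
    (h1 : O ≠ O') (h2 : O ≠ r) (h3 : O ≠ s) (h4 : p ≠ O') (h5 : p ≠ r) (h6 : p ≠ s)
    (h7 : q ≠ O') (h8 : q ≠ r) (h9 : q ≠ s) :
    I P O p q r s - I P O p q O' s + I P O p q O' r =
      I P O' r s p q - I P O' r s O q + I P O' r s O p := by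
  by_cases hn : O ≠ p ∧ O ≠ q ∧ p ≠ q ∧ O' ≠ r ∧ O' ≠ s ∧ r ≠ s
  · obtain ⟨n1, n2, n3, n4, n5, n6⟩ := hn
    have h := six_l2 P hP O p q O' r s n1 n2 h1 h2 h3 n3 h4 h5 h6 h7 h8 h9 n4 n5 n6
    unfold I
    have n1' := n1.symm
    have n2' := n2.symm
    have n3' := n3.symm
    have n4' := n4.symm
    have n5' := n5.symm
    have n6' := n6.symm
    have h1' := h1.symm
    have h2' := h2.symm
    have h3' := h3.symm
    have h4' := h4.symm
    have h5' := h5.symm
    have h6' := h6.symm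
    have h7' := h7.symm
    have h8' := h8.symm
    have h9' := h9.symm
    rw [if_pos (by simp [*]), if_pos (by simp [*]), if_pos (by simp [*]), if_pos (by simp [*]),
      if_pos (by simp [*]), if_pos (by simp [*])]
    exact h
  · have : O = p ∨ O = q ∨ p = q ∨ O' = r ∨ O' = s ∨ r = s := by tauto
    rcases this with h | h | h | h | h | h
    · subst h; simp only [I_deg12, I_deg45]; ring
    · subst h; simp only [I_deg13, I_deg45]; rw [I_swap45 P hP O' r s O p]; ring
    · subst h; simp only [I_deg23, I_deg45]; ring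
    · subst h; simp only [I_deg12, I_deg45]; ring
    · subst h; simp only [I_deg13, I_deg45]; rw [I_swap45 P hP O p q O' r]; ring
    · subst h; simp only [I_deg23, I_deg45]; ring

/-! ### chains -/

/-- boundary pairing of a one-chain (a multiset of oriented edges) -/
def bd (c : Multiset (ι × ι)) (h : ι → ℤ) : ℤ := (c.map fun e => h e.2 - h e.1).sum

def IsCyc (c : Multiset (ι × ι)) : Prop := ∀ h : ι → ℤ, bd c h = 0

/-- cone pairing with apex `O` -/
noncomputable def lk (P : ι → V4) (O : ι) (c d : Multiset (ι × ι)) : ℤ :=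
  (c.map fun e => (d.map fun f => I P O e.1 e.2 f.1 f.2).sum).sum

theorem lk_add_left (P : ι → V4) (O : ι) (c c' d : Multiset (ι × ι)) :
    lk P O (c + c') d = lk P O c d + lk P O c' d := by
  unfold lk; rw [Multiset.map_add, Multiset.sum_add]

theorem lk_add_right (P : ι → V4) (O : ι) (c d d' : Multiset (ι × ι)) :
    lk P O c (d + d') = lk P O c d + lk P O c d' := by
  unfold lk
  rw [← Multiset.sum_map_add]
  congr 1; apply Multiset.map_congr rfl; intro e _
  rw [Multiset.map_add, Multiset.sum_add]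

theorem bd_add (c d : Multiset (ι × ι)) (h : ι → ℤ) : bd (c + d) h = bd c h + bd d h := by
  unfold bd; rw [Multiset.map_add, Multiset.sum_add]

theorem msum_congr {α : Type*} {m : Multiset α} {f g : α → ℤ} (h : ∀ x ∈ m, f x = g x) :
    (m.map f).sum = (m.map g).sum := by
  rw [Multiset.map_congr rfl h]

theorem msum_zero {α : Type*} {m : Multiset α} {f : α → ℤ} (h : ∀ x ∈ m, f x = 0) :
    (m.map f).sum = 0 := by
  rw [Multiset.map_congr rfl h]; simp

theorem msum_sub {α : Type*} (m : Multiset α) (f g : α → ℤ) :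
    (m.map f).sum - (m.map g).sum = (m.map fun x => f x - g x).sum := by
  rw [Multiset.sum_map_sub]

theorem msum_neg {α : Type*} (m : Multiset α) (f : α → ℤ) :
    - (m.map f).sum = (m.map fun x => - f x).sum := by
  induction m using Multiset.induction_on with
  | empty => simp
  | cons a m ih => simp only [Multiset.map_cons, Multiset.sum_cons]; rw [← ih]; ring

/-- disjointness of an index from a chain -/
def Off (x : ι) (d : Multiset (ι × ι)) : Prop := ∀ f ∈ d, x ≠ f.1 ∧ x ≠ f.2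

theorem lk_apex (P : ι → V4) (hP : Gen P) (O O' : ι) (c d : Multiset (ι × ι))
    (hc : IsCyc c) (hd : IsCyc d)
    (hcd : ∀ e ∈ c, ∀ f ∈ d, e.1 ≠ f.1 ∧ e.1 ≠ f.2 ∧ e.2 ≠ f.1 ∧ e.2 ≠ f.2)
    (hO : Off O d) (hO' : Off O' d) :
    lk P O c d = lk P O' c d := by
  rw [← sub_eq_zero]
  have key : ∀ e ∈ c, ∀ f ∈ d, I P O e.1 e.2 f.1 f.2 - I P O' e.1 e.2 f.1 f.2 =
      (I P O O' e.2 f.1 f.2 - I P O O' e.1 f.1 f.2) - (J P O O' e.1 e.2 f.2 - J P O O' e.1 e.2 f.1) := by
    intro e he f hf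
    obtain ⟨a1, a2, a3, a4⟩ := hcd e he f hf
    have := local1 P hP O O' e.1 e.2 f.1 f.2 (hO f hf).1 (hO' f hf).1 a1 a3 (hO f hf).2 (hO' f hf).2 a2 a4
    linarith
  have h1 : lk P O c d - lk P O' c d =
      (c.map fun e => (d.map fun f => (I P O O' e.2 f.1 f.2 - I P O O' e.1 f.1 f.2)).sum).sum -
      (c.map fun e => (d.map fun f => (J P O O' e.1 e.2 f.2 - J P O O' e.1 e.2 f.1)).sum).sum := by
    unfold lk
    rw [msum_sub, msum_sub]
    apply msum_congr
    intro e he
    rw [msum_sub, msum_sub]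
    apply msum_congr
    intro f hf
    exact key e he f hf
  rw [h1]
  have h2 : (c.map fun e => (d.map fun f => (J P O O' e.1 e.2 f.2 - J P O O' e.1 e.2 f.1)).sum).sum = 0 := by
    apply msum_zero
    intro e _
    exact hd (fun x => J P O O' e.1 e.2 x)
  have h3 : (c.map fun e => (d.map fun f => (I P O O' e.2 f.1 f.2 - I P O O' e.1 f.1 f.2)).sum).sum = 0 := by
    rw [Multiset.sum_map_sum_map]
    apply msum_zero
    intro f _
    exact hc (fun x => I P O O' x f.1 f.2)
  rw [h2, h3, sub_zero]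

theorem lk_swap (P : ι → V4) (hP : Gen P) (O O' : ι) (c d : Multiset (ι × ι))
    (hc : IsCyc c) (hd : IsCyc d) (hOO : O ≠ O')
    (hcd : ∀ e ∈ c, ∀ f ∈ d, e.1 ≠ f.1 ∧ e.1 ≠ f.2 ∧ e.2 ≠ f.1 ∧ e.2 ≠ f.2)
    (hO : Off O d) (hO' : Off O' c) :
    lk P O c d = lk P O' d c := by
  rw [← sub_eq_zero]
  have key : ∀ e ∈ c, ∀ f ∈ d, I P O e.1 e.2 f.1 f.2 - I P O' f.1 f.2 e.1 e.2 =
      (I P O e.1 e.2 O' f.2 - I P O e.1 e.2 O' f.1) -
      (I P O' f.1 f.2 O e.2 - I P O' f.1 f.2 O e.1) := by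
    intro e he f hf
    obtain ⟨a1, a2, a3, a4⟩ := hcd e he f hf
    have := local2 P hP O e.1 e.2 O' f.1 f.2 hOO (hO f hf).1 (hO f hf).2 (hO' e he).1.symm a1 a2
      (hO' e he).2.symm a3 a4
    linarith
  have h1 : lk P O c d - lk P O' d c =
      (c.map fun e => (d.map fun f => (I P O e.1 e.2 O' f.2 - I P O e.1 e.2 O' f.1)).sum).sum -
      (c.map fun e => (d.map fun f => (I P O' f.1 f.2 O e.2 - I P O' f.1 f.2 O e.1)).sum).sum := by
    unfold lk
    rw [Multiset.sum_map_sum_map d c]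
    rw [msum_sub, msum_sub]
    apply msum_congr
    intro e he
    rw [msum_sub, msum_sub]
    apply msum_congr
    intro f hf
    exact key e he f hf
  rw [h1]
  have h2 : (c.map fun e => (d.map fun f => (I P O e.1 e.2 O' f.2 - I P O e.1 e.2 O' f.1)).sum).sum = 0 := by
    apply msum_zero
    intro e _
    exact hd (fun x => I P O e.1 e.2 O' x)
  have h3 : (c.map fun e => (d.map fun f => (I P O' f.1 f.2 O e.2 - I P O' f.1 f.2 O e.1)).sum).sum = 0 := by
    rw [Multiset.sum_map_sum_map]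
    apply msum_zero
    intro f _
    exact hc (fun x => I P O' f.1 f.2 O x)
  rw [h2, h3, sub_zero]

theorem lk_symm (P : ι → V4) (hP : Gen P) (O O' : ι) (c d : Multiset (ι × ι))
    (hc : IsCyc c) (hd : IsCyc d) (hOO : O ≠ O')
    (hcd : ∀ e ∈ c, ∀ f ∈ d, e.1 ≠ f.1 ∧ e.1 ≠ f.2 ∧ e.2 ≠ f.1 ∧ e.2 ≠ f.2)
    (hOd : Off O d) (hOc : Off O c) (hO'c : Off O' c) :
    lk P O c d = lk P O d c := by
  rw [lk_swap P hP O O' c d hc hd hOO hcd hOd hO'c]
  apply lk_apex P hP O' O d c hd hc _ hO'c hOc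
  intro f hf e he
  obtain ⟨a1, a2, a3, a4⟩ := hcd e he f hf
  exact ⟨a1.symm, a3.symm, a2.symm, a4.symm⟩

/-- pairing of one edge with a chain, first variable -/
noncomputable def F1 (P : ι → V4) (O : ι) (d : Multiset (ι × ι)) (x y : ι) : ℤ :=
  (d.map fun f => I P O x y f.1 f.2).sum
/-- pairing of a chain with one edge -/
noncomputable def F2 (P : ι → V4) (O : ι) (c : Multiset (ι × ι)) (x y : ι) : ℤ :=
  (c.map fun e => I P O e.1 e.2 x y).sum

theorem F1_deg (P : ι → V4) (O : ι) (d : Multiset (ι × ι)) (x : ι) : F1 P O d x x = 0 := by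
  unfold F1; exact msum_zero fun f _ => I_deg23 _ _ _ _ _
theorem F2_deg (P : ι → V4) (O : ι) (c : Multiset (ι × ι)) (x : ι) : F2 P O c x x = 0 := by
  unfold F2; exact msum_zero fun f _ => I_deg45 _ _ _ _ _

theorem I_of_not {P : ι → V4} {a b c r s : ι} (h : ¬ X32 (P a) (P b) (P c) (P r) (P s)) :
    I P a b c r s = 0 := by
  unfold I; split_ifs
  · unfold sI; rw [if_neg h]
  · rfl

theorem tri1 (P : ι → V4) (hP : Gen P) (O : ι) (d : Multiset (ι × ι)) (hd : IsCyc d) (hO : Off O d)
    (a b c : ι) (ha : Off a d) (hb : Off b d) (hc : Off c d)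
    (hX : ∀ f ∈ d, ¬ X32 (P a) (P b) (P c) (P f.1) (P f.2)) :
    F1 P O d a b + F1 P O d b c = F1 P O d a c := by
  have : F1 P O d a b + F1 P O d b c - F1 P O d a c =
      - (d.map fun f => J P O a b c f.2 - J P O a b c f.1).sum := by
    unfold F1
    rw [← Multiset.sum_map_add, msum_sub, msum_neg]
    apply msum_congr
    intro f hf
    have h := local1 P hP O a b c f.1 f.2 (hO f hf).1 (ha f hf).1 (hb f hf).1 (hc f hf).1
      (hO f hf).2 (ha f hf).2 (hb f hf).2 (hc f hf).2
    rw [I_of_not (hX f hf)] at h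
    linarith
  rw [show (d.map fun f => J P O a b c f.2 - J P O a b c f.1).sum = 0 from hd (fun x => J P O a b c x),
    neg_zero] at this
  linarith

theorem tri2 (P : ι → V4) (hP : Gen P) (O : ι) (c : Multiset (ι × ι)) (hc : IsCyc c)
    (u r s : ι) (hOu : O ≠ u) (hOr : O ≠ r) (hOs : O ≠ s) (hu : Off u c) (hr : Off r c) (hs : Off s c)
    (hX : ∀ e ∈ c, ¬ X32 (P u) (P r) (P s) (P e.1) (P e.2)) :
    F2 P O c u r + F2 P O c r s = F2 P O c u s := by
  have : F2 P O c u r + F2 P O c r s - F2 P O c u s =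
      - (c.map fun e => I P u r s O e.2 - I P u r s O e.1).sum := by
    unfold F2
    rw [← Multiset.sum_map_add, msum_sub, msum_neg]
    apply msum_congr
    intro e he
    have h := local2 P hP O e.1 e.2 u r s hOu hOr hOs (hu e he).1.symm (hr e he).1.symm (hs e he).1.symm
      (hu e he).2.symm (hr e he).2.symm (hs e he).2.symm
    rw [I_of_not (hX e he)] at h
    linarith
  rw [show (c.map fun e => I P u r s O e.2 - I P u r s O e.1).sum = 0 from hc (fun x => I P u r s O x),
    neg_zero] at this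
  linarith

end Pool.Agent.Helper683.Lk
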