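import Mathlib

/-! Linking numbers of closed curves in three-space, read off from projections of inscribed
polygons, spatial embeddings of graphs, and strong intrinsic linking. -/

namespace Pool.Agent.Helper683.Lk

/-- Euclidean three-space. -/
abbrev R3 := EuclideanSpace ℝ (Fin 3)

/-- The determinant of three vectors. -/
def det3 (x y z : R3) : ℝ :=
  x 0 * (y 1 * z 2 - y 2 * z 1) - x 1 * (y 0 * z 2 - y 2 * z 0) + x 2 * (y 0 * z 1 - y 1 * z 0)

/-- Seen from the direction `v`, the segment from `a` to `b` passes over the segment from `c` to
`d`: some point `x` of the first one is `y + h v` with `y` on the second one and `h > 0`. -/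
def Over (v a b c d : R3) : Prop :=
  ∃ x ∈ segment ℝ a b, ∃ y ∈ segment ℝ c d, ∃ h : ℝ, 0 < h ∧ x = y + h • v

open Classical in
/-- The sign of the crossing at which the oriented segment from `a` to `b` passes over the oriented
segment from `c` to `d`, and `0` if there is no such crossing. -/
noncomputable def crossSign (v a b c d : R3) : ℤ :=
  if Over v a b c d then (SignType.sign (det3 (b - a) (d - c) v) : ℤ) else 0

/-- The projection along `v` is regular for the polygons with vertices `p 0, ..., p m` and
`q 0, ..., q n`: no vertex of one of them is projected to the image of the other. -/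
def Regular (v : R3) (m : ℕ) (p : ℕ → R3) (n : ℕ) (q : ℕ → R3) : Prop :=
  v ≠ 0 ∧
  (∀ i ≤ m, ∀ j < n, ∀ y ∈ segment ℝ (q j) (q (j + 1)), ∀ h : ℝ, p i ≠ y + h • v) ∧
  (∀ j ≤ n, ∀ i < m, ∀ x ∈ segment ℝ (p i) (p (i + 1)), ∀ h : ℝ, q j ≠ x + h • v)

/-- The sum of the signs of the crossings at which the polygon `p 0, ..., p m` passes over the
polygon `q 0, ..., q n`. -/
noncomputable def crossSum (v : R3) (m : ℕ) (p : ℕ → R3) (n : ℕ) (q : ℕ → R3) : ℤ :=
  ∑ i ∈ Finset.range m, ∑ j ∈ Finset.range n, crossSign v (p i) (p (i + 1)) (q j) (q (j + 1))

/-- The `i`-th vertex of the polygon inscribed in the path `γ` at the parameters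
`0, 1/N, 2/N, ..., 1`. -/
noncomputable def inscribed {x y : R3} (γ : Path x y) (N i : ℕ) : R3 := γ.extend ((i : ℝ) / N)

/-- `n` is the linking number of the closed curves `γ` and `δ`: all sufficiently fine inscribed
closed polygons have a regular projection, and the sum of the signs of the crossings at which the
first polygon passes over the second one is `n` in each of their regular projections. -/
def IsLinkingNumber {x y : R3} (γ : Path x x) (δ : Path y y) (n : ℤ) : Prop :=
  ∃ N₀ : ℕ, ∀ M ≥ N₀, ∀ N ≥ N₀,
    (∃ v, Regular v M (inscribed γ M) N (inscribed δ N)) ∧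
    ∀ v, Regular v M (inscribed γ M) N (inscribed δ N) →
      crossSum v M (inscribed γ M) N (inscribed δ N) = n

/-- A spatial embedding of a graph: distinct points of three-space for the vertices and, for every
edge, an arc joining the two points of its ends, the arcs being disjoint except at common ends.
`arc h` is the arc of the edge `h`, traversed from `a` to `b`. -/
structure SpatialEmbedding {V : Type*} (G : SimpleGraph V) where
  pos : V → R3
  pos_injective : Function.Injective pos
  arc : ∀ {a b : V}, G.Adj a b → Path (pos a) (pos b)
  arc_injective : ∀ {a b : V} (h : G.Adj a b), Function.Injective (arc h)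
  arc_symm : ∀ {a b : V} (h : G.Adj a b), arc h.symm = (arc h).symm
  arc_disjoint : ∀ {a b c d : V} (h : G.Adj a b) (h' : G.Adj c d), s(a, b) ≠ s(c, d) →
    ∀ t u : unitInterval, arc h t = arc h' u → ∃ v, v ∈ s(a, b) ∧ v ∈ s(c, d) ∧ arc h t = pos v

/-- The curve which traverses the arcs of the edges of a walk one after the other. -/
noncomputable def SpatialEmbedding.curve {V : Type*} {G : SimpleGraph V} (E : SpatialEmbedding G) :
    ∀ {a b : V}, G.Walk a b → Path (E.pos a) (E.pos b)
  | _, _, .nil => Path.refl _
  | _, _, .cons h w => (E.arc h).trans (E.curve w)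

/-- The graph `G` is strongly intrinsically linked: every spatial embedding of `G` contains two
vertex-disjoint cycles whose linking number has absolute value at least two. -/
def StronglyIntrinsicallyLinked {V : Type*} (G : SimpleGraph V) : Prop :=
  ∀ E : SpatialEmbedding G, ∃ (a b : V) (C : G.Walk a a) (D : G.Walk b b) (n : ℤ),
    C.IsCycle ∧ D.IsCycle ∧ List.Disjoint C.support D.support ∧
    IsLinkingNumber (E.curve C) (E.curve D) n ∧ 2 ≤ |n|

end Pool.Agent.Helper683.Lk
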