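import Mathlib
import Pool.Agent.Helper683.Lk.Loc

set_option maxHeartbeats 4000000

namespace Pool.Agent.Helper683.Lk

open Pool.Agent.Helper683 Topology Filter

/-- moment curve -/
noncomputable def mom (t : ℝ) : V4 := ![1, t, t^2, t^3]

theorem vander (a b c d : ℝ) : D (mom a) (mom b) (mom c) (mom d) =
    (b - a) * (c - a) * (d - a) * (c - b) * (d - b) * (d - c) := by
  unfold D mom
  simp only [Matrix.cons_val_zero, Matrix.cons_val_one, Matrix.cons_val]
  ring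

theorem quartic (A B C E a b c e : V4) (δ : ℝ) :
    D (A + δ • a) (B + δ • b) (C + δ • c) (E + δ • e) =
      D A B C E + (D a B C E + D A b C E + D A B c E + D A B C e) * δ +
      (D a b C E + D a B c E + D a B C e + D A b c E + D A b C e + D A B c e) * δ ^ 2 +
      (D a b c E + D a b C e + D a B c e + D A b c e) * δ ^ 3 + D a b c e * δ ^ 4 := by
  unfold D
  simp only [Pi.add_apply, Pi.smul_apply, smul_eq_mul]
  ring

theorem roots_finite (A B C E a b c e : V4) (h : D a b c e ≠ 0) :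
    {δ : ℝ | D (A + δ • a) (B + δ • b) (C + δ • c) (E + δ • e) = 0}.Finite := by
  open Polynomial in
  set c0 := D A B C E
  set c1 := (D a B C E + D A b C E + D A B c E + D A B C e)
  set c2 := (D a b C E + D a B c E + D a B C e + D A b c E + D A b C e + D A B c e)
  set c3 := (D a b c E + D a b C e + D a B c e + D A b c e)
  let p : Polynomial ℝ := Polynomial.C c0 + Polynomial.C c1 * Polynomial.X
    + Polynomial.C c2 * Polynomial.X ^ 2 + Polynomial.C c3 * Polynomial.X ^ 3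
    + Polynomial.C (D a b c e) * Polynomial.X ^ 4
  have hp : p ≠ 0 := by
    intro h0
    have : p.coeff 4 = 0 := by rw [h0]; simp
    apply h
    simpa [p, Polynomial.coeff_C, Polynomial.coeff_X, Polynomial.coeff_X_pow] using this
  refine (Polynomial.finite_setOf_isRoot hp).subset ?_
  intro δ hδ
  simp only [Set.mem_setOf_eq] at hδ ⊢
  rw [quartic] at hδ
  simp only [Polynomial.IsRoot, p, Polynomial.eval_add, Polynomial.eval_mul, Polynomial.eval_C,
    Polynomial.eval_X, Polynomial.eval_pow]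
  exact hδ

theorem exists_gen {ι : Type*} [Countable ι] (P0 : ι → V4) (ε : ℝ) (hε : 0 < ε) :
    ∃ P : ι → V4, Gen P ∧ ∀ i, ‖P i - P0 i‖ < ε := by
  obtain ⟨n, hn⟩ := exists_injective_nat ι
  let t : ι → ℝ := fun i => 1 / ((n i : ℝ) + 1)
  have ht : Function.Injective t := by
    intro i j hij
    apply hn
    simp only [t] at hij
    have h1 : ((n i : ℝ) + 1) ≠ 0 := by positivity
    have h2 : ((n j : ℝ) + 1) ≠ 0 := by positivity
    field_simp at hij
    have : (n i : ℝ) = n j := by linarith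
    exact_mod_cast this
  have ht0 : ∀ i, 0 < t i ∧ t i ≤ 1 := by
    intro i
    refine ⟨by positivity, ?_⟩
    simp only [t]
    rw [div_le_one (by positivity)]
    have : (0 : ℝ) ≤ n i := Nat.cast_nonneg _
    linarith
  have hnorm : ∀ i, ‖mom (t i)‖ ≤ 1 := by
    intro i
    obtain ⟨h1, h2⟩ := ht0 i
    rw [pi_norm_le_iff_of_nonneg zero_le_one]
    intro j
    have e1 : (t i)^2 ≤ 1 := pow_le_one₀ h1.le h2
    have e2 : (t i)^3 ≤ 1 := pow_le_one₀ h1.le h2
    fin_cases j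
    · simp [mom]
    · simp [mom, abs_of_pos h1, h2]
    · simp [mom, e1, abs_of_pos h1]
    · simp [mom, e2, abs_of_pos h1]
  let bad : Set ℝ := ⋃ q : {q : ι × ι × ι × ι // q.1 ≠ q.2.1 ∧ q.1 ≠ q.2.2.1 ∧ q.1 ≠ q.2.2.2 ∧
    q.2.1 ≠ q.2.2.1 ∧ q.2.1 ≠ q.2.2.2 ∧ q.2.2.1 ≠ q.2.2.2},
    {δ : ℝ | D (P0 q.1.1 + δ • mom (t q.1.1)) (P0 q.1.2.1 + δ • mom (t q.1.2.1))
      (P0 q.1.2.2.1 + δ • mom (t q.1.2.2.1)) (P0 q.1.2.2.2 + δ • mom (t q.1.2.2.2)) = 0}
  have hbad : bad.Countable := by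
    apply Set.countable_iUnion
    rintro ⟨⟨i, j, k, l⟩, h1, h2, h3, h4, h5, h6⟩
    apply Set.Finite.countable
    apply roots_finite
    rw [vander]
    simp only at h1 h2 h3 h4 h5 h6
    have := ht.ne h1; have := ht.ne h2; have := ht.ne h3
    have := ht.ne h4; have := ht.ne h5; have := ht.ne h6
    refine mul_ne_zero (mul_ne_zero (mul_ne_zero (mul_ne_zero (mul_ne_zero ?_ ?_) ?_) ?_) ?_) ?_ <;>
      (rw [sub_ne_zero]; apply Ne.symm; assumption)
  obtain ⟨δ, hδ, h1, h2⟩ := (hbad.dense_compl ℝ).exists_between (show (0:ℝ) < ε / 2 by linarith)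
  refine ⟨fun i => P0 i + δ • mom (t i), ?_, ?_⟩
  · intro i j k l n1 n2 n3 n4 n5 n6 h0
    apply hδ
    simp only [bad, Set.mem_iUnion, Set.mem_setOf_eq]
    exact ⟨⟨(i, j, k, l), n1, n2, n3, n4, n5, n6⟩, h0⟩
  · intro i
    rw [add_sub_cancel_left, norm_smul, Real.norm_eq_abs, abs_of_pos h1]
    calc δ * ‖mom (t i)‖ ≤ δ * 1 := by
          apply mul_le_mul_of_nonneg_left (hnorm i) h1.le
      _ < ε := by linarith

variable {ι : Type*}

theorem exists_gen_nhds [Fintype ι] (P0 : ι → V4) {p : (ι → V4) → Prop} (h : ∀ᶠ P in 𝓝 P0, p P) :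
    ∃ P, Gen P ∧ p P := by
  obtain ⟨ε, hε, hb⟩ := Metric.eventually_nhds_iff.mp h
  obtain ⟨P, hP, hP'⟩ := exists_gen P0 ε hε
  refine ⟨P, hP, hb ?_⟩
  rw [dist_pi_lt_iff hε]
  intro i
  rw [dist_eq_norm]; exact hP' i

theorem closed_X32 : IsClosed {q : V4 × V4 × V4 × V4 × V4 | X32 q.1 q.2.1 q.2.2.1 q.2.2.2.1 q.2.2.2.2} := by
  let K := stdSimplex ℝ (Fin 5)
  haveI : CompactSpace K := isCompact_iff_compactSpace.mp (isCompact_stdSimplex ℝ (Fin 5))
  let f : K × (V4 × V4 × V4 × V4 × V4) → V4 := fun z =>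
    z.1.1 0 • z.2.1 + z.1.1 1 • z.2.2.1 + z.1.1 2 • z.2.2.2.1 - (z.1.1 3 • z.2.2.2.2.1 + z.1.1 4 • z.2.2.2.2.2)
  have hf : Continuous f := by
    have h0 : ∀ i : Fin 5, Continuous fun z : K × (V4 × V4 × V4 × V4 × V4) => z.1.1 i := fun i =>
      (continuous_apply i).comp (continuous_subtype_val.comp continuous_fst)
    have := h0 0; have := h0 1; have := h0 2; have := h0 3; have := h0 4
    fun_prop
  have hC : IsClosed (f ⁻¹' {0}) := isClosed_singleton.preimage hf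
  have := (isClosedMap_snd_of_compactSpace (X := K) (Y := V4 × V4 × V4 × V4 × V4)) _ hC
  convert this using 1
  ext q
  simp only [Set.mem_setOf_eq, Set.mem_image, Set.mem_preimage, Set.mem_singleton_iff, Prod.exists]
  constructor
  · rintro ⟨α, β, γ, ρ, σ, h1, h2, h3, h4, h5, h6, h7⟩
    refine ⟨⟨![α, β, γ, ρ, σ], ?_, ?_⟩, q.1, q.2.1, q.2.2.1, q.2.2.2.1, q.2.2.2.2, ?_, rfl⟩
    · intro i; fin_cases i <;> simpa
    · simp [Fin.sum_univ_five]; linarith
    · simp only [f, Matrix.cons_val_zero, Matrix.cons_val_one, Matrix.cons_val]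
      rw [h7, sub_self]
  · rintro ⟨w, a, b, c, r, s, h1, rfl⟩
    refine ⟨w.1 0, w.1 1, w.1 2, w.1 3, w.1 4, w.2.1 0, w.2.1 1, w.2.1 2, w.2.1 3, w.2.1 4, ?_, ?_⟩
    · have := w.2.2
      rw [Fin.sum_univ_five] at this
      linarith
    · exact sub_eq_zero.mp h1

theorem ev_not {P0 : ι → V4} {a b c r s : ι} (h : ¬ X32 (P0 a) (P0 b) (P0 c) (P0 r) (P0 s)) :
    ∀ᶠ P in 𝓝 P0, ¬ X32 (P a) (P b) (P c) (P r) (P s) := by
  let g : (ι → V4) → V4 × V4 × V4 × V4 × V4 := fun P => (P a, P b, P c, P r, P s)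
  have hg : Continuous g := by fun_prop
  have ho : IsOpen {P : ι → V4 | ¬ X32 (P a) (P b) (P c) (P r) (P s)} :=
    (closed_X32.preimage hg).isOpen_compl
  exact ho.mem_nhds h

theorem cont_D (a b c d : ι) : Continuous fun P : ι → V4 => D (P a) (P b) (P c) (P d) := by
  unfold D; fun_prop

theorem ev_pos {g : (ι → V4) → ℝ} (hg : Continuous g) {P0 : ι → V4} (h : g P0 ≠ 0) :
    ∀ᶠ P in 𝓝 P0, g P ≠ 0 ∧ pos (g P) = pos (g P0) := by
  rcases lt_or_gt_of_ne h with h' | h'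
  · filter_upwards [hg.continuousAt.eventually_lt continuousAt_const h'] with P hP
    exact ⟨hP.ne, by rw [pos_of_neg hP, pos_of_neg h']⟩
  · filter_upwards [continuousAt_const.eventually_lt hg.continuousAt h'] with P hP
    exact ⟨hP.ne', by rw [pos_of_pos hP, pos_of_pos h']⟩

def Minors (a b c r s : V4) : Prop := D b c r s ≠ 0 ∧ D a c r s ≠ 0 ∧ D a b r s ≠ 0 ∧ D a b c s ≠ 0 ∧ D a b c r ≠ 0

theorem sign_of_pos {x y : ℝ} (hx : x ≠ 0) (hy : y ≠ 0) (h : pos x = pos y) :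
    SignType.sign x = SignType.sign y := by
  rcases lt_or_gt_of_ne hx with h1 | h1 <;> rcases lt_or_gt_of_ne hy with h2 | h2
  · rw [sign_neg h1, sign_neg h2]
  · rw [pos_of_neg h1, pos_of_pos h2] at h; exact absurd h (by decide)
  · rw [pos_of_pos h1, pos_of_neg h2] at h; exact absurd h (by decide)
  · rw [sign_pos h1, sign_pos h2]

theorem ev_sI {P0 : ι → V4} {a b c r s : ι} (h : ¬ X32 (P0 a) (P0 b) (P0 c) (P0 r) (P0 s) ∨
    Minors (P0 a) (P0 b) (P0 c) (P0 r) (P0 s)) :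
    ∀ᶠ P in 𝓝 P0, sI (P a) (P b) (P c) (P r) (P s) = sI (P0 a) (P0 b) (P0 c) (P0 r) (P0 s) := by
  rcases h with h | ⟨h0, h1, h2, h3, h4⟩
  · filter_upwards [ev_not h] with P hP
    unfold sI; rw [if_neg hP, if_neg h]
  · filter_upwards [ev_pos (cont_D b c r s) h0, ev_pos (cont_D a c r s) h1, ev_pos (cont_D a b r s) h2,
      ev_pos (cont_D a b c s) h3, ev_pos (cont_D a b c r) h4] with P p0 p1 p2 p3 p4
    have e : X32 (P a) (P b) (P c) (P r) (P s) ↔ X32 (P0 a) (P0 b) (P0 c) (P0 r) (P0 s) := by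
      rw [x32_012_34 _ _ _ _ _ p0.1 p1.1 p2.1 p3.1 p4.1 p4.1, x32_012_34 _ _ _ _ _ h0 h1 h2 h3 h4 h4,
        p0.2, p1.2, p2.2, p3.2, p4.2]
    unfold sI
    rw [sign_of_pos p4.1 h4 p4.2]
    by_cases hX : X32 (P0 a) (P0 b) (P0 c) (P0 r) (P0 s)
    · rw [if_pos hX, if_pos (e.mpr hX)]
    · rw [if_neg hX, if_neg (fun h => hX (e.mp h))]

end Pool.Agent.Helper683.Lk
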