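import Mathlib
import Pool.Agent.Helper683.Lk.Defs
import Pool.Agent.Helper683.Lk.Chn
import Pool.Agent.Helper683.Lk.Pert

set_option maxHeartbeats 4000000

namespace Pool.Agent.Helper683.Lk

open Pool.Agent.Helper683 Topology Filter

/-- affine points as vectors -/
def lift (p : R3) : V4 := ![p 0, p 1, p 2, 1]
/-- the point at infinity below -/
def dirv (v : R3) : V4 := ![-v 0, -v 1, -v 2, 0]

theorem lift0 (p : R3) : lift p 0 = p 0 := rfl
theorem lift1 (p : R3) : lift p 1 = p 1 := rfl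
theorem lift2 (p : R3) : lift p 2 = p 2 := rfl
theorem lift3 (p : R3) : lift p 3 = 1 := rfl
theorem dirv0 (p : R3) : dirv p 0 = - p 0 := rfl
theorem dirv1 (p : R3) : dirv p 1 = - p 1 := rfl
theorem dirv2 (p : R3) : dirv p 2 = - p 2 := rfl
theorem dirv3 (p : R3) : dirv p 3 = 0 := rfl

/-- leaving the unit square along a line -/
theorem exit_square {g s k l : ℝ} (hg : 0 < g ∧ g < 1) (hs : 0 < s ∧ s < 1) (hk : k ≠ 0 ∨ l ≠ 0) :
    ∃ τ : ℝ, (0 ≤ g + τ * k ∧ g + τ * k ≤ 1) ∧ (0 ≤ s + τ * l ∧ s + τ * l ≤ 1) ∧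
      (g + τ * k = 0 ∨ g + τ * k = 1 ∨ s + τ * l = 0 ∨ s + τ * l = 1) := by
  let m : ℝ → ℝ := fun τ => min (min (g + τ * k) (1 - (g + τ * k))) (min (s + τ * l) (1 - (s + τ * l)))
  have hm : Continuous m := by fun_prop
  have h0 : 0 < m 0 := by
    simp only [m, zero_mul, add_zero, lt_min_iff]
    exact ⟨⟨hg.1, by linarith [hg.2]⟩, hs.1, by linarith [hs.2]⟩
  obtain ⟨T, hT⟩ : ∃ T, m T < 0 := by
    rcases hk with hk | hk
    · refine ⟨1 / k, ?_⟩
      have : 1 - (g + 1 / k * k) < 0 := by field_simp; linarith [hg.1]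
      exact lt_of_le_of_lt ((min_le_left _ _).trans (min_le_right _ _)) this
    · refine ⟨1 / l, ?_⟩
      have : 1 - (s + 1 / l * l) < 0 := by field_simp; linarith [hs.1]
      exact lt_of_le_of_lt ((min_le_right _ _).trans (min_le_right _ _)) this
  have hiv := intermediate_value_uIcc (f := m) (a := 0) (b := T) hm.continuousOn
  have hmem : (0 : ℝ) ∈ Set.uIcc (m 0) (m T) := by
    rw [Set.mem_uIcc]; right; exact ⟨hT.le, h0.le⟩
  obtain ⟨τ, _, hτ⟩ := hiv hmem
  have e : min (min (g + τ * k) (1 - (g + τ * k))) (min (s + τ * l) (1 - (s + τ * l))) = 0 := hτ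
  have a1 : 0 ≤ g + τ * k := by rw [← e]; exact (min_le_left _ _).trans (min_le_left _ _)
  have a2 : 0 ≤ 1 - (g + τ * k) := by rw [← e]; exact (min_le_left _ _).trans (min_le_right _ _)
  have a3 : 0 ≤ s + τ * l := by rw [← e]; exact (min_le_right _ _).trans (min_le_left _ _)
  have a4 : 0 ≤ 1 - (s + τ * l) := by rw [← e]; exact (min_le_right _ _).trans (min_le_right _ _)
  refine ⟨τ, ⟨a1, by linarith⟩, ⟨a3, by linarith⟩, ?_⟩
  rcases min_choice (min (g + τ * k) (1 - (g + τ * k))) (min (s + τ * l) (1 - (s + τ * l))) with h | h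
  · rw [h] at e
    rcases min_choice (g + τ * k) (1 - (g + τ * k)) with h' | h'
    · rw [h'] at e; left; exact e
    · rw [h'] at e; right; left; linarith
  · rw [h] at e
    rcases min_choice (s + τ * l) (1 - (s + τ * l)) with h' | h'
    · rw [h'] at e; right; right; left; exact e
    · rw [h'] at e; right; right; right; linarith

theorem r3_ext {x y : R3} (h0 : x 0 = y 0) (h1 : x 1 = y 1) (h2 : x 2 = y 2) : x = y := by
  ext i; fin_cases i <;> assumption

theorem dep_of_det3 {u w v : R3} (h : det3 u w v = 0) :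
    ∃ k l n : ℝ, k • u + l • w + n • v = 0 ∧ (k ≠ 0 ∨ l ≠ 0 ∨ n ≠ 0) := by
  have hdet : (Matrix.of ![![u 0, u 1, u 2], ![w 0, w 1, w 2], ![v 0, v 1, v 2]]).det = 0 := by
    rw [Matrix.det_fin_three]
    simp only [Matrix.of_apply, Matrix.cons_val_zero, Matrix.cons_val_one, Matrix.cons_val]
    unfold det3 at h
    linarith
  obtain ⟨k, hk, hk0⟩ := Matrix.exists_vecMul_eq_zero_iff.mpr hdet
  refine ⟨k 0, k 1, k 2, ?_, ?_⟩
  · have e0 := congrFun hk0 0
    have e1 := congrFun hk0 1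
    have e2 := congrFun hk0 2
    simp only [Matrix.vecMul, dotProduct, Fin.sum_univ_three, Matrix.of_apply, Matrix.cons_val_zero,
      Matrix.cons_val_one, Matrix.cons_val, Pi.zero_apply] at e0 e1 e2
    apply r3_ext
    · simpa using e0
    · simpa using e1
    · simpa using e2
  · by_contra hc
    push Not at hc
    apply hk
    funext i
    fin_cases i
    · exact hc.1
    · exact hc.2.1
    · exact hc.2.2

/-- regularity of a pair of segments -/
def RegPair (v a b c d : R3) : Prop :=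
  (∀ y ∈ segment ℝ c d, ∀ h : ℝ, a ≠ y + h • v ∧ b ≠ y + h • v) ∧
  (∀ x ∈ segment ℝ a b, ∀ h : ℝ, c ≠ x + h • v ∧ d ≠ x + h • v)

theorem seg_mem (a b : R3) {g : ℝ} (h0 : 0 ≤ g) (h1 : g ≤ 1) : a + g • (b - a) ∈ segment ℝ a b := by
  refine ⟨1 - g, g, by linarith, h0, by ring, ?_⟩
  module

theorem mem_seg {a b x : R3} (h : x ∈ segment ℝ a b) : ∃ g : ℝ, 0 ≤ g ∧ g ≤ 1 ∧ x = a + g • (b - a) := by
  obtain ⟨α, β, h0, h1, h2, rfl⟩ := h
  refine ⟨β, h1, by linarith, ?_⟩
  have : α = 1 - β := by linarith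
  rw [this]; module

theorem det_ne {v a b c d : R3} (hv : v ≠ 0) (hreg : RegPair v a b c d) {g s h : ℝ}
    (hg : 0 ≤ g ∧ g ≤ 1) (hs : 0 ≤ s ∧ s ≤ 1) (he : a + g • (b - a) = c + s • (d - c) + h • v) :
    (0 < g ∧ g < 1) ∧ (0 < s ∧ s < 1) ∧ det3 (b - a) (d - c) v ≠ 0 := by
  have key : ∀ g s h : ℝ, 0 ≤ g ∧ g ≤ 1 → 0 ≤ s ∧ s ≤ 1 →
      a + g • (b - a) = c + s • (d - c) + h • v → g ≠ 0 ∧ g ≠ 1 ∧ s ≠ 0 ∧ s ≠ 1 := by
    intro g s h hg hs he
    have m1 := seg_mem a b hg.1 hg.2
    have m2 := seg_mem c d hs.1 hs.2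
    refine ⟨?_, ?_, ?_, ?_⟩
    · rintro rfl
      apply (hreg.1 _ m2 h).1
      rw [← he]; module
    · rintro rfl
      apply (hreg.1 _ m2 h).2
      rw [← he]; module
    · rintro rfl
      apply (hreg.2 _ m1 (-h)).1
      rw [he]; module
    · rintro rfl
      apply (hreg.2 _ m1 (-h)).2
      rw [he]; module
  obtain ⟨k1, k2, k3, k4⟩ := key g s h hg hs he
  have hg' : 0 < g ∧ g < 1 := ⟨lt_of_le_of_ne hg.1 k1.symm, lt_of_le_of_ne hg.2 k2⟩
  have hs' : 0 < s ∧ s < 1 := ⟨lt_of_le_of_ne hs.1 k3.symm, lt_of_le_of_ne hs.2 k4⟩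
  refine ⟨hg', hs', ?_⟩
  intro hdet
  obtain ⟨k, l, n, hlin, hne⟩ := dep_of_det3 hdet
  have hkl : k ≠ 0 ∨ -l ≠ 0 := by
    by_contra hc
    push Not at hc
    have hl : l = 0 := by linarith [hc.2]
    rw [hc.1, hl, zero_smul, zero_smul, zero_add, zero_add] at hlin
    have hn : n ≠ 0 := by
      rcases hne with h | h | h
      · exact absurd hc.1 h
      · exact absurd hl h
      · exact h
    exact hv ((smul_eq_zero.mp hlin).resolve_left hn)
  obtain ⟨τ, t1, t2, t3⟩ := exit_square hg' hs' hkl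
  have he' : a + (g + τ * k) • (b - a) = c + (s + τ * (-l)) • (d - c) + (h - τ * n) • v := by
    have : a + (g + τ * k) • (b - a) - (c + (s + τ * (-l)) • (d - c) + (h - τ * n) • v) =
      (a + g • (b - a) - (c + s • (d - c) + h • v)) + τ • (k • (b - a) + l • (d - c) + n • v) := by
      module
    rw [he, hlin, sub_self, smul_zero, add_zero, sub_eq_zero] at this
    exact this
  obtain ⟨q1, q2, q3, q4⟩ := key _ _ _ t1 t2 he'
  rcases t3 with h | h | h | h
  · exact q1 h
  · exact q2 h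
  · exact q3 h
  · exact q4 h

theorem X32_dir {v a b c d : R3} (hv : v ≠ 0) (hdis : Disjoint (segment ℝ a b) (segment ℝ c d)) :
    X32 (dirv v) (lift a) (lift b) (lift c) (lift d) ↔ Over v a b c d := by
  constructor
  · rintro ⟨α, β, γ, ρ, σ, h1, h2, h3, h4, h5, h6, h7⟩
    have e0 := congrFun h7 0
    have e1 := congrFun h7 1
    have e2 := congrFun h7 2
    have e3 := congrFun h7 3
    simp only [Pi.add_apply, Pi.smul_apply, smul_eq_mul, lift0, lift1, lift2, lift3, dirv0, dirv1,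
      dirv2, dirv3] at e0 e1 e2 e3
    have hm : β + γ = ρ + σ := by linarith
    have hmpos : 0 < β + γ := by
      by_contra hc
      have hb : β = 0 := by linarith
      have hc' : γ = 0 := by linarith
      have hr : ρ = 0 := by linarith
      have hs : σ = 0 := by linarith
      have ha : α = 1 := by linarith
      subst hb hc' hr hs ha
      apply hv
      apply r3_ext
      · simp; linarith
      · simp; linarith
      · simp; linarith
    set m := β + γ with hmdef
    have hx : (β / m) • a + (γ / m) • b = ((ρ / m) • c + (σ / m) • d) + (α / m) • v := by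
      apply r3_ext
      · simp only [PiLp.add_apply, PiLp.smul_apply, smul_eq_mul]
        field_simp
        linarith
      · simp only [PiLp.add_apply, PiLp.smul_apply, smul_eq_mul]
        field_simp
        linarith
      · simp only [PiLp.add_apply, PiLp.smul_apply, smul_eq_mul]
        field_simp
        linarith
    have mx : (β / m) • a + (γ / m) • b ∈ segment ℝ a b :=
      ⟨β / m, γ / m, by positivity, by positivity, by field_simp; linarith, rfl⟩
    have my : (ρ / m) • c + (σ / m) • d ∈ segment ℝ c d :=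
      ⟨ρ / m, σ / m, by positivity, by positivity, by field_simp; linarith, rfl⟩
    refine ⟨_, mx, _, my, α / m, ?_, hx⟩
    have : α / m ≠ 0 := by
      intro h0
      rw [h0, zero_smul, add_zero] at hx
      exact Set.disjoint_left.mp hdis mx (hx ▸ my)
    exact lt_of_le_of_ne (by positivity) this.symm
  · rintro ⟨x, ⟨β, γ, b1, b2, b3, rfl⟩, y, ⟨ρ, σ, c1, c2, c3, rfl⟩, h, hh, he⟩
    apply X32_of (α := h) (β := β) (γ := γ) (ρ := ρ) (σ := σ) hh.le b1 b2 c1 c2 (by linarith)
    have e0 := congrArg (fun z : R3 => z 0) he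
    have e1 := congrArg (fun z : R3 => z 1) he
    have e2 := congrArg (fun z : R3 => z 2) he
    simp only [PiLp.add_apply, PiLp.smul_apply, smul_eq_mul] at e0 e1 e2
    funext i
    fin_cases i
    · simp only [Pi.add_apply, Pi.smul_apply, smul_eq_mul, Fin.zero_eta, lift0, dirv0]; linarith
    · simp only [Pi.add_apply, Pi.smul_apply, smul_eq_mul, Fin.mk_one, lift1, dirv1]; linarith
    · show h * dirv v 2 + β * lift a 2 + γ * lift b 2 = ρ * lift c 2 + σ * lift d 2
      rw [lift2, lift2, lift2, lift2, dirv2]; linarith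
    · show h * dirv v 3 + β * lift a 3 + γ * lift b 3 = ρ * lift c 3 + σ * lift d 3
      rw [lift3, lift3, lift3, lift3, dirv3]; linarith

theorem cross_eq {v a b c d : R3} (hv : v ≠ 0) (hreg : RegPair v a b c d)
    (hdis : Disjoint (segment ℝ a b) (segment ℝ c d)) :
    crossSign v a b c d = sI (dirv v) (lift a) (lift b) (lift c) (lift d) ∧
    (¬ X32 (dirv v) (lift a) (lift b) (lift c) (lift d) ∨
      Minors (dirv v) (lift a) (lift b) (lift c) (lift d)) := by
  by_cases hO : Over v a b c d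
  · have hX := (X32_dir hv hdis).mpr hO
    have hO' := hO
    obtain ⟨x, hx, y, hy, h, hh, he⟩ := hO'
    obtain ⟨g, g0, g1, rfl⟩ := mem_seg hx
    obtain ⟨s, s0, s1, rfl⟩ := mem_seg hy
    obtain ⟨hg, hs, hdet⟩ := det_ne hv hreg ⟨g0, g1⟩ ⟨s0, s1⟩ he
    have e0 := congrArg (fun z : R3 => z 0) he
    have e1 := congrArg (fun z : R3 => z 1) he
    have e2 := congrArg (fun z : R3 => z 2) he
    simp only [PiLp.add_apply, PiLp.smul_apply, PiLp.sub_apply, smul_eq_mul] at e0 e1 e2
    obtain ⟨w0, hw0⟩ : ∃ w0, d 0 = c 0 + w0 := ⟨d 0 - c 0, by ring⟩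
    obtain ⟨w1, hw1⟩ : ∃ w1, d 1 = c 1 + w1 := ⟨d 1 - c 1, by ring⟩
    obtain ⟨w2, hw2⟩ : ∃ w2, d 2 = c 2 + w2 := ⟨d 2 - c 2, by ring⟩
    rw [hw0] at e0
    rw [hw1] at e1
    rw [hw2] at e2
    have c0 : c 0 = a 0 + g * (b 0 - a 0) - s * w0 - h * v 0 := by linarith
    have c1 : c 1 = a 1 + g * (b 1 - a 1) - s * w1 - h * v 1 := by linarith
    have c2 : c 2 = a 2 + g * (b 2 - a 2) - s * w2 - h * v 2 := by linarith
    have D1 : D (dirv v) (lift a) (lift b) (lift c) = s * det3 (b - a) (d - c) v := by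
      unfold D det3
      simp only [lift0, lift1, lift2, lift3, dirv0, dirv1, dirv2, dirv3, PiLp.sub_apply]
      rw [hw0, hw1, hw2, c0, c1, c2]; ring
    have D2 : D (dirv v) (lift a) (lift b) (lift d) = -((1 - s) * det3 (b - a) (d - c) v) := by
      unfold D det3
      simp only [lift0, lift1, lift2, lift3, dirv0, dirv1, dirv2, dirv3, PiLp.sub_apply]
      rw [hw0, hw1, hw2, c0, c1, c2]; ring
    have D3 : D (dirv v) (lift a) (lift c) (lift d) = -(g * det3 (b - a) (d - c) v) := by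
      unfold D det3
      simp only [lift0, lift1, lift2, lift3, dirv0, dirv1, dirv2, dirv3, PiLp.sub_apply]
      rw [hw0, hw1, hw2, c0, c1, c2]; ring
    have D4 : D (dirv v) (lift b) (lift c) (lift d) = (1 - g) * det3 (b - a) (d - c) v := by
      unfold D det3
      simp only [lift0, lift1, lift2, lift3, dirv0, dirv1, dirv2, dirv3, PiLp.sub_apply]
      rw [hw0, hw1, hw2, c0, c1, c2]; ring
    have D5 : D (lift a) (lift b) (lift c) (lift d) = -(h * det3 (b - a) (d - c) v) := by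
      unfold D det3
      simp only [lift0, lift1, lift2, lift3, dirv0, dirv1, dirv2, dirv3, PiLp.sub_apply]
      rw [hw0, hw1, hw2, c0, c1, c2]; ring
    refine ⟨?_, Or.inr ⟨?_, ?_, ?_, ?_, ?_⟩⟩
    · unfold crossSign sI
      rw [if_pos hO, if_pos hX, D1, sign_mul, sign_pos hs.1, one_mul]
    · rw [D5]; exact neg_ne_zero.mpr (mul_ne_zero hh.ne' hdet)
    · rw [D4]; exact mul_ne_zero (by linarith [hg.2]) hdet
    · rw [D3]; exact neg_ne_zero.mpr (mul_ne_zero hg.1.ne' hdet)
    · rw [D2]; exact neg_ne_zero.mpr (mul_ne_zero (by linarith [hs.2]) hdet)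
    · rw [D1]; exact mul_ne_zero hs.1.ne' hdet
  · have hX : ¬ X32 (dirv v) (lift a) (lift b) (lift c) (lift d) := fun h => hO ((X32_dir hv hdis).mp h)
    refine ⟨?_, Or.inl hX⟩
    unfold crossSign sI
    rw [if_neg hO, if_neg hX]

end Pool.Agent.Helper683.Lk
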