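import Mathlib
import Pool.Agent.Helper683.Lk.Cross

set_option maxHeartbeats 4000000

namespace Pool.Agent.Helper683.Lk

open Pool.Agent.Helper683 Topology Filter

/-! ### crossing signs -/

theorem Over_swap12 {v a b c d : R3} : Over v a b c d ↔ Over v b a c d := by
  unfold Over; rw [segment_symm ℝ a b]
theorem Over_swap34 {v a b c d : R3} : Over v a b c d ↔ Over v a b d c := by
  unfold Over; rw [segment_symm ℝ c d]

theorem det3_neg1 (x y z : R3) : det3 (-x) y z = - det3 x y z := by
  unfold det3; simp only [PiLp.neg_apply]; ring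
theorem det3_neg2 (x y z : R3) : det3 x (-y) z = - det3 x y z := by
  unfold det3; simp only [PiLp.neg_apply]; ring
theorem det3_zero1 (y z : R3) : det3 0 y z = 0 := by
  unfold det3; simp only [PiLp.zero_apply]; ring
theorem det3_zero2 (y z : R3) : det3 y 0 z = 0 := by
  unfold det3; simp only [PiLp.zero_apply]; ring

theorem cs_swap12 (v a b c d : R3) : crossSign v b a c d = - crossSign v a b c d := by
  unfold crossSign
  rw [← neg_sub b a, det3_neg1, Left.sign_neg]
  by_cases h : Over v a b c d
  · rw [if_pos h, if_pos (Over_swap12.mp h)]; simp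
  · rw [if_neg h, if_neg (fun h' => h (Over_swap12.mpr h'))]; simp

theorem cs_swap34 (v a b c d : R3) : crossSign v a b d c = - crossSign v a b c d := by
  unfold crossSign
  rw [← neg_sub d c, det3_neg2, Left.sign_neg]
  by_cases h : Over v a b c d
  · rw [if_pos h, if_pos (Over_swap34.mp h)]; simp
  · rw [if_neg h, if_neg (fun h' => h (Over_swap34.mpr h'))]; simp

theorem cs_deg12 (v a c d : R3) : crossSign v a a c d = 0 := by
  unfold crossSign; rw [sub_self, det3_zero1, sign_zero]; simp
theorem cs_deg34 (v a b c : R3) : crossSign v a b c c = 0 := by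
  unfold crossSign; rw [sub_self, det3_zero2, sign_zero]; simp

/-! ### small triangles -/

theorem notX32_lift {a b c r s x y : R3} {ρ : ℝ} (ha : dist a x < ρ) (hb : dist b x < ρ)
    (hc : dist c x < ρ) (hr : dist r y < ρ) (hs : dist s y < ρ) (hxy : 2 * ρ ≤ dist x y) :
    ¬ X32 (lift a) (lift b) (lift c) (lift r) (lift s) := by
  rintro ⟨α, β, γ, ρ', σ, h1, h2, h3, h4, h5, h6, h7⟩
  have e0 := congrFun h7 0
  have e1 := congrFun h7 1
  have e2 := congrFun h7 2
  have e3 := congrFun h7 3
  simp only [Pi.add_apply, Pi.smul_apply, smul_eq_mul, lift0, lift1, lift2, lift3] at e0 e1 e2 e3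
  have s1 : 2 * α + 2 * β + 2 * γ = 1 := by linarith
  have s2 : 2 * ρ' + 2 * σ = 1 := by linarith
  have hc1 : Convex ℝ (Metric.ball x ρ) := convex_ball x ρ
  have hc2 : Convex ℝ (Metric.ball y ρ) := convex_ball y ρ
  have m1 : (2 * α) • a + (2 * β) • b + (2 * γ) • c ∈ Metric.ball x ρ := by
    have := hc1.sum_mem (t := (Finset.univ : Finset (Fin 3))) (w := ![2 * α, 2 * β, 2 * γ]) (z := ![a, b, c])
      (by intro i _; fin_cases i <;> simp <;> assumption) (by simp [Fin.sum_univ_three]; linarith)
      (by intro i _; fin_cases i <;> simpa)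
    simpa [Fin.sum_univ_three] using this
  have m2 : (2 * ρ') • r + (2 * σ) • s ∈ Metric.ball y ρ := by
    exact hc2 (Metric.mem_ball.mpr hr) (Metric.mem_ball.mpr hs) (by positivity) (by positivity) s2
  have he : (2 * α) • a + (2 * β) • b + (2 * γ) • c = (2 * ρ') • r + (2 * σ) • s := by
    apply r3_ext
    · simp only [PiLp.add_apply, PiLp.smul_apply, smul_eq_mul]; linarith
    · simp only [PiLp.add_apply, PiLp.smul_apply, smul_eq_mul]; linarith
    · simp only [PiLp.add_apply, PiLp.smul_apply, smul_eq_mul]; linarith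
  rw [he] at m1
  have := dist_triangle_left x y ((2 * ρ') • r + (2 * σ) • s)
  rw [Metric.mem_ball] at m1 m2
  linarith

theorem seg_disjoint {a b c d : R3} {ρ : ℝ} (hab : dist b a < ρ) (hcd : dist d c < ρ)
    (hac : 2 * ρ ≤ dist a c) : Disjoint (segment ℝ a b) (segment ℝ c d) := by
  rw [Set.disjoint_left]
  intro z h1 h2
  have hρ : 0 < ρ := lt_of_le_of_lt dist_nonneg hab
  have m1 : z ∈ Metric.ball a ρ :=
    (convex_ball a ρ).segment_subset (Metric.mem_ball_self hρ) (Metric.mem_ball.mpr hab) h1
  have m2 : z ∈ Metric.ball c ρ :=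
    (convex_ball c ρ).segment_subset (Metric.mem_ball_self hρ) (Metric.mem_ball.mpr hcd) h2
  rw [Metric.mem_ball] at m1 m2
  have := dist_triangle_left a c z
  linarith

/-! ### regular directions -/

theorem span_ne_top (x y : R3) : Submodule.span ℝ {x, y} ≠ ⊤ := by
  intro h
  have h1 : Module.finrank ℝ (Submodule.span ℝ ({x, y} : Set R3)) ≤ 2 := by
    classical
    have := finrank_span_le_card (R := ℝ) (M := R3) ({x, y} : Set R3)
    refine this.trans ?_
    rw [Set.toFinset_insert, Set.toFinset_singleton]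
    exact Finset.card_le_two
  rw [h, finrank_top] at h1
  simp at h1

theorem mem_span_of {a c d v : R3} {h : ℝ} {y : R3} (hy : y ∈ segment ℝ c d) (ha : a ∉ segment ℝ c d)
    (he : a = y + h • v) : v ∈ Submodule.span ℝ {a - c, a - d} := by
  obtain ⟨α, β, h1, h2, h3, rfl⟩ := hy
  have hh : h ≠ 0 := by
    rintro rfl
    apply ha
    rw [zero_smul, add_zero] at he
    exact ⟨α, β, h1, h2, h3, he.symm⟩
  rw [Submodule.mem_span_pair]
  refine ⟨α / h, β / h, ?_⟩
  have : v = (1 / h) • (a - (α • c + β • d)) := by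
    rw [he]
    rw [add_sub_cancel_left, smul_smul, one_div, inv_mul_cancel₀ hh, one_smul]
  rw [this]
  have hα : α = 1 - β := by linarith
  rw [hα]
  module

theorem exists_dir {T : Type*} (S : Finset T) (a b c d : T → R3)
    (hdis : ∀ t ∈ S, Disjoint (segment ℝ (a t) (b t)) (segment ℝ (c t) (d t))) :
    ∃ v : R3, v ≠ 0 ∧ ∀ t ∈ S, RegPair v (a t) (b t) (c t) (d t) := by
  classical
  let W : Finset (Submodule ℝ R3) := {⊥} ∪ (S.image fun t => Submodule.span ℝ {a t - c t, a t - d t})
    ∪ (S.image fun t => Submodule.span ℝ {b t - c t, b t - d t})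
    ∪ (S.image fun t => Submodule.span ℝ {c t - a t, c t - b t})
    ∪ (S.image fun t => Submodule.span ℝ {d t - a t, d t - b t})
  have hW : ⊤ ∉ W := by
    intro h
    simp only [W, Finset.mem_union, Finset.mem_image, Finset.mem_singleton] at h
    rcases h with (((h | ⟨t, _, h⟩) | ⟨t, _, h⟩) | ⟨t, _, h⟩) | ⟨t, _, h⟩
    · exact bot_ne_top h.symm
    · exact span_ne_top _ _ h
    · exact span_ne_top _ _ h
    · exact span_ne_top _ _ h
    · exact span_ne_top _ _ h
  have hne := Subspace.biUnion_ne_univ_of_top_notMem hW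
  obtain ⟨v, hv⟩ := (Set.ne_univ_iff_exists_notMem _).mp hne
  have hv' : ∀ p ∈ W, v ∉ p := by
    intro p hp hvp
    apply hv
    simp only [Set.mem_iUnion]
    exact ⟨p, hp, hvp⟩
  refine ⟨v, ?_, ?_⟩
  · rintro rfl
    exact hv' ⊥ (by simp [W]) (Submodule.zero_mem _)
  · intro t ht
    have hd := hdis t ht
    have i1 : Submodule.span ℝ {a t - c t, a t - d t} ∈ W := by
      simp only [W, Finset.mem_union, Finset.mem_image]; left; left; left; right; exact ⟨t, ht, rfl⟩
    have i2 : Submodule.span ℝ {b t - c t, b t - d t} ∈ W := by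
      simp only [W, Finset.mem_union, Finset.mem_image]; left; left; right; exact ⟨t, ht, rfl⟩
    have i3 : Submodule.span ℝ {c t - a t, c t - b t} ∈ W := by
      simp only [W, Finset.mem_union, Finset.mem_image]; left; right; exact ⟨t, ht, rfl⟩
    have i4 : Submodule.span ℝ {d t - a t, d t - b t} ∈ W := by
      simp only [W, Finset.mem_union, Finset.mem_image]; right; exact ⟨t, ht, rfl⟩
    refine ⟨?_, ?_⟩
    · intro y hy h
      refine ⟨?_, ?_⟩
      · intro he
        exact hv' _ i1 (mem_span_of hy (Set.disjoint_left.mp hd (left_mem_segment ℝ _ _)) he)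
      · intro he
        exact hv' _ i2 (mem_span_of hy (Set.disjoint_left.mp hd (right_mem_segment ℝ _ _)) he)
    · intro y hy h
      refine ⟨?_, ?_⟩
      · intro he
        exact hv' _ i3 (mem_span_of hy (Set.disjoint_right.mp hd (left_mem_segment ℝ _ _)) he)
      · intro he
        exact hv' _ i4 (mem_span_of hy (Set.disjoint_right.mp hd (right_mem_segment ℝ _ _)) he)

end Pool.Agent.Helper683.Lk
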