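import Mathlib
import Pool.Agent.Helper683.Lk.Dir

set_option maxHeartbeats 4000000

namespace Pool.Agent.Helper683.Lk

open Pool.Agent.Helper683 Topology Filter

variable {ι : Type*}

theorem exists_gen_nhds' [Countable ι] (P0 : ι → V4) {p : (ι → V4) → Prop}
    (h : ∀ᶠ P in 𝓝 P0, p P) : ∃ P, Gen P ∧ p P := by
  have h' : {P | p P} ∈ Filter.pi fun i => 𝓝 (P0 i) := by rw [← nhds_pi]; exact h
  rw [Filter.mem_pi] at h'
  obtain ⟨S, hS, t, ht, hsub⟩ := h'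
  have hev : ∀ᶠ ε : ℝ in 𝓝[>] 0, ∀ i ∈ S, Metric.ball (P0 i) ε ⊆ t i := by
    rw [Filter.eventually_all_finite hS]
    intro i _
    obtain ⟨ε, hε, hb⟩ := Metric.mem_nhds_iff.mp (ht i)
    filter_upwards [Ioo_mem_nhdsGT hε] with δ hδ
    exact (Metric.ball_subset_ball hδ.2.le).trans hb
  obtain ⟨ε, hε, hε0⟩ := (hev.and self_mem_nhdsWithin).exists
  obtain ⟨P, hP, hP'⟩ := exists_gen P0 ε hε0
  refine ⟨P, hP, hsub ?_⟩
  intro i hi
  apply hε i hi
  rw [Metric.mem_ball, dist_eq_norm]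
  exact hP' i

/-! ### chains of polygons -/

/-- the chain of a polygon -/
def chn (α : ℕ → ι) (m : ℕ) : Multiset (ι × ι) := (Multiset.range m).map fun j => (α j, α (j + 1))

theorem mem_chn {α : ℕ → ι} {m : ℕ} {e : ι × ι} (h : e ∈ chn α m) :
    ∃ j < m, e.1 = α j ∧ e.2 = α (j + 1) := by
  unfold chn at h
  rw [Multiset.mem_map] at h
  obtain ⟨j, hj, rfl⟩ := h
  exact ⟨j, Multiset.mem_range.mp hj, rfl, rfl⟩

theorem chn_sum (α : ℕ → ι) (m : ℕ) (F : ι → ι → ℤ) :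
    ((chn α m).map fun e => F e.1 e.2).sum = ∑ i ∈ Finset.range m, F (α i) (α (i + 1)) := by
  unfold chn
  rw [Multiset.map_map]
  rfl

theorem bd_chn (α : ℕ → ι) (m : ℕ) (h : ι → ℤ) : bd (chn α m) h = h (α m) - h (α 0) := by
  unfold bd
  rw [chn_sum α m (fun x y => h y - h x)]
  exact Finset.sum_range_sub (fun i => h (α i)) m

theorem cyc_chn {α : ℕ → ι} {m : ℕ} (h : α m = α 0) : IsCyc (chn α m) := by
  intro f; rw [bd_chn, h, sub_self]

theorem lk_F1 (P : ι → V4) (O : ι) (α : ℕ → ι) (m : ℕ) (d : Multiset (ι × ι)) :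
    lk P O (chn α m) d = ∑ i ∈ Finset.range m, F1 P O d (α i) (α (i + 1)) :=
  chn_sum α m (F1 P O d)

theorem lk_F2 (P : ι → V4) (O : ι) (β : ℕ → ι) (l : ℕ) (c : Multiset (ι × ι)) :
    lk P O c (chn β l) = ∑ j ∈ Finset.range l, F2 P O c (β j) (β (j + 1)) := by
  rw [← chn_sum β l (F2 P O c)]
  unfold lk F2
  rw [Multiset.sum_map_sum_map]

theorem lk_chn (P : ι → V4) (O : ι) (α β : ℕ → ι) (m l : ℕ) :
    lk P O (chn α m) (chn β l) = ∑ i ∈ Finset.range m, ∑ j ∈ Finset.range l,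
      I P O (α i) (α (i + 1)) (β j) (β (j + 1)) := by
  rw [lk_F1]
  apply Finset.sum_congr rfl
  intro i _
  unfold F1
  exact chn_sum β l (fun x y => I P O (α i) (α (i + 1)) x y)

theorem fan (F : ι → ι → ℤ) (α : ℕ → ι) (hdeg : ∀ x, F x x = 0) (s t : ℕ) (hst : s ≤ t)
    (hF : ∀ j, s ≤ j → j < t → F (α s) (α j) + F (α j) (α (j + 1)) = F (α s) (α (j + 1))) :
    ∑ j ∈ Finset.Ico s t, F (α j) (α (j + 1)) = F (α s) (α t) := by
  induction t, hst using Nat.le_induction with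
  | base => simp [hdeg]
  | succ t ht ih =>
    rw [Finset.sum_Ico_succ_top ht, ih (fun j h1 h2 => hF j h1 (by omega)), hF t ht (by omega)]

theorem fan_total (F : ι → ι → ℤ) (α : ℕ → ι) (hdeg : ∀ x, F x x = 0) (s : ℕ → ℕ) (hs : Monotone s)
    (hs0 : s 0 = 0) (m : ℕ)
    (hF : ∀ i < m, ∀ j, s i ≤ j → j < s (i + 1) →
      F (α (s i)) (α j) + F (α j) (α (j + 1)) = F (α (s i)) (α (j + 1))) :
    ∑ j ∈ Finset.range (s m), F (α j) (α (j + 1)) =
      ∑ i ∈ Finset.range m, F (α (s i)) (α (s (i + 1))) := by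
  induction m with
  | zero => simp [hs0]
  | succ m ih =>
    rw [Finset.sum_range_succ, ← ih (fun i hi => hF i (by omega)), ← fan F α hdeg (s m) (s (m + 1))
      (hs (by omega)) (hF m (by omega)), Finset.range_eq_Ico, Finset.range_eq_Ico,
      Finset.sum_Ico_consecutive _ (by omega) (hs (by omega))]

theorem off_chn {x : ι} {β : ℕ → ι} {l : ℕ} (h : ∀ j ≤ l, x ≠ β j) : Off x (chn β l) := by
  intro f hf
  obtain ⟨j, hj, h1, h2⟩ := mem_chn hf
  rw [h1, h2]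
  exact ⟨h j hj.le, h (j + 1) hj⟩

/-- block subsampling does not change the pairing -/
theorem lk_refine (P : ι → V4) (hP : Gen P) (O : ι) (α β : ℕ → ι) (s r : ℕ → ℕ) (m l : ℕ)
    (hs : Monotone s) (hs0 : s 0 = 0) (hr : Monotone r) (hr0 : r 0 = 0)
    (hα : α (s m) = α 0) (hβ : β (r l) = β 0)
    (hαβ : ∀ i ≤ s m, ∀ j ≤ r l, α i ≠ β j)
    (hOβ : ∀ j ≤ r l, O ≠ β j)
    (hX1 : ∀ i < m, ∀ j, s i ≤ j → j < s (i + 1) → ∀ k < l,
      ¬ X32 (P (α (s i))) (P (α j)) (P (α (j + 1))) (P (β (r k))) (P (β (r (k + 1)))))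
    (hX2 : ∀ k < l, ∀ j, r k ≤ j → j < r (k + 1) → ∀ i < s m,
      ¬ X32 (P (β (r k))) (P (β j)) (P (β (j + 1))) (P (α i)) (P (α (i + 1)))) :
    lk P O (chn (fun i => α (s i)) m) (chn (fun j => β (r j)) l) =
      lk P O (chn α (s m)) (chn β (r l)) := by
  have e1 : lk P O (chn (fun i => α (s i)) m) (chn (fun j => β (r j)) l) =
      lk P O (chn α (s m)) (chn (fun j => β (r j)) l) := by
    rw [lk_F1, lk_F1]
    symm
    apply fan_total _ α (F1_deg P O _) s hs hs0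
    intro i hi j h1 h2
    have hj : j < s m := lt_of_lt_of_le h2 (hs hi)
    apply tri1 P hP
    · apply cyc_chn; show β (r l) = β (r 0); rw [hr0, hβ]
    · exact off_chn fun j hj => hOβ _ (hr hj)
    · exact off_chn fun j' hj' => hαβ _ (hs hi.le) _ (hr hj')
    · exact off_chn fun j' hj' => hαβ _ hj.le _ (hr hj')
    · exact off_chn fun j' hj' => hαβ _ hj _ (hr hj')
    · intro f hf
      obtain ⟨k, hk, g1, g2⟩ := mem_chn hf
      rw [g1, g2]
      exact hX1 i hi j h1 h2 k hk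
  rw [e1, lk_F2, lk_F2]
  symm
  apply fan_total _ β (F2_deg P O _) r hr hr0
  intro k hk j h1 h2
  have hj : j < r l := lt_of_lt_of_le h2 (hr hk)
  apply tri2 P hP
  · exact cyc_chn hα
  · exact hOβ _ (hr hk.le)
  · exact hOβ _ hj.le
  · exact hOβ _ hj
  · exact off_chn fun i hi => (hαβ _ hi _ (hr hk.le)).symm
  · exact off_chn fun i hi => (hαβ _ hi _ hj.le).symm
  · exact off_chn fun i hi => (hαβ _ hi _ hj).symm
  · intro e he
    obtain ⟨i, hi, g1, g2⟩ := mem_chn he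
    rw [g1, g2]
    exact hX2 k hk j h1 h2 i hi

/-! ### crossing sums as pairings -/

theorem lift_inj {p q : R3} (h : lift p = lift q) : p = q :=
  r3_ext (congrFun h 0) (congrFun h 1) (congrFun h 2)

theorem Regular.pair {v : R3} {m n : ℕ} {p q : ℕ → R3} (h : Regular v m p n q) {i j : ℕ} (hi : i < m)
    (hj : j < n) : RegPair v (p i) (p (i + 1)) (q j) (q (j + 1)) :=
  ⟨fun y hy t => ⟨h.2.1 i hi.le j hj y hy t, h.2.1 (i + 1) hi j hj y hy t⟩,
    fun x hx t => ⟨h.2.2 j hj.le i hi x hx t, h.2.2 (j + 1) hj i hi x hx t⟩⟩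

theorem ev_I {P0 : ι → V4} (O x y z w : ι) (v a b c d : R3) (hv : v ≠ 0) (hO : P0 O = dirv v)
    (hx : P0 x = lift a) (hy : P0 y = lift b) (hz : P0 z = lift c) (hw : P0 w = lift d)
    (hreg : RegPair v a b c d) (hdis : Disjoint (segment ℝ a b) (segment ℝ c d))
    (h1 : O ≠ x) (h2 : O ≠ y) (h3 : O ≠ z) (h4 : O ≠ w)
    (h5 : x ≠ z) (h6 : x ≠ w) (h7 : y ≠ z) (h8 : y ≠ w) :
    ∀ᶠ P in 𝓝 P0, I P O x y z w = crossSign v a b c d := by
  obtain ⟨e1, e2⟩ := cross_eq hv hreg hdis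
  by_cases hn : x = y ∨ z = w
  · have hc : crossSign v a b c d = 0 := by
      rcases hn with rfl | rfl
      · rw [lift_inj (hx.symm.trans hy), cs_deg12]
      · rw [lift_inj (hz.symm.trans hw), cs_deg34]
    rw [hc]
    apply Filter.Eventually.of_forall
    intro P
    rcases hn with rfl | rfl
    · exact I_deg23 _ _ _ _ _
    · exact I_deg45 _ _ _ _ _
  · push Not at hn
    rw [← hO, ← hx, ← hy, ← hz, ← hw] at e1 e2
    filter_upwards [ev_sI e2] with P hP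
    rw [e1, ← hP]
    unfold I
    rw [if_pos]
    simp [*]

theorem ev_lk {P0 : ι → V4} (O : ι) (α β : ℕ → ι) (m l : ℕ) (p q : ℕ → R3) (v : R3)
    (hO : P0 O = dirv v) (hp : ∀ i ≤ m, P0 (α i) = lift (p i)) (hq : ∀ j ≤ l, P0 (β j) = lift (q j))
    (hv : v ≠ 0)
    (hreg : ∀ i < m, ∀ j < l, RegPair v (p i) (p (i + 1)) (q j) (q (j + 1)))
    (hdis : ∀ i < m, ∀ j < l, Disjoint (segment ℝ (p i) (p (i + 1))) (segment ℝ (q j) (q (j + 1))))
    (hO1 : ∀ i ≤ m, O ≠ α i) (hO2 : ∀ j ≤ l, O ≠ β j) (hαβ : ∀ i ≤ m, ∀ j ≤ l, α i ≠ β j) :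
    ∀ᶠ P in 𝓝 P0, lk P O (chn α m) (chn β l) = crossSum v m p l q := by
  have h : ∀ᶠ P in 𝓝 P0, ∀ i ∈ Finset.range m, ∀ j ∈ Finset.range l,
      I P O (α i) (α (i + 1)) (β j) (β (j + 1)) =
        crossSign v (p i) (p (i + 1)) (q j) (q (j + 1)) := by
    rw [Filter.eventually_all_finset]
    intro i hi
    rw [Filter.eventually_all_finset]
    intro j hj
    rw [Finset.mem_range] at hi hj
    exact ev_I O _ _ _ _ v _ _ _ _ hv hO (hp i hi.le) (hp (i + 1) hi) (hq j hj.le) (hq (j + 1) hj)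
      (hreg i hi j hj) (hdis i hi j hj) (hO1 i hi.le) (hO1 (i + 1) hi) (hO2 j hj.le) (hO2 (j + 1) hj)
      (hαβ i hi.le j hj.le) (hαβ i hi.le (j + 1) hj) (hαβ (i + 1) hi j hj.le)
      (hαβ (i + 1) hi (j + 1) hj)
  filter_upwards [h] with P hP
  rw [lk_chn]
  unfold crossSum
  exact Finset.sum_congr rfl fun i hi => Finset.sum_congr rfl fun j hj => hP i hi j hj

end Pool.Agent.Helper683.Lk
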