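import Mathlib
import Pool.Agent.Helper683.Lk.Poly

set_option maxHeartbeats 4000000

namespace Pool.Agent.Helper683.Lk

open Pool.Agent.Helper683 Topology Filter

/-- base configuration -/
def base (a b : ℕ → R3) (v w : R3) : ℕ × ℕ → V4 := fun x =>
  if x.1 = 0 then lift (a x.2) else if x.1 = 1 then lift (b x.2) else if x.2 = 0 then dirv v else dirv w

def ia (K j : ℕ) : ℕ × ℕ := (0, j % K)
def ib (L j : ℕ) : ℕ × ℕ := (1, j % L)

theorem base_a {K : ℕ} {a b : ℕ → R3} {v w : R3} (ha : a K = a 0) {j : ℕ} (hj : j ≤ K) :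
    base a b v w (ia K j) = lift (a j) := by
  unfold base ia
  rw [if_pos rfl]
  rcases hj.lt_or_eq with h | h
  · rw [Nat.mod_eq_of_lt h]
  · rw [h, Nat.mod_self, ha]

theorem base_b {L : ℕ} {a b : ℕ → R3} {v w : R3} (hb : b L = b 0) {j : ℕ} (hj : j ≤ L) :
    base a b v w (ib L j) = lift (b j) := by
  unfold base ib
  rw [if_neg (by simp), if_pos rfl]
  rcases hj.lt_or_eq with h | h
  · rw [Nat.mod_eq_of_lt h]
  · rw [h, Nat.mod_self, hb]

theorem base_v {a b : ℕ → R3} {v w : R3} : base a b v w (2, 0) = dirv v := by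
  unfold base; simp
theorem base_w {a b : ℕ → R3} {v w : R3} : base a b v w (2, 1) = dirv w := by
  unfold base; simp

theorem ia_ne_ib (K L i j : ℕ) : ia K i ≠ ib L j := by
  intro h; simp [ia, ib] at h
theorem two_ne_ia (K i t : ℕ) : ((2, t) : ℕ × ℕ) ≠ ia K i := by
  intro h; simp [ia] at h
theorem two_ne_ib (K i t : ℕ) : ((2, t) : ℕ × ℕ) ≠ ib K i := by
  intro h; simp [ib] at h

/-- a block subsampling of the polygon `a 0, ..., a K` with blocks of size less than `ρ` -/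
structure Samp (a : ℕ → R3) (K : ℕ) (s : ℕ → ℕ) (m : ℕ) (ρ : ℝ) : Prop where
  mono : Monotone s
  zero : s 0 = 0
  last : s m = K
  small : ∀ i < m, ∀ j, s i ≤ j → j ≤ s (i + 1) → dist (a j) (a (s i)) < ρ

theorem Samp.le {a : ℕ → R3} {K : ℕ} {s : ℕ → ℕ} {m : ℕ} {ρ : ℝ} (h : Samp a K s m ρ) {i : ℕ}
    (hi : i ≤ m) : s i ≤ K := by rw [← h.last]; exact h.mono hi

theorem Samp.step {a : ℕ → R3} {K : ℕ} {s : ℕ → ℕ} {m : ℕ} {ρ : ℝ} (h : Samp a K s m ρ) {i : ℕ}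
    (hi : i < m) : dist (a (s (i + 1))) (a (s i)) < ρ :=
  h.small i hi _ (h.mono (by omega)) le_rfl

theorem samp_ev {K L : ℕ} {a b : ℕ → R3} {ρ : ℝ}
    (hfar : ∀ i ≤ K, ∀ j ≤ L, 2 * ρ ≤ dist (a i) (b j))
    (hsa : ∀ i < K, dist (a (i + 1)) (a i) < ρ) (hρ : 0 < ρ)
    {s r : ℕ → ℕ} {m l : ℕ} (h1 : Samp a K s m ρ) (h2 : Samp b L r l ρ)
    {v : R3} (hreg : Regular v m (fun i => a (s i)) l (fun j => b (r j)))
    {P0 : ℕ × ℕ → V4} (hPa : ∀ i ≤ K, P0 (ia K i) = lift (a i))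
    (hPb : ∀ j ≤ L, P0 (ib L j) = lift (b j)) (t : ℕ) (hO : P0 (2, t) = dirv v) :
    ∀ᶠ P in 𝓝 P0, Gen P → crossSum v m (fun i => a (s i)) l (fun j => b (r j)) =
      lk P (2, t) (chn (ia K) K) (chn (ib L) L) := by
  have E1 := ev_lk (P0 := P0) (2, t) (fun i => ia K (s i)) (fun j => ib L (r j)) m l
    (fun i => a (s i)) (fun j => b (r j)) v hO
    (fun i hi => hPa _ (h1.le hi)) (fun j hj => hPb _ (h2.le hj)) hreg.1
    (fun i hi j hj => hreg.pair hi hj)
    (fun i hi j hj => seg_disjoint (h1.step hi) (h2.step hj) (hfar _ (h1.le hi.le) _ (h2.le hj.le)))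
    (fun i _ => two_ne_ia _ _ _) (fun i _ => two_ne_ib _ _ _) (fun i _ j _ => ia_ne_ib _ _ _ _)
  have X1 : ∀ᶠ P in 𝓝 P0, ∀ i ∈ Finset.range m, ∀ j ∈ Finset.Ico (s i) (s (i + 1)),
      ∀ k ∈ Finset.range l, ¬ X32 (P (ia K (s i))) (P (ia K j)) (P (ia K (j + 1)))
        (P (ib L (r k))) (P (ib L (r (k + 1)))) := by
    rw [Filter.eventually_all_finset]; intro i hi
    rw [Filter.eventually_all_finset]; intro j hj
    rw [Filter.eventually_all_finset]; intro k hk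
    rw [Finset.mem_range] at hi hk
    rw [Finset.mem_Ico] at hj
    have hjK : j < K := lt_of_lt_of_le hj.2 (h1.le hi)
    apply ev_not
    rw [hPa _ (h1.le hi.le), hPa _ hjK.le, hPa _ hjK, hPb _ (h2.le hk.le), hPb _ (h2.le hk)]
    exact notX32_lift (x := a (s i)) (y := b (r k)) (by rw [dist_self]; exact hρ)
      (h1.small i hi j hj.1 hj.2.le) (h1.small i hi (j + 1) (by omega) hj.2)
      (by rw [dist_self]; exact hρ) (h2.step hk) (hfar _ (h1.le hi.le) _ (h2.le hk.le))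
  have X2 : ∀ᶠ P in 𝓝 P0, ∀ k ∈ Finset.range l, ∀ j ∈ Finset.Ico (r k) (r (k + 1)),
      ∀ i ∈ Finset.range K, ¬ X32 (P (ib L (r k))) (P (ib L j)) (P (ib L (j + 1)))
        (P (ia K i)) (P (ia K (i + 1))) := by
    rw [Filter.eventually_all_finset]; intro k hk
    rw [Filter.eventually_all_finset]; intro j hj
    rw [Filter.eventually_all_finset]; intro i hi
    rw [Finset.mem_range] at hi hk
    rw [Finset.mem_Ico] at hj
    have hjL : j < L := lt_of_lt_of_le hj.2 (h2.le hk)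
    apply ev_not
    rw [hPb _ (h2.le hk.le), hPb _ hjL.le, hPb _ hjL, hPa _ hi.le, hPa _ hi]
    exact notX32_lift (x := b (r k)) (y := a i) (by rw [dist_self]; exact hρ)
      (h2.small k hk j hj.1 hj.2.le) (h2.small k hk (j + 1) (by omega) hj.2)
      (by rw [dist_self]; exact hρ) (hsa i hi) (by rw [dist_comm]; exact hfar _ hi.le _ (h2.le hk.le))
  filter_upwards [E1, X1, X2] with P e1 x1 x2 hP
  rw [← e1]
  have := lk_refine P hP (2, t) (ia K) (ib L) s r m l h1.mono h1.zero h2.mono h2.zero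
    (by rw [h1.last]; unfold ia; rw [Nat.mod_self, Nat.zero_mod])
    (by rw [h2.last]; unfold ib; rw [Nat.mod_self, Nat.zero_mod])
    (fun i _ j _ => ia_ne_ib _ _ _ _) (fun j _ => two_ne_ib _ _ _)
    (fun i hi j g1 g2 k hk => x1 i (Finset.mem_range.mpr hi) j (Finset.mem_Ico.mpr ⟨g1, g2⟩) k
      (Finset.mem_range.mpr hk))
    (fun k hk j g1 g2 i hi => x2 k (Finset.mem_range.mpr hk) j (Finset.mem_Ico.mpr ⟨g1, g2⟩) i
      (Finset.mem_range.mpr (by rw [← h1.last]; exact hi)))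
  rw [this, h1.last, h2.last]

/-- the crossing sum does not depend on the subsampling or the regular direction -/
theorem crossSum_inv {K L : ℕ} {a b : ℕ → R3} (ha : a K = a 0) (hb : b L = b 0) {ρ : ℝ}
    (hfar : ∀ i ≤ K, ∀ j ≤ L, 2 * ρ ≤ dist (a i) (b j))
    (hsa : ∀ i < K, dist (a (i + 1)) (a i) < ρ) (hρ : 0 < ρ)
    {s r s' r' : ℕ → ℕ} {m l m' l' : ℕ} (h1 : Samp a K s m ρ) (h2 : Samp b L r l ρ)
    (h1' : Samp a K s' m' ρ) (h2' : Samp b L r' l' ρ) {v v' : R3}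
    (hreg : Regular v m (fun i => a (s i)) l (fun j => b (r j)))
    (hreg' : Regular v' m' (fun i => a (s' i)) l' (fun j => b (r' j))) :
    crossSum v m (fun i => a (s i)) l (fun j => b (r j)) =
      crossSum v' m' (fun i => a (s' i)) l' (fun j => b (r' j)) := by
  have E1 := samp_ev hfar hsa hρ h1 h2 hreg (P0 := base a b v v')
    (fun i hi => base_a ha hi) (fun j hj => base_b hb hj) 0 base_v
  have E2 := samp_ev hfar hsa hρ h1' h2' hreg' (P0 := base a b v v')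
    (fun i hi => base_a ha hi) (fun j hj => base_b hb hj) 1 base_w
  obtain ⟨P, hP, e1, e2⟩ := exists_gen_nhds' _ (E1.and E2)
  rw [e1 hP, e2 hP]
  apply lk_apex P hP
  · apply cyc_chn; unfold ia; rw [Nat.mod_self, Nat.zero_mod]
  · apply cyc_chn; unfold ib; rw [Nat.mod_self, Nat.zero_mod]
  · intro e he f hf
    obtain ⟨i, _, g1, g2⟩ := mem_chn he
    obtain ⟨j, _, g3, g4⟩ := mem_chn hf
    rw [g1, g2, g3, g4]
    exact ⟨ia_ne_ib _ _ _ _, ia_ne_ib _ _ _ _, ia_ne_ib _ _ _ _, ia_ne_ib _ _ _ _⟩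
  · exact off_chn fun j _ => two_ne_ib _ _ _
  · exact off_chn fun j _ => two_ne_ib _ _ _

/-- symmetry of the crossing sum -/
theorem crossSum_symm {K L : ℕ} {a b : ℕ → R3} (ha : a K = a 0) (hb : b L = b 0) {v : R3}
    (hv : v ≠ 0) (hreg : ∀ i < K, ∀ j < L, RegPair v (a i) (a (i + 1)) (b j) (b (j + 1)))
    (hdis : ∀ i < K, ∀ j < L, Disjoint (segment ℝ (a i) (a (i + 1))) (segment ℝ (b j) (b (j + 1)))) :
    crossSum v K a L b = crossSum v L b K a := by
  have E1 := ev_lk (P0 := base a b v 0) (2, 0) (ia K) (ib L) K L a b v base_v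
    (fun i hi => base_a ha hi) (fun j hj => base_b hb hj) hv hreg hdis
    (fun i _ => two_ne_ia _ _ _) (fun i _ => two_ne_ib _ _ _) (fun i _ j _ => ia_ne_ib _ _ _ _)
  have E2 := ev_lk (P0 := base a b v 0) (2, 0) (ib L) (ia K) L K b a v base_v
    (fun j hj => base_b hb hj) (fun i hi => base_a ha hi) hv
    (fun j hj i hi => ⟨(hreg i hi j hj).2, (hreg i hi j hj).1⟩)
    (fun j hj i hi => (hdis i hi j hj).symm)
    (fun i _ => two_ne_ib _ _ _) (fun i _ => two_ne_ia _ _ _) (fun i _ j _ => (ia_ne_ib _ _ _ _).symm)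
  obtain ⟨P, hP, e1, e2⟩ := exists_gen_nhds' _ (E1.and E2)
  rw [← e1, ← e2]
  apply lk_symm P hP (2, 0) (2, 1)
  · apply cyc_chn; unfold ia; rw [Nat.mod_self, Nat.zero_mod]
  · apply cyc_chn; unfold ib; rw [Nat.mod_self, Nat.zero_mod]
  · simp
  · intro e he f hf
    obtain ⟨i, _, g1, g2⟩ := mem_chn he
    obtain ⟨j, _, g3, g4⟩ := mem_chn hf
    rw [g1, g2, g3, g4]
    exact ⟨ia_ne_ib _ _ _ _, ia_ne_ib _ _ _ _, ia_ne_ib _ _ _ _, ia_ne_ib _ _ _ _⟩
  · exact off_chn fun j _ => two_ne_ib _ _ _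
  · exact off_chn fun j _ => two_ne_ia _ _ _
  · exact off_chn fun j _ => two_ne_ia _ _ _

end Pool.Agent.Helper683.Lk
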