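import Mathlib
import Pool.Agent.Helper683.Lk.Chn

set_option maxHeartbeats 4000000

namespace Pool.Agent.Helper683.Lk

open Pool.Agent.Helper683

theorem two0 : (2 : ZMod 2) = 0 := rfl

/-- sum over the ten pairs of complementary triangles -/
def ten {R : Type*} [Add R] (CC : Fin 6 → Fin 6 → Fin 6 → Fin 6 → R) : R :=
      (CC 0 1 3 4 + CC 0 1 4 5 + CC 0 1 3 5 + CC 1 2 3 4 + CC 1 2 4 5 + CC 1 2 3 5 + CC 0 2 3 4 + CC 0 2 4 5 + CC 0 2 3 5) +
      (CC 0 1 2 4 + CC 0 1 4 5 + CC 0 1 2 5 + CC 1 3 2 4 + CC 1 3 4 5 + CC 1 3 2 5 + CC 0 3 2 4 + CC 0 3 4 5 + CC 0 3 2 5) +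
      (CC 0 1 2 3 + CC 0 1 3 5 + CC 0 1 2 5 + CC 1 4 2 3 + CC 1 4 3 5 + CC 1 4 2 5 + CC 0 4 2 3 + CC 0 4 3 5 + CC 0 4 2 5) +
      (CC 0 1 2 3 + CC 0 1 3 4 + CC 0 1 2 4 + CC 1 5 2 3 + CC 1 5 3 4 + CC 1 5 2 4 + CC 0 5 2 3 + CC 0 5 3 4 + CC 0 5 2 4) +
      (CC 0 2 1 4 + CC 0 2 4 5 + CC 0 2 1 5 + CC 2 3 1 4 + CC 2 3 4 5 + CC 2 3 1 5 + CC 0 3 1 4 + CC 0 3 4 5 + CC 0 3 1 5) +
      (CC 0 2 1 3 + CC 0 2 3 5 + CC 0 2 1 5 + CC 2 4 1 3 + CC 2 4 3 5 + CC 2 4 1 5 + CC 0 4 1 3 + CC 0 4 3 5 + CC 0 4 1 5) +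
      (CC 0 2 1 3 + CC 0 2 3 4 + CC 0 2 1 4 + CC 2 5 1 3 + CC 2 5 3 4 + CC 2 5 1 4 + CC 0 5 1 3 + CC 0 5 3 4 + CC 0 5 1 4) +
      (CC 0 3 1 2 + CC 0 3 2 5 + CC 0 3 1 5 + CC 3 4 1 2 + CC 3 4 2 5 + CC 3 4 1 5 + CC 0 4 1 2 + CC 0 4 2 5 + CC 0 4 1 5) +
      (CC 0 3 1 2 + CC 0 3 2 4 + CC 0 3 1 4 + CC 3 5 1 2 + CC 3 5 2 4 + CC 3 5 1 4 + CC 0 5 1 2 + CC 0 5 2 4 + CC 0 5 1 4) +
      (CC 0 4 1 2 + CC 0 4 2 3 + CC 0 4 1 3 + CC 4 5 1 2 + CC 4 5 2 3 + CC 4 5 1 3 + CC 0 5 1 2 + CC 0 5 2 3 + CC 0 5 1 3)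

theorem k6_alg (CC CS SC SS : Fin 6 → Fin 6 → Fin 6 → Fin 6 → ZMod 2)
    (E1 : ∀ a b x y : Fin 6, a < b → x < y → a ≠ x → a ≠ y → b ≠ x → b ≠ y →
      CC a b x y + CS a b x y + SC a b x y + SS a b x y =
      CC x y a b + CS x y a b + SC x y a b + SS x y a b)
    (E2 : ∀ a b x y z : Fin 6, a < b → x < y → y < z → a ≠ x → a ≠ y → a ≠ z → b ≠ x → b ≠ y → b ≠ z →
      (CS a b x y + SS a b x y) + (CS a b y z + SS a b y z) + (CS a b x z + SS a b x z) =
      (SC x y a b + SS x y a b) + (SC y z a b + SS y z a b) + (SC x z a b + SS x z a b))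
    (L3 : SS 4 5 2 3 + SS 3 5 2 4 + SS 3 4 2 5 + SS 2 5 3 4 + SS 2 4 3 5 + SS 2 3 4 5 + SS 4 5 1 3 + SS 3 5 1 4 + SS 3 4 1 5 + SS 1 5 3 4 + SS 1 4 3 5 + SS 1 3 4 5 + SS 4 5 1 2 + SS 2 5 1 4 + SS 2 4 1 5 + SS 1 5 2 4 + SS 1 4 2 5 + SS 1 2 4 5 + SS 3 5 1 2 + SS 2 5 1 3 + SS 2 3 1 5 + SS 1 5 2 3 + SS 1 3 2 5 + SS 1 2 3 5 + SS 3 4 1 2 + SS 2 4 1 3 + SS 2 3 1 4 + SS 1 4 2 3 + SS 1 3 2 4 + SS 1 2 3 4 = 1) : ten CC = 1 := by
  have A0 := E1 1 2 3 4 (by decide) (by decide) (by decide) (by decide) (by decide) (by decide)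
  have A1 := E1 1 2 3 5 (by decide) (by decide) (by decide) (by decide) (by decide) (by decide)
  have A2 := E1 1 2 4 5 (by decide) (by decide) (by decide) (by decide) (by decide) (by decide)
  have A3 := E1 1 3 2 4 (by decide) (by decide) (by decide) (by decide) (by decide) (by decide)
  have A4 := E1 1 3 2 5 (by decide) (by decide) (by decide) (by decide) (by decide) (by decide)
  have A5 := E1 1 3 4 5 (by decide) (by decide) (by decide) (by decide) (by decide) (by decide)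
  have A6 := E1 1 4 2 3 (by decide) (by decide) (by decide) (by decide) (by decide) (by decide)
  have A7 := E1 1 4 2 5 (by decide) (by decide) (by decide) (by decide) (by decide) (by decide)
  have A8 := E1 1 4 3 5 (by decide) (by decide) (by decide) (by decide) (by decide) (by decide)
  have A9 := E1 1 5 2 3 (by decide) (by decide) (by decide) (by decide) (by decide) (by decide)
  have A10 := E1 1 5 2 4 (by decide) (by decide) (by decide) (by decide) (by decide) (by decide)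
  have A11 := E1 1 5 3 4 (by decide) (by decide) (by decide) (by decide) (by decide) (by decide)
  have A12 := E1 2 3 4 5 (by decide) (by decide) (by decide) (by decide) (by decide) (by decide)
  have A13 := E1 2 4 3 5 (by decide) (by decide) (by decide) (by decide) (by decide) (by decide)
  have A14 := E1 2 5 3 4 (by decide) (by decide) (by decide) (by decide) (by decide) (by decide)
  have B0 := E2 1 2 3 4 5 (by decide) (by decide) (by decide) (by decide) (by decide) (by decide) (by decide) (by decide) (by decide)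
  have B1 := E2 1 3 2 4 5 (by decide) (by decide) (by decide) (by decide) (by decide) (by decide) (by decide) (by decide) (by decide)
  have B2 := E2 1 4 2 3 5 (by decide) (by decide) (by decide) (by decide) (by decide) (by decide) (by decide) (by decide) (by decide)
  have B3 := E2 1 5 2 3 4 (by decide) (by decide) (by decide) (by decide) (by decide) (by decide) (by decide) (by decide) (by decide)
  have B4 := E2 2 3 1 4 5 (by decide) (by decide) (by decide) (by decide) (by decide) (by decide) (by decide) (by decide) (by decide)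
  have B5 := E2 2 4 1 3 5 (by decide) (by decide) (by decide) (by decide) (by decide) (by decide) (by decide) (by decide) (by decide)
  have B6 := E2 2 5 1 3 4 (by decide) (by decide) (by decide) (by decide) (by decide) (by decide) (by decide) (by decide) (by decide)
  have B7 := E2 3 4 1 2 5 (by decide) (by decide) (by decide) (by decide) (by decide) (by decide) (by decide) (by decide) (by decide)
  have B8 := E2 3 5 1 2 4 (by decide) (by decide) (by decide) (by decide) (by decide) (by decide) (by decide) (by decide) (by decide)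
  have B9 := E2 4 5 1 2 3 (by decide) (by decide) (by decide) (by decide) (by decide) (by decide) (by decide) (by decide) (by decide)
  unfold ten
  linear_combination -(A0 + A1 + A2 + A3 + A4 + A5 + A6 + A7 + A8 + A9 + A10 + A11 + A12 + A13 + A14 + B0 + B1 + B2 + B3 + B4 + B5 + B6 + B7 + B8 + B9 + L3) + (-1 + (1) * CC 1 2 3 4 + (1) * CS 1 2 3 4 + (-1) * SC 3 4 1 2 + (1) * SS 1 2 3 4 + (1) * CC 1 2 3 5 + (1) * CS 1 2 3 5 + (-1) * SC 3 5 1 2 + (1) * SS 1 2 3 5 + (1) * CC 1 2 4 5 + (1) * CS 1 2 4 5 + (-1) * SC 4 5 1 2 + (1) * SS 1 2 4 5 + (1) * CC 1 3 2 4 + (1) * CS 1 3 2 4 + (-1) * SC 2 4 1 3 + (1) * SS 1 3 2 4 + (1) * CC 1 3 2 5 + (1) * CS 1 3 2 5 + (-1) * SC 2 5 1 3 + (1) * SS 1 3 2 5 + (1) * CC 1 3 4 5 + (1) * CS 1 3 4 5 + (-1) * SC 4 5 1 3 + (1) * SS 1 3 4 5 + (1) * CC 1 4 2 3 + (1) * CS 1 4 2 3 + (-1) * SC 2 3 1 4 + (1) * SS 1 4 2 3 + (1) * CC 1 4 2 5 + (1) * CS 1 4 2 5 + (-1) * SC 2 5 1 4 + (1) * SS 1 4 2 5 + (1) * CC 1 4 3 5 + (1) *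 CS 1 4 3 5 + (-1) * SC 3 5 1 4 + (1) * SS 1 4 3 5 + (1) * CC 1 5 2 3 + (1) * CS 1 5 2 3 + (-1) * SC 2 3 1 5 + (1) * SS 1 5 2 3 + (1) * CC 1 5 2 4 + (1) * CS 1 5 2 4 + (-1) * SC 2 4 1 5 + (1) * SS 1 5 2 4 + (1) * CC 1 5 3 4 + (1) * CS 1 5 3 4 + (-1) * SC 3 4 1 5 + (1) * SS 1 5 3 4 + (1) * CC 2 3 4 5 + (1) * CS 2 3 4 5 + (-1) * SC 4 5 2 3 + (1) * SS 2 3 4 5 + (1) * CC 2 4 3 5 + (1) * CS 2 4 3 5 + (-1) * SC 3 5 2 4 + (1) * SS 2 4 3 5 + (1) * CC 2 5 3 4 + (1) * CS 2 5 3 4 + (-1) * SC 3 4 2 5 + (1) * SS 2 5 3 4 + (1) * CC 0 1 3 4 + (1) * CC 0 2 3 4 + (1) * CC 0 1 4 5 + (1) * CC 0 2 4 5 + (1) * CC 0 1 3 5 + (1) * CC 0 2 3 5 + (1) * CC 0 1 2 4 + (1) * CC 0 3 2 4 + (1) * CC 0 3 4 5 + (1) * CC 0 1 2 5 + (1) * CC 0 3 2 5 + (1) * CC 0 1 2 3 + (1) * CC 0 4 2 3 + (1) * CC 0 4 3 5 + (1) * CC 0 4 2 5 + (1) * CC 0 5 2 3 + (1) * CC 0 5 3 4 + (1) * CC 0 5 2 4 + (1) * CC 0 2 1 4 + (1) * CC 0 3 1 4 + (1) * CC 0 2 1 5 + (1) * CC 0 3 1 5 + (1) * CC 0 2 1 3 + (1)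 * CC 0 4 1 3 + (1) * CC 0 4 1 5 + (1) * CC 0 5 1 3 + (1) * CC 0 5 1 4 + (1) * CC 0 3 1 2 + (1) * CC 0 4 1 2 + (1) * CC 0 5 1 2) * two0

section
variable {ι : Type*}

def IsPath (c : Multiset (ι × ι)) (a b : ι) : Prop := ∀ h : ι → ℤ, bd c h = h b - h a

noncomputable def l2 (P : ι → V4) (O : ι) (c d : Multiset (ι × ι)) : ZMod 2 := ((lk P O c d : ℤ) : ZMod 2)

def sg (v : Fin 6 → ι) (a b : Fin 6) : Multiset (ι × ι) := {(v a, v b)}

theorem mem_sg {v : Fin 6 → ι} {a b : Fin 6} {e : ι × ι} (h : e ∈ sg v a b) : e.1 = v a ∧ e.2 = v b := by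
  unfold sg at h; rw [Multiset.mem_singleton] at h; subst h; exact ⟨rfl, rfl⟩

theorem bd_sg (v : Fin 6 → ι) (a b : Fin 6) (h : ι → ℤ) : bd (sg v a b) h = h (v b) - h (v a) := by
  unfold bd sg; simp

theorem lk_sg (P : ι → V4) (O : ι) (v : Fin 6 → ι) (a b x y : Fin 6) :
    lk P O (sg v a b) (sg v x y) = I P O (v a) (v b) (v x) (v y) := by
  unfold lk sg; simp

theorem lk_sg_right (P : ι → V4) (hP : Gen P) (O : ι) (v : Fin 6 → ι) (c : Multiset (ι × ι)) (x y : Fin 6) :
    lk P O c (sg v y x) = - lk P O c (sg v x y) := by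
  unfold lk sg
  rw [msum_neg]
  apply msum_congr
  intro e _
  simp only [Multiset.map_singleton, Multiset.sum_singleton]
  exact I_swap45 P hP O e.1 e.2 (v x) (v y)

theorem lk_sg_left (P : ι → V4) (O : ι) (v : Fin 6 → ι) (d : Multiset (ι × ι)) (x y : Fin 6) :
    lk P O (sg v y x) d = - lk P O (sg v x y) d := by
  unfold lk sg
  simp only [Multiset.map_singleton, Multiset.sum_singleton]
  rw [msum_neg]
  apply msum_congr
  intro f _
  exact I_swap23 P O (v x) (v y) f.1 f.2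

theorem l2_add_left (P : ι → V4) (O : ι) (c c' d : Multiset (ι × ι)) :
    l2 P O (c + c') d = l2 P O c d + l2 P O c' d := by
  unfold l2; rw [lk_add_left]; push_cast; rfl
theorem l2_add_right (P : ι → V4) (O : ι) (c d d' : Multiset (ι × ι)) :
    l2 P O c (d + d') = l2 P O c d + l2 P O c d' := by
  unfold l2; rw [lk_add_right]; push_cast; rfl
theorem neg2 (x : ZMod 2) : -x = x := by revert x; decide
theorem l2_sg_right (P : ι → V4) (hP : Gen P) (O : ι) (v : Fin 6 → ι) (c : Multiset (ι × ι)) (x y : Fin 6) :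
    l2 P O c (sg v y x) = l2 P O c (sg v x y) := by
  unfold l2; rw [lk_sg_right P hP]; push_cast; exact neg2 _
theorem l2_sg_left (P : ι → V4) (O : ι) (v : Fin 6 → ι) (d : Multiset (ι × ι)) (x y : Fin 6) :
    l2 P O (sg v y x) d = l2 P O (sg v x y) d := by
  unfold l2; rw [lk_sg_left P]; push_cast; exact neg2 _

theorem sI_mod (a b c r s : V4) (h : D a b c r ≠ 0) : ((sI a b c r s : ℤ) : ZMod 2) = iv (X32 a b c r s) := by
  unfold sI iv
  by_cases hX : X32 a b c r s
  · rw [if_pos hX, if_pos hX]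
    rcases lt_or_gt_of_ne h with h' | h'
    · rw [sign_neg h']; decide
    · rw [sign_pos h']; decide
  · rw [if_neg hX, if_neg hX]; decide

theorem k6 (P : ι → V4) (hP : Gen P) (O O' : ι) (v : Fin 6 → ι) (c : Fin 6 → Fin 6 → Multiset (ι × ι))
    (hv : Function.Injective v)
    (hc : ∀ a b, a < b → IsPath (c a b) (v a) (v b))
    (hdis : ∀ a b x y, a < b → x < y → a ≠ x → a ≠ y → b ≠ x → b ≠ y → ∀ e ∈ c a b, ∀ f ∈ c x y,
      e.1 ≠ f.1 ∧ e.1 ≠ f.2 ∧ e.2 ≠ f.1 ∧ e.2 ≠ f.2)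
    (hvd : ∀ a b x, a < b → x ≠ a → x ≠ b → ∀ e ∈ c a b, e.1 ≠ v x ∧ e.2 ≠ v x)
    (hOv : ∀ x, O ≠ v x) (hOv' : ∀ x, O' ≠ v x)
    (hOc : ∀ a b, a < b → Off O (c a b))
    (hOc' : ∀ a b, a < b → Off O' (c a b))
    (hOO : O ≠ O') : ten (fun a b x y => l2 P O (c a b) (c x y)) = 1 := by
  have cycL : ∀ a b, a < b → IsCyc (c a b + sg v b a) := by
    intro a b hab h
    rw [bd_add, hc a b hab h, bd_sg]; ring
  have cycT : ∀ x y z, IsCyc (sg v x y + sg v y z + sg v z x) := by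
    intro x y z h
    rw [bd_add, bd_add, bd_sg, bd_sg, bd_sg]; ring
  apply k6_alg (fun a b x y => l2 P O (c a b) (c x y)) (fun a b x y => l2 P O (c a b) (sg v x y))
    (fun a b x y => l2 P O (sg v a b) (c x y)) (fun a b x y => l2 P O (sg v a b) (sg v x y))
  · intro a b x y hab hxy n1 n2 n3 n4
    have h := lk_symm P hP O O' (c a b + sg v b a) (c x y + sg v y x) (cycL a b hab) (cycL x y hxy) hOO
      ?_ ?_ ?_ ?_
    · have h' : l2 P O (c a b + sg v b a) (c x y + sg v y x) = l2 P O (c x y + sg v y x) (c a b + sg v b a) := by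
        unfold l2; rw [h]
      simp only [l2_add_left, l2_add_right, l2_sg_right P hP O v _ x y, l2_sg_right P hP O v _ a b,
        l2_sg_left P O v _ x y, l2_sg_left P O v _ a b] at h'
      linear_combination h'
    · intro e he f hf
      rw [Multiset.mem_add] at he hf
      rcases he with he | he <;> rcases hf with hf | hf
      · exact hdis a b x y hab hxy n1 n2 n3 n4 e he f hf
      · obtain ⟨f1, f2⟩ := mem_sg hf
        rw [f1, f2]
        have q1 := hvd a b x hab n1.symm n3.symm e he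
        have q2 := hvd a b y hab n2.symm n4.symm e he
        exact ⟨q2.1, q1.1, q2.2, q1.2⟩
      · obtain ⟨f1, f2⟩ := mem_sg he
        rw [f1, f2]
        have q1 := hvd x y a hxy n1 n2 f hf
        have q2 := hvd x y b hxy n3 n4 f hf
        exact ⟨q2.1.symm, q2.2.symm, q1.1.symm, q1.2.symm⟩
      · obtain ⟨f1, f2⟩ := mem_sg he
        obtain ⟨g1, g2⟩ := mem_sg hf
        rw [f1, f2, g1, g2]
        exact ⟨hv.ne n4, hv.ne n3, hv.ne n2, hv.ne n1⟩
    · intro f hf
      rw [Multiset.mem_add] at hf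
      rcases hf with hf | hf
      · exact hOc x y hxy f hf
      · obtain ⟨g1, g2⟩ := mem_sg hf
        rw [g1, g2]; exact ⟨hOv y, hOv x⟩
    · intro f hf
      rw [Multiset.mem_add] at hf
      rcases hf with hf | hf
      · exact hOc a b hab f hf
      · obtain ⟨g1, g2⟩ := mem_sg hf
        rw [g1, g2]; exact ⟨hOv b, hOv a⟩
    · intro f hf
      rw [Multiset.mem_add] at hf
      rcases hf with hf | hf
      · exact hOc' a b hab f hf
      · obtain ⟨g1, g2⟩ := mem_sg hf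
        rw [g1, g2]; exact ⟨hOv' b, hOv' a⟩
  · intro a b x y z hab hxy hyz n1 n2 n3 n4 n5 n6
    have h := lk_symm P hP O O' (c a b + sg v b a) (sg v x y + sg v y z + sg v z x) (cycL a b hab)
      (cycT x y z) hOO ?_ ?_ ?_ ?_
    · have h' : l2 P O (c a b + sg v b a) (sg v x y + sg v y z + sg v z x) =
          l2 P O (sg v x y + sg v y z + sg v z x) (c a b + sg v b a) := by
        unfold l2; rw [h]
      simp only [l2_add_left, l2_add_right, l2_sg_right P hP O v _ x z, l2_sg_right P hP O v _ a b,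
        l2_sg_left P O v _ x z, l2_sg_left P O v _ a b] at h'
      linear_combination h'
    · intro e he f hf
      rw [Multiset.mem_add] at he
      rw [Multiset.mem_add, Multiset.mem_add] at hf
      have qf : (f.1 = v x ∨ f.1 = v y ∨ f.1 = v z) ∧ (f.2 = v x ∨ f.2 = v y ∨ f.2 = v z) := by
        rcases hf with (hf | hf) | hf <;> obtain ⟨g1, g2⟩ := mem_sg hf <;> rw [g1, g2] <;> simp
      have qe : ∀ t, (t = v x ∨ t = v y ∨ t = v z) → e.1 ≠ t ∧ e.2 ≠ t := by
        rcases he with he | he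
        · rintro t (rfl | rfl | rfl)
          · exact hvd a b x hab n1.symm n4.symm e he
          · exact hvd a b y hab n2.symm n5.symm e he
          · exact hvd a b z hab n3.symm n6.symm e he
        · obtain ⟨g1, g2⟩ := mem_sg he
          rw [g1, g2]
          rintro t (rfl | rfl | rfl)
          · exact ⟨hv.ne n4, hv.ne n1⟩
          · exact ⟨hv.ne n5, hv.ne n2⟩
          · exact ⟨hv.ne n6, hv.ne n3⟩
      exact ⟨(qe _ qf.1).1, (qe _ qf.2).1, (qe _ qf.1).2, (qe _ qf.2).2⟩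
    · intro f hf
      rw [Multiset.mem_add, Multiset.mem_add] at hf
      rcases hf with (hf | hf) | hf <;> obtain ⟨g1, g2⟩ := mem_sg hf <;> rw [g1, g2] <;>
        exact ⟨hOv _, hOv _⟩
    · intro f hf
      rw [Multiset.mem_add] at hf
      rcases hf with hf | hf
      · exact hOc a b hab f hf
      · obtain ⟨g1, g2⟩ := mem_sg hf
        rw [g1, g2]; exact ⟨hOv b, hOv a⟩
    · intro f hf
      rw [Multiset.mem_add] at hf
      rcases hf with hf | hf
      · exact hOc' a b hab f hf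
      · obtain ⟨g1, g2⟩ := mem_sg hf
        rw [g1, g2]; exact ⟨hOv' b, hOv' a⟩
  · have h := six_l3 P hP O (v 1) (v 2) (v 3) (v 4) (v 5) (hOv 1) (hOv 2) (hOv 3) (hOv 4) (hOv 5)
      (hv.ne (by decide)) (hv.ne (by decide)) (hv.ne (by decide)) (hv.ne (by decide)) (hv.ne (by decide)) (hv.ne (by decide)) (hv.ne (by decide)) (hv.ne (by decide)) (hv.ne (by decide)) (hv.ne (by decide))
    rw [← h]
    have hI : ∀ a b x y : Fin 6, a ≠ b → a ≠ x → a ≠ y → b ≠ x → b ≠ y → x ≠ y →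
        l2 P O (sg v a b) (sg v x y) = iv (X32 (P O) (P (v a)) (P (v b)) (P (v x)) (P (v y))) := by
      intro a b x y m1 m2 m3 m4 m5 m6
      have k1 := hv.ne m1; have k2 := hv.ne m2; have k3 := hv.ne m3
      have k4 := hv.ne m4; have k5 := hv.ne m5; have k6 := hv.ne m6
      unfold l2; rw [lk_sg]; unfold I; rw [if_pos, sI_mod]
      · exact hP _ _ _ _ (hOv a) (hOv b) (hOv x) k1 k2 k4
      · simp [hOv, k1, k2, k3, k4, k5, k6]
    rw [hI 4 5 2 3 (by decide) (by decide) (by decide) (by decide) (by decide) (by decide)]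
    rw [hI 3 5 2 4 (by decide) (by decide) (by decide) (by decide) (by decide) (by decide)]
    rw [hI 3 4 2 5 (by decide) (by decide) (by decide) (by decide) (by decide) (by decide)]
    rw [hI 2 5 3 4 (by decide) (by decide) (by decide) (by decide) (by decide) (by decide)]
    rw [hI 2 4 3 5 (by decide) (by decide) (by decide) (by decide) (by decide) (by decide)]
    rw [hI 2 3 4 5 (by decide) (by decide) (by decide) (by decide) (by decide) (by decide)]
    rw [hI 4 5 1 3 (by decide) (by decide) (by decide) (by decide) (by decide) (by decide)]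
    rw [hI 3 5 1 4 (by decide) (by decide) (by decide) (by decide) (by decide) (by decide)]
    rw [hI 3 4 1 5 (by decide) (by decide) (by decide) (by decide) (by decide) (by decide)]
    rw [hI 1 5 3 4 (by decide) (by decide) (by decide) (by decide) (by decide) (by decide)]
    rw [hI 1 4 3 5 (by decide) (by decide) (by decide) (by decide) (by decide) (by decide)]
    rw [hI 1 3 4 5 (by decide) (by decide) (by decide) (by decide) (by decide) (by decide)]
    rw [hI 4 5 1 2 (by decide) (by decide) (by decide) (by decide) (by decide) (by decide)]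
    rw [hI 2 5 1 4 (by decide) (by decide) (by decide) (by decide) (by decide) (by decide)]
    rw [hI 2 4 1 5 (by decide) (by decide) (by decide) (by decide) (by decide) (by decide)]
    rw [hI 1 5 2 4 (by decide) (by decide) (by decide) (by decide) (by decide) (by decide)]
    rw [hI 1 4 2 5 (by decide) (by decide) (by decide) (by decide) (by decide) (by decide)]
    rw [hI 1 2 4 5 (by decide) (by decide) (by decide) (by decide) (by decide) (by decide)]
    rw [hI 3 5 1 2 (by decide) (by decide) (by decide) (by decide) (by decide) (by decide)]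
    rw [hI 2 5 1 3 (by decide) (by decide) (by decide) (by decide) (by decide) (by decide)]
    rw [hI 2 3 1 5 (by decide) (by decide) (by decide) (by decide) (by decide) (by decide)]
    rw [hI 1 5 2 3 (by decide) (by decide) (by decide) (by decide) (by decide) (by decide)]
    rw [hI 1 3 2 5 (by decide) (by decide) (by decide) (by decide) (by decide) (by decide)]
    rw [hI 1 2 3 5 (by decide) (by decide) (by decide) (by decide) (by decide) (by decide)]
    rw [hI 3 4 1 2 (by decide) (by decide) (by decide) (by decide) (by decide) (by decide)]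
    rw [hI 2 4 1 3 (by decide) (by decide) (by decide) (by decide) (by decide) (by decide)]
    rw [hI 2 3 1 4 (by decide) (by decide) (by decide) (by decide) (by decide) (by decide)]
    rw [hI 1 4 2 3 (by decide) (by decide) (by decide) (by decide) (by decide) (by decide)]
    rw [hI 1 3 2 4 (by decide) (by decide) (by decide) (by decide) (by decide) (by decide)]
    rw [hI 1 2 3 4 (by decide) (by decide) (by decide) (by decide) (by decide) (by decide)]

end

end Pool.Agent.Helper683.Lk
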