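import Mathlib
import Pool.Agent.Helper683.Lk.Poly
import Pool.Agent.Helper683.Lk.K6

set_option maxHeartbeats 4000000

namespace Pool.Agent.Helper683.Lk

open Pool.Agent.Helper683 Topology Filter

theorem ten_congr {R : Type*} [Add R] {f g : Fin 6 → Fin 6 → Fin 6 → Fin 6 → R}
    (h : ∀ a b x y : Fin 6, a < b → x < y → a ≠ x → a ≠ y → b ≠ x → b ≠ y → f a b x y = g a b x y) :
    ten f = ten g := by
  unfold ten
  repeat' first
    | exact h _ _ _ _ (by decide) (by decide) (by decide) (by decide) (by decide) (by decide)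
    | refine congrArg₂ (· + ·) ?_ ?_

/-- index of a sample point -/
def ix (M : ℕ) (a b : Fin 6) (j : ℕ) : (Fin 6 × Fin 6 × ℕ) ⊕ ℕ :=
  Sum.inl (if j = 0 then (a, a, 0) else if j = M then (b, b, 0) else (a, b, j))

def iv6 (a : Fin 6) : (Fin 6 × Fin 6 × ℕ) ⊕ ℕ := Sum.inl (a, a, 0)

def fst6 : (Fin 6 × Fin 6 × ℕ) ⊕ ℕ → Option (Fin 6)
  | Sum.inl x => some x.1
  | Sum.inr _ => none

theorem fst_ix (M : ℕ) (a b : Fin 6) (j : ℕ) : fst6 (ix M a b j) = some a ∨ fst6 (ix M a b j) = some b := by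
  unfold ix
  split_ifs
  · left; rfl
  · right; rfl
  · left; rfl

theorem ix_ne (M : ℕ) {a b x y : Fin 6} (h1 : a ≠ x) (h2 : a ≠ y) (h3 : b ≠ x) (h4 : b ≠ y) (i j : ℕ) :
    ix M a b i ≠ ix M x y j := by
  intro h
  have := congrArg fst6 h
  rcases fst_ix M a b i with e | e <;> rcases fst_ix M x y j with e' | e' <;> rw [e, e'] at this <;>
    simp_all

theorem ix_ne_iv (M : ℕ) {a b x : Fin 6} (h1 : x ≠ a) (h2 : x ≠ b) (i : ℕ) :
    ix M a b i ≠ iv6 x := by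
  intro h
  have := congrArg fst6 h
  have e' : fst6 (iv6 x) = some x := rfl
  rcases fst_ix M a b i with e | e <;> rw [e, e'] at this <;> simp_all

theorem inr_ne_ix (M : ℕ) (a b : Fin 6) (i t : ℕ) : (Sum.inr t : (Fin 6 × Fin 6 × ℕ) ⊕ ℕ) ≠ ix M a b i := by
  intro h; simp [ix] at h

def base6 (w : Fin 6 → R3) (p : Fin 6 → Fin 6 → ℕ → R3) (v : R3) : (Fin 6 × Fin 6 × ℕ) ⊕ ℕ → V4
  | Sum.inl x => if x.1 = x.2.1 then lift (w x.1) else lift (p x.1 x.2.1 x.2.2)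
  | Sum.inr _ => dirv v

theorem k6_poly (w : Fin 6 → R3) (p : Fin 6 → Fin 6 → ℕ → R3) (M : ℕ) (hM : 0 < M)
    (hp0 : ∀ a b, a < b → p a b 0 = w a) (hpM : ∀ a b, a < b → p a b M = w b) (v : R3) (hv : v ≠ 0)
    (hreg : ∀ a b x y, a < b → x < y → a ≠ x → a ≠ y → b ≠ x → b ≠ y → ∀ i < M, ∀ j < M,
      RegPair v (p a b i) (p a b (i + 1)) (p x y j) (p x y (j + 1)))
    (hdis : ∀ a b x y, a < b → x < y → a ≠ x → a ≠ y → b ≠ x → b ≠ y → ∀ i < M, ∀ j < M,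
      Disjoint (segment ℝ (p a b i) (p a b (i + 1))) (segment ℝ (p x y j) (p x y (j + 1)))) :
    ten (fun a b x y => ((crossSum v M (p a b) M (p x y) : ℤ) : ZMod 2)) = 1 := by
  have hb : ∀ a b : Fin 6, a < b → ∀ j ≤ M, base6 w p v (ix M a b j) = lift (p a b j) := by
    intro a b hab j _
    unfold ix
    by_cases h0 : j = 0
    · rw [if_pos h0, h0, hp0 a b hab]; show (if a = a then _ else _) = _; rw [if_pos rfl]
    rw [if_neg h0]
    by_cases h1 : j = M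
    · rw [if_pos h1, h1, hpM a b hab]; show (if b = b then _ else _) = _; rw [if_pos rfl]
    rw [if_neg h1]; show (if a = b then _ else _) = _; rw [if_neg hab.ne]
  have E : ∀ᶠ P in 𝓝 (base6 w p v), ∀ q ∈ (Finset.univ : Finset (Fin 6 × Fin 6 × Fin 6 × Fin 6)),
      (q.1 < q.2.1 → q.2.2.1 < q.2.2.2 → q.1 ≠ q.2.2.1 → q.1 ≠ q.2.2.2 → q.2.1 ≠ q.2.2.1 →
        q.2.1 ≠ q.2.2.2 →
      lk P (Sum.inr 0) (chn (ix M q.1 q.2.1) M) (chn (ix M q.2.2.1 q.2.2.2) M) =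
        crossSum v M (p q.1 q.2.1) M (p q.2.2.1 q.2.2.2)) := by
    rw [Filter.eventually_all_finset]
    rintro ⟨a, b, x, y⟩ _
    by_cases hh : a < b ∧ x < y ∧ a ≠ x ∧ a ≠ y ∧ b ≠ x ∧ b ≠ y
    · obtain ⟨h1, h2, h3, h4, h5, h6⟩ := hh
      filter_upwards [ev_lk (P0 := base6 w p v) (Sum.inr 0) (ix M a b) (ix M x y) M M (p a b) (p x y) v
        rfl (hb a b h1) (hb x y h2) hv (hreg a b x y h1 h2 h3 h4 h5 h6) (hdis a b x y h1 h2 h3 h4 h5 h6)
        (fun i _ => inr_ne_ix _ _ _ _ _) (fun i _ => inr_ne_ix _ _ _ _ _)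
        (fun i _ j _ => ix_ne M h3 h4 h5 h6 i j)] with P hP
      intro _ _ _ _ _ _
      exact hP
    · apply Filter.Eventually.of_forall
      intro P h1 h2 h3 h4 h5 h6
      exact absurd ⟨h1, h2, h3, h4, h5, h6⟩ hh
  obtain ⟨P, hP, hE⟩ := exists_gen_nhds' _ E
  have K := k6 P hP (Sum.inr 0) (Sum.inr 1) iv6 (fun a b => chn (ix M a b) M)
    (by intro a b h; simpa [iv6] using h)
    (by
      intro a b hab h
      rw [bd_chn]
      have e1 : ix M a b M = iv6 b := by unfold ix iv6; rw [if_neg hM.ne', if_pos rfl]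
      have e2 : ix M a b 0 = iv6 a := by unfold ix iv6; rw [if_pos rfl]
      rw [e1, e2])
    (by
      intro a b x y _ _ h3 h4 h5 h6 e he f hf
      obtain ⟨i, _, g1, g2⟩ := mem_chn he
      obtain ⟨j, _, g3, g4⟩ := mem_chn hf
      rw [g1, g2, g3, g4]
      exact ⟨ix_ne M h3 h4 h5 h6 _ _, ix_ne M h3 h4 h5 h6 _ _, ix_ne M h3 h4 h5 h6 _ _,
        ix_ne M h3 h4 h5 h6 _ _⟩)
    (by
      intro a b x _ h1 h2 e he
      obtain ⟨i, _, g1, g2⟩ := mem_chn he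
      rw [g1, g2]
      exact ⟨ix_ne_iv M h1 h2 _, ix_ne_iv M h1 h2 _⟩)
    (by intro x h; simp [iv6] at h)
    (by intro x h; simp [iv6] at h)
    (by intro a b _; exact off_chn fun j _ => inr_ne_ix _ _ _ _ _)
    (by intro a b _; exact off_chn fun j _ => inr_ne_ix _ _ _ _ _)
    (by simp)
  rw [← K]
  apply ten_congr
  intro a b x y h1 h2 h3 h4 h5 h6
  unfold l2
  rw [← hE (a, b, x, y) (Finset.mem_univ _) h1 h2 h3 h4 h5 h6]

end Pool.Agent.Helper683.Lk
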