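import Mathlib
import Pool.Agent.Helper683.Lk.Inv

set_option maxHeartbeats 4000000

namespace Pool.Agent.Helper683.Lk

open Pool.Agent.Helper683 Topology Filter

/-! ### sampling of paths -/

theorem insc_zero {x y : R3} (γ : Path x y) (N : ℕ) : inscribed γ N 0 = x := by
  unfold inscribed; simp
theorem insc_last {x y : R3} (γ : Path x y) {N : ℕ} (hN : 0 < N) : inscribed γ N N = y := by
  unfold inscribed
  rw [div_self (by positivity)]; exact γ.extend_one

theorem insc_left {x y z : R3} (p : Path x y) (q : Path y z) {K j : ℕ} (hK : 0 < K) (hj : j ≤ K) :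
    inscribed (p.trans q) (2 * K) j = inscribed p K j := by
  unfold inscribed
  have hK' : (0 : ℝ) < K := by exact_mod_cast hK
  have hj' : (j : ℝ) ≤ K := by exact_mod_cast hj
  rw [Path.extend_trans_of_le_half]
  · congr 1
    push_cast
    field_simp
  · push_cast
    rw [div_le_div_iff₀ (by positivity) (by norm_num)]
    linarith

theorem insc_right {x y z : R3} (p : Path x y) (q : Path y z) {K j : ℕ} (hK : 0 < K) (hj : K ≤ j) :
    inscribed (p.trans q) (2 * K) j = inscribed q K (j - K) := by
  unfold inscribed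
  have hK' : (0 : ℝ) < K := by exact_mod_cast hK
  have hj' : (K : ℝ) ≤ j := by exact_mod_cast hj
  rw [Path.extend_trans_of_half_le]
  · congr 1
    push_cast [Nat.cast_sub hj]
    field_simp
  · push_cast
    rw [div_le_div_iff₀ (by norm_num) (by positivity)]
    linarith

theorem insc_symm {x y : R3} (γ : Path x y) {N j : ℕ} (hN : 0 < N) (hj : j ≤ N) :
    inscribed γ.symm N j = inscribed γ N (N - j) := by
  unfold inscribed
  rw [Path.extend_symm_apply]
  congr 1
  have hN' : (0 : ℝ) < N := by exact_mod_cast hN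
  push_cast [Nat.cast_sub hj]
  field_simp

/-- the polygon `f 0, ..., f m` is a block subsampling of a fine inscribed polygon -/
def Sub {x y : R3} (γ : Path x y) (K : ℕ) (f : ℕ → R3) (m : ℕ) (ρ : ℝ) : Prop :=
  ∃ s, Samp (inscribed γ K) K s m ρ ∧ ∀ i ≤ m, inscribed γ K (s i) = f i

theorem sub_refl (x : R3) (K : ℕ) {ρ : ℝ} (hρ : 0 < ρ) : Sub (Path.refl x) K (fun _ => x) 1 ρ := by
  have hc : ∀ j, inscribed (Path.refl x) K j = x := by
    intro j; unfold inscribed; rw [Path.refl_extend]; rfl
  refine ⟨fun i => if i = 0 then 0 else K, ⟨?_, ?_, ?_, ?_⟩, ?_⟩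
  · intro i j hij
    try dsimp only
    split_ifs <;> omega
  · rfl
  · rfl
  · intro i _ j _ _
    rw [hc, hc, dist_self]; exact hρ
  · intro i _; exact hc _

/-- modulus of continuity -/
def Mod {x y : R3} (γ : Path x y) (M : ℕ) (ρ : ℝ) : Prop :=
  ∀ s t : ℝ, |s - t| ≤ 1 / M → dist (γ.extend s) (γ.extend t) < ρ

theorem sub_unif {x y : R3} {γ : Path x y} {M : ℕ} {ρ : ℝ} (h : Mod γ M ρ) {c : ℕ} (hc : 0 < c)
    (hM : 0 < M) : Sub γ (c * M) (inscribed γ M) M ρ := by
  have hc' : (0 : ℝ) < c := by exact_mod_cast hc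
  have hM' : (0 : ℝ) < M := by exact_mod_cast hM
  refine ⟨fun i => c * i, ⟨?_, ?_, ?_, ?_⟩, ?_⟩
  · intro i j hij
    exact Nat.mul_le_mul_left c hij
  · exact Nat.mul_zero c
  · rfl
  · intro i _ j h1 h2
    unfold inscribed
    apply h
    have h1' : ((c * i : ℕ) : ℝ) ≤ j := by exact_mod_cast h1
    have h2' : (j : ℝ) ≤ ((c * (i + 1) : ℕ) : ℝ) := by exact_mod_cast h2
    push_cast at h1' h2' ⊢
    rw [← sub_div, abs_div, abs_of_nonneg (by linarith), abs_of_pos (by positivity),
      div_le_div_iff₀ (by positivity) hM']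
    nlinarith
  · intro i _
    unfold inscribed
    congr 1
    push_cast
    field_simp

theorem sub_trans {x y z : R3} {p : Path x y} {q : Path y z} {K m n : ℕ} {f g : ℕ → R3} {ρ : ℝ}
    (hK : 0 < K) (hp : Sub p K f m ρ) (hq : Sub q K g n ρ) :
    Sub (p.trans q) (2 * K) (fun i => if i < m then f i else g (i - m)) (m + n) ρ := by
  obtain ⟨s, ⟨s1, s2, s3, s4⟩, s5⟩ := hp
  obtain ⟨r, ⟨r1, r2, r3, r4⟩, r5⟩ := hq
  refine ⟨fun i => if i < m then s i else K + r (i - m), ⟨?_, ?_, ?_, ?_⟩, ?_⟩
  · intro i j hij
    try dsimp only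
    split_ifs with h1 h2 h2
    · exact s1 hij
    · have := s1 h1.le
      omega
    · omega
    · have := r1 (show i - m ≤ j - m by omega)
      omega
  · try dsimp only
    split_ifs with h
    · exact s2
    · have hm : m = 0 := by omega
      subst hm
      rw [s2] at s3
      omega
  · try dsimp only
    rw [if_neg (by omega), Nat.add_sub_cancel_left, r3]
    ring
  · intro i hi j h1 h2
    try dsimp only at h1 h2 ⊢
    by_cases h : i < m
    · rw [if_pos h] at h1 ⊢
      have hK2 : s i ≤ K := by rw [← s3]; exact s1 h.le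
      have hK3 : s (i + 1) ≤ K := by rw [← s3]; exact s1 h
      have hj : j ≤ s (i + 1) := by
        by_cases h' : i + 1 < m
        · rw [if_pos h'] at h2; exact h2
        · rw [if_neg h'] at h2
          have e : i + 1 = m := by omega
          rw [e, Nat.sub_self, r2] at h2
          rw [e, s3]; omega
      rw [insc_left p q hK (hj.trans hK3), insc_left p q hK hK2]
      exact s4 i h j h1 hj
    · rw [if_neg h] at h1 ⊢
      rw [if_neg (by omega)] at h2
      rw [insc_right p q hK (by omega), insc_right p q hK (by omega), Nat.add_sub_cancel_left]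
      have e : i + 1 - m = i - m + 1 := by omega
      rw [e] at h2
      exact r4 (i - m) (by omega) (j - K) (by omega) (by omega)
  · intro i hi
    try dsimp only
    by_cases h : i < m
    · rw [if_pos h, if_pos h, insc_left p q hK (by rw [← s3]; exact s1 h.le)]
      exact s5 i h.le
    · rw [if_neg h, if_neg h, insc_right p q hK (by omega), Nat.add_sub_cancel_left]
      exact r5 _ (by omega)

/-! ### walks -/

variable {V : Type*} {G : SimpleGraph V} (E : SpatialEmbedding G)

/-- sampled points along a walk -/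
noncomputable def sp (M : ℕ) : ∀ {a b : V}, G.Walk a b → ℕ → R3
  | a, _, .nil => fun _ => E.pos a
  | _, _, .cons h w => fun i => if i < M then inscribed (E.arc h) M i else sp M w (i - M)

theorem sub_walk {M : ℕ} (hM : 0 < M) {ρ : ℝ} (hρ : 0 < ρ)
    (hmod : ∀ {a b : V} (h : G.Adj a b), Mod (E.arc h) M ρ) : ∀ {a b : V} (w : G.Walk a b) (c : ℕ),
    0 < c → Sub (E.curve w) (c * 2 ^ w.length * M) (sp E M w) (M * w.length + 1) ρ
  | a, _, .nil, c, _ => by
    simpa [SpatialEmbedding.curve, sp] using sub_refl (E.pos a) (c * M) hρ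
  | _, _, .cons h w, c, hc => by
    have h1 := sub_unif (hmod h) (c := c * 2 ^ w.length) (by positivity) hM
    have h2 := sub_walk hM hρ hmod w c hc
    have h3 := sub_trans (K := c * 2 ^ w.length * M) (by positivity) h1 h2
    have e1 : c * 2 ^ (SimpleGraph.Walk.cons h w).length * M = 2 * (c * 2 ^ w.length * M) := by
      rw [SimpleGraph.Walk.length_cons]; ring
    have e2 : M * (SimpleGraph.Walk.cons h w).length + 1 = M + (M * w.length + 1) := by
      rw [SimpleGraph.Walk.length_cons]; ring
    rw [e1, e2]
    exact h3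

/-- sampled points of one edge, constant for non-edges -/
noncomputable def pt [DecidableRel G.Adj] (M : ℕ) (a b : V) (i : ℕ) : R3 :=
  if h : G.Adj a b then inscribed (E.arc h) M i else E.pos a

theorem pt_adj [DecidableRel G.Adj] (M : ℕ) {a b : V} (h : G.Adj a b) :
    pt E M a b = inscribed (E.arc h) M := by
  funext i; unfold pt; rw [dif_pos h]

theorem sp_zero {M : ℕ} (hM : 0 < M) {a b : V} (w : G.Walk a b) : sp E M w 0 = E.pos a := by
  cases w with
  | nil => rfl
  | cons h w => unfold sp; rw [if_pos hM]; exact insc_zero _ _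

theorem sp_sum [DecidableRel G.Adj] {M : ℕ} (hM : 0 < M) (F : R3 → R3 → ℤ)
    (hF : ∀ x, F x x = 0) : ∀ {a b : V} (w : G.Walk a b),
    ∑ i ∈ Finset.range (M * w.length + 1), F (sp E M w i) (sp E M w (i + 1)) =
      (w.darts.map fun d => ∑ i ∈ Finset.range M, F (pt E M d.fst d.snd i) (pt E M d.fst d.snd (i + 1))).sum
  | a, _, .nil => by
    simp [sp, hF]
  | a, _, .cons (v := b) h w => by
    rw [SimpleGraph.Walk.length_cons, SimpleGraph.Walk.darts_cons, List.map_cons, List.sum_cons,
      ← sp_sum hM F hF w]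
    have e : M * (w.length + 1) + 1 = M + (M * w.length + 1) := by ring
    rw [e, Finset.sum_range_add]
    congr 1
    · apply Finset.sum_congr rfl
      intro i hi
      rw [Finset.mem_range] at hi
      try dsimp only
      rw [pt_adj E M h]
      unfold sp
      rw [if_pos hi]
      by_cases h' : i + 1 < M
      · rw [if_pos h']
      · rw [if_neg h']
        have e' : i + 1 = M := by omega
        rw [e', Nat.sub_self, sp_zero E hM, insc_last _ hM]
    · apply Finset.sum_congr rfl
      intro i hi
      conv_lhs => unfold sp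
      rw [if_neg (by omega), if_neg (by omega), Nat.add_sub_cancel_left,
        show M + i + 1 - M = i + 1 by omega]

/-- every sampled edge lies on a sampled edge of an arc -/
theorem sp_edge [DecidableRel G.Adj] {M : ℕ} (hM : 0 < M) : ∀ {a b : V} (w : G.Walk a b),
    0 < w.length → ∀ i < M * w.length + 1, ∃ d ∈ w.darts, ∃ k < M,
      (sp E M w i = pt E M d.fst d.snd k ∨ sp E M w i = pt E M d.fst d.snd (k + 1)) ∧
      (sp E M w (i + 1) = pt E M d.fst d.snd k ∨ sp E M w (i + 1) = pt E M d.fst d.snd (k + 1))
  | _, _, .nil, h0, _, _ => by simp at h0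
  | a, _, .cons (v := b) h w, _, i, hi => by
    rw [SimpleGraph.Walk.length_cons] at hi
    have hMM : M * (w.length + 1) + 1 = M + (M * w.length + 1) := by ring
    rw [hMM] at hi
    by_cases hiM : i < M
    · refine ⟨⟨(a, b), h⟩, by simp, i, hiM, ?_, ?_⟩
      · left
        dsimp only
        rw [pt_adj E M h]
        unfold sp
        rw [if_pos hiM]
      · right
        dsimp only
        rw [pt_adj E M h]
        unfold sp
        by_cases h' : i + 1 < M
        · rw [if_pos h']
        · rw [if_neg h']
          have e' : i + 1 = M := by omega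
          rw [e', Nat.sub_self, sp_zero E hM, insc_last _ hM]
    · have e1 : sp E M (SimpleGraph.Walk.cons h w) i = sp E M w (i - M) := by
        conv_lhs => unfold sp
        rw [if_neg hiM]
      have e2 : sp E M (SimpleGraph.Walk.cons h w) (i + 1) = sp E M w (i - M + 1) := by
        conv_lhs => unfold sp
        rw [if_neg (by omega), show i + 1 - M = i - M + 1 by omega]
      rw [e1, e2]
      by_cases hw : 0 < w.length
      · obtain ⟨d, hd, k, hk, h1, h2⟩ := sp_edge hM w hw (i - M) (by omega)
        exact ⟨d, by rw [SimpleGraph.Walk.darts_cons]; exact List.mem_cons_of_mem _ hd, k, hk, h1, h2⟩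
      · refine ⟨⟨(a, b), h⟩, by simp, M - 1, by omega, ?_⟩
        dsimp only
        rw [pt_adj E M h, show M - 1 + 1 = M by omega, insc_last _ hM]
        cases w with
        | nil => exact ⟨Or.inr rfl, Or.inr rfl⟩
        | cons h' w' => simp at hw

/-- every point of the curve of a walk is on the arc of one of its edges -/
theorem curve_mem : ∀ {a b : V} (w : G.Walk a b), 0 < w.length → ∀ t : ℝ,
    ∃ d ∈ w.darts, ∃ s : ℝ, (E.curve w).extend t = (E.arc d.adj).extend s
  | _, _, .nil, h0, _ => by simp at h0
  | a, _, .cons (v := b) h w, _, t => by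
    show ∃ d ∈ (SimpleGraph.Walk.cons h w).darts, ∃ s : ℝ,
      ((E.arc h).trans (E.curve w)).extend t = (E.arc d.adj).extend s
    rcases le_total t (1 / 2) with ht | ht
    · rw [Path.extend_trans_of_le_half _ _ ht]
      exact ⟨⟨(a, b), h⟩, by simp, 2 * t, rfl⟩
    · rw [Path.extend_trans_of_half_le _ _ ht]
      by_cases hw : 0 < w.length
      · obtain ⟨d, hd, s, hs⟩ := curve_mem w hw (2 * t - 1)
        exact ⟨d, by rw [SimpleGraph.Walk.darts_cons]; exact List.mem_cons_of_mem _ hd, s, hs⟩
      · refine ⟨⟨(a, b), h⟩, by simp, 1, ?_⟩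
        rw [Path.extend_one]
        cases w with
        | nil => rfl
        | cons h' w' => simp at hw

theorem sp_last {M : ℕ} : ∀ {a b : V} (w : G.Walk a b), sp E M w (M * w.length + 1) = E.pos b
  | _, _, .nil => rfl
  | a, _, .cons (v := b) h w => by
    rw [SimpleGraph.Walk.length_cons, show M * (w.length + 1) + 1 = M + (M * w.length + 1) by ring]
    conv_lhs => unfold sp
    rw [if_neg (by omega), Nat.add_sub_cancel_left]
    exact sp_last w

end Pool.Agent.Helper683.Lk
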