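import Mathlib
import Pool.Agent.Helper683.Lk.Wlk

set_option maxHeartbeats 4000000

namespace Pool.Agent.Helper683.Lk

open Pool.Agent.Helper683 Topology Filter

theorem ev_Mod {x y : R3} (γ : Path x y) {ρ : ℝ} (hρ : 0 < ρ) : ∀ᶠ M : ℕ in atTop, Mod γ M ρ := by
  obtain ⟨δ, hδ, h⟩ := Metric.uniformContinuous_iff.mp γ.uniformContinuous_extend ρ hρ
  have h1 := (tendsto_one_div_atTop_nhds_zero_nat (𝕜 := ℝ)).eventually (gt_mem_nhds hδ)
  filter_upwards [h1] with M hM s t hst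
  apply h
  rw [Real.dist_eq]
  exact lt_of_le_of_lt hst hM

theorem crossSum_congr {v : R3} {m n : ℕ} {p p' q q' : ℕ → R3} (hp : ∀ i ≤ m, p i = p' i)
    (hq : ∀ j ≤ n, q j = q' j) : crossSum v m p n q = crossSum v m p' n q' := by
  unfold crossSum
  apply Finset.sum_congr rfl
  intro i hi
  apply Finset.sum_congr rfl
  intro j hj
  rw [Finset.mem_range] at hi hj
  rw [hp i hi.le, hp (i + 1) hi, hq j hj.le, hq (j + 1) hj]

theorem Regular_congr {v : R3} {m n : ℕ} {p p' q q' : ℕ → R3} (hp : ∀ i ≤ m, p i = p' i)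
    (hq : ∀ j ≤ n, q j = q' j) (h : Regular v m p n q) : Regular v m p' n q' := by
  refine ⟨h.1, ?_, ?_⟩
  · intro i hi j hj
    rw [← hp i hi, ← hq j hj.le, ← hq (j + 1) hj]
    exact h.2.1 i hi j hj
  · intro j hj i hi
    rw [← hq j hj, ← hp i hi.le, ← hp (i + 1) hi]
    exact h.2.2 j hj i hi

theorem regular_of {v : R3} {m n : ℕ} {p q : ℕ → R3} (hv : v ≠ 0) (hm : 0 < m) (hn : 0 < n)
    (h : ∀ i < m, ∀ j < n, RegPair v (p i) (p (i + 1)) (q j) (q (j + 1))) : Regular v m p n q := by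
  refine ⟨hv, ?_, ?_⟩
  · intro i hi j hj y hy t
    rcases hi.lt_or_eq with h' | h'
    · exact ((h i h' j hj).1 y hy t).1
    · have := ((h (m - 1) (by omega) j hj).1 y hy t).2
      rwa [show m - 1 + 1 = i by omega] at this
  · intro j hj i hi y hy t
    rcases hj.lt_or_eq with h' | h'
    · exact ((h i hi j h').2 y hy t).1
    · have := ((h i hi (n - 1) (by omega)).2 y hy t).2
      rwa [show n - 1 + 1 = j by omega] at this

theorem Mod.step {x y : R3} {γ : Path x y} {N : ℕ} {ρ : ℝ} (h : Mod γ N ρ) {K : ℕ} (hN : 0 < N)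
    (hNK : N ≤ K) (i : ℕ) : dist (inscribed γ K (i + 1)) (inscribed γ K i) < ρ := by
  unfold inscribed
  apply h
  have hN' : (0 : ℝ) < N := by exact_mod_cast hN
  have hNK' : (N : ℝ) ≤ K := by exact_mod_cast hNK
  have hK' : (0 : ℝ) < K := lt_of_lt_of_le hN' hNK'
  rw [← sub_div, abs_div, abs_of_pos hK', div_le_div_iff₀ hK' hN']
  push_cast
  rw [show (i : ℝ) + 1 - i = 1 by ring, abs_one]
  linarith

/-- two closed paths at positive distance: fine inscribed polygons and any block subsamplings -/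
theorem isLk_of {x y : R3} {γ : Path x x} {δ : Path y y} {ρ : ℝ} (hρ : 0 < ρ)
    (hfar : ∀ s t : ℝ, 2 * ρ ≤ dist (γ.extend s) (δ.extend t)) {f g : ℕ → R3} {m n k k' : ℕ} {v : R3}
    (hk : 0 < k) (hk' : 0 < k')
    (hf : ∀ c : ℕ, 0 < c → Sub γ (c * k) f m ρ) (hg : ∀ c : ℕ, 0 < c → Sub δ (c * k') g n ρ)
    (hreg : Regular v m f n g) : IsLinkingNumber γ δ (crossSum v m f n g) := by
  obtain ⟨N₀, hN₀⟩ := Filter.eventually_atTop.mp ((ev_Mod γ hρ).and ((ev_Mod δ hρ).and
    (Filter.eventually_gt_atTop 0)))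
  refine ⟨N₀, fun M hM N hN => ⟨?_, ?_⟩⟩
  · obtain ⟨m1, _, m3⟩ := hN₀ M hM
    obtain ⟨_, n2, n3⟩ := hN₀ N hN
    obtain ⟨v, hv, hreg⟩ := exists_dir (Finset.range M ×ˢ Finset.range N)
      (fun t => inscribed γ M t.1) (fun t => inscribed γ M (t.1 + 1))
      (fun t => inscribed δ N t.2) (fun t => inscribed δ N (t.2 + 1)) (by
        rintro ⟨i, j⟩ _
        exact seg_disjoint (m1.step m3 le_rfl i) (n2.step n3 le_rfl j) (hfar _ _))
    refine ⟨v, regular_of hv m3 n3 fun i hi j hj => ?_⟩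
    exact hreg (i, j) (Finset.mem_product.mpr ⟨Finset.mem_range.mpr hi, Finset.mem_range.mpr hj⟩)
  · intro v' hreg'
    obtain ⟨m1, _, m3⟩ := hN₀ M hM
    obtain ⟨_, n2, n3⟩ := hN₀ N hN
    obtain ⟨s, s1, s2⟩ := sub_unif m1 (c := k) hk m3
    obtain ⟨r, r1, r2⟩ := sub_unif n2 (c := k') hk' n3
    obtain ⟨s', s1', s2'⟩ := hf M m3
    obtain ⟨r', r1', r2'⟩ := hg N n3
    rw [mul_comm M k] at s1' s2'
    rw [mul_comm N k'] at r1' r2'
    have e1 : crossSum v' M (inscribed γ M) N (inscribed δ N) =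
        crossSum v' M (fun i => inscribed γ (k * M) (s i)) N (fun j => inscribed δ (k' * N) (r j)) :=
      crossSum_congr (fun i hi => (s2 i hi).symm) (fun j hj => (r2 j hj).symm)
    have e2 : crossSum v m f n g =
        crossSum v m (fun i => inscribed γ (k * M) (s' i)) n (fun j => inscribed δ (k' * N) (r' j)) :=
      crossSum_congr (fun i hi => (s2' i hi).symm) (fun j hj => (r2' j hj).symm)
    rw [e1, e2]
    apply crossSum_inv (ρ := ρ) (K := k * M) (L := k' * N)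
    · rw [insc_zero, insc_last _ (by positivity)]
    · rw [insc_zero, insc_last _ (by positivity)]
    · intro i _ j _; exact hfar _ _
    · intro i _
      exact m1.step m3 (Nat.le_mul_of_pos_left M hk) i
    · exact hρ
    · exact s1
    · exact r1
    · exact s1'
    · exact r1'
    · exact Regular_congr (fun i hi => (s2 i hi).symm) (fun j hj => (r2 j hj).symm) hreg'
    · exact Regular_congr (fun i hi => (s2' i hi).symm) (fun j hj => (r2' j hj).symm) hreg

theorem IsLinkingNumber.unique {x y : R3} {γ : Path x x} {δ : Path y y} {n n' : ℤ}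
    (h : IsLinkingNumber γ δ n) (h' : IsLinkingNumber γ δ n') : n = n' := by
  obtain ⟨N, hN⟩ := h
  obtain ⟨N', hN'⟩ := h'
  obtain ⟨⟨v, hv⟩, h1⟩ := hN (max N N') (le_max_left _ _) (max N N') (le_max_left _ _)
  obtain ⟨_, h2⟩ := hN' (max N N') (le_max_right _ _) (max N N') (le_max_right _ _)
  rw [← h1 v hv, h2 v hv]

/-- two compact disjoint arcs have positive distance -/
theorem ev_far {x y z w : R3} (γ : Path x y) (δ : Path z w) (h : ∀ s t, γ s ≠ δ t) :
    ∀ᶠ ρ : ℝ in 𝓝[>] 0, ∀ s t : ℝ, 2 * ρ ≤ dist (γ.extend s) (δ.extend t) := by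
  let F : unitInterval × unitInterval → ℝ := fun q => dist (γ q.1) (δ q.2)
  have hF : Continuous F := by fun_prop
  obtain ⟨q, _, hq⟩ := isCompact_univ.exists_isMinOn (Set.univ_nonempty) hF.continuousOn
  have hpos : 0 < F q := dist_pos.mpr (h _ _)
  filter_upwards [Ioo_mem_nhdsGT (show (0:ℝ) < F q / 2 by linarith)] with ρ hρ s t
  have e1 : γ.extend s ∈ Set.range γ := by rw [← Path.extend_range]; exact ⟨s, rfl⟩
  have e2 : δ.extend t ∈ Set.range δ := by rw [← Path.extend_range]; exact ⟨t, rfl⟩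
  obtain ⟨s', hs'⟩ := e1
  obtain ⟨t', ht'⟩ := e2
  rw [← hs', ← ht']
  have := isMinOn_iff.mp hq (s', t') (Set.mem_univ _)
  have h2 := hρ.2
  show 2 * ρ ≤ F (s', t')
  linarith

/-- any two disjoint closed curves have a linking number -/
theorem exists_linkingNumber {x y : R3} (γ : Path x x) (δ : Path y y) (h : ∀ s t, γ s ≠ δ t) :
    ∃ n, IsLinkingNumber γ δ n := by
  obtain ⟨ρ, hρ1, hρ⟩ := ((ev_far γ δ h).and self_mem_nhdsWithin).exists
  obtain ⟨N, m1, m2, m3⟩ := ((ev_Mod γ hρ).and ((ev_Mod δ hρ).and (Filter.eventually_gt_atTop 0))).exists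
  obtain ⟨v, hv, hreg⟩ := exists_dir (Finset.range N ×ˢ Finset.range N)
    (fun t => inscribed γ N t.1) (fun t => inscribed γ N (t.1 + 1))
    (fun t => inscribed δ N t.2) (fun t => inscribed δ N (t.2 + 1)) (by
      rintro ⟨i, j⟩ _
      exact seg_disjoint (m1.step m3 le_rfl i) (m2.step m3 le_rfl j) (hρ1 _ _))
  refine ⟨_, isLk_of (v := v) hρ hρ1 m3 m3 (fun c hc => sub_unif m1 hc m3)
    (fun c hc => sub_unif m2 hc m3) (regular_of hv m3 m3 fun i hi j hj => ?_)⟩
  exact hreg (i, j) (Finset.mem_product.mpr ⟨Finset.mem_range.mpr hi, Finset.mem_range.mpr hj⟩)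

end Pool.Agent.Helper683.Lk
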