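import Mathlib
import Pool.Agent.Helper683.Lk.Set
import Pool.Agent.Helper683.Lk.K6P
import Pool.Agent.Helper683.K9.Fin

set_option maxHeartbeats 4000000

namespace Pool.Agent.Helper683.Lk

open Pool.Agent.Helper683 Topology Filter
open Pool.Agent.Helper683.K9 (cyc wk SS OK gt tens Good cyc3)

abbrev G9 : SimpleGraph (Fin 9) := ⊤

/-- labels -/
def lab (n : ℕ) : Fin 9 := Fin.ofNat 9 n

theorem lab_inj {x y : ℕ} (hx : x < 9) (hy : y < 9) (h : lab x = lab y) : x = y := by
  have := congrArg Fin.val h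
  simpa [lab, Fin.ofNat, Nat.mod_eq_of_lt hx, Nat.mod_eq_of_lt hy] using this

theorem adj_lab {x y : ℕ} (hx : x < 9) (hy : y < 9) (h : x ≠ y) : G9.Adj (lab x) (lab y) := by
  rw [SimpleGraph.top_adj]
  exact fun h' => h (lab_inj hx hy h')

theorem exists_walk : ∀ (l : List ℕ) (x z : ℕ), OK (x :: l ++ [z]) →
    ∃ p : G9.Walk (lab x) (lab z), p.support = (x :: l ++ [z]).map lab ∧
      ∀ ψ : Fin 9 → Fin 9 → ℤ, (p.darts.map fun d => ψ d.fst d.snd).sum =
        wk (fun i j => ψ (lab i) (lab j)) z (x :: l)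
  | [], x, z, h => by
    have hx := h.2 x (by simp)
    have hz := h.2 z (by simp)
    have hxz : x ≠ z := by
      have := h.1; simp at this; exact this
    exact ⟨.cons (adj_lab hx hz hxz) .nil, by simp, by intro ψ; simp [wk]⟩
  | y :: l, x, z, h => by
    have hx := h.2 x (by simp)
    have hy := h.2 y (by simp)
    have hxy : x ≠ y := by
      have := h.1; simp at this; exact this.1.1
    obtain ⟨p, h1, h2⟩ := exists_walk l y z ⟨h.1.of_cons, fun w hw => h.2 w (List.mem_cons_of_mem _ hw)⟩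
    refine ⟨.cons (adj_lab hx hy hxy) p, ?_, ?_⟩
    · rw [SimpleGraph.Walk.support_cons, h1]; rfl
    · intro ψ
      rw [SimpleGraph.Walk.darts_cons, List.map_cons, List.sum_cons, h2]; rfl

theorem OK.perm {l l' : List ℕ} (h : l.Perm l') (hl : OK l) : OK l' :=
  ⟨h.nodup_iff.mp hl.1, fun x hx => hl.2 x (h.mem_iff.mpr hx)⟩

theorem exists_cycle (C : List ℕ) (hC : OK C) (h3 : 3 ≤ C.length) :
    ∃ (a : Fin 9) (w : G9.Walk a a), w.IsCycle ∧ (∀ x ∈ w.support, ∃ c ∈ C, x = lab c) ∧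
      ∀ ψ : Fin 9 → Fin 9 → ℤ, (w.darts.map fun d => ψ d.fst d.snd).sum =
        cyc (fun i j => ψ (lab i) (lab j)) C := by
  match C, hC, h3 with
  | u :: v :: y :: r, hC, _ =>
    have hok : OK (v :: (y :: r) ++ [u]) := by
      apply OK.perm _ hC
      exact (List.perm_append_singleton u (v :: y :: r)).symm
    obtain ⟨p, h1, h2⟩ := exists_walk (y :: r) v u hok
    have hu := hC.2 u (by simp)
    have hv := hC.2 v (by simp)
    have huv : u ≠ v := by
      have := hC.1; simp at this; exact this.1.1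
    have hp : p.IsPath := by
      rw [SimpleGraph.Walk.isPath_def, h1]
      apply List.Nodup.map_on _ hok.1
      intro a ha b hb hab
      exact lab_inj (hok.2 a ha) (hok.2 b hb) hab
    refine ⟨lab u, .cons (adj_lab hu hv huv) p, ?_, ?_, ?_⟩
    · rw [SimpleGraph.Walk.cons_isCycle_iff]
      refine ⟨hp, fun he => ?_⟩
      rw [Sym2.eq_swap] at he
      have e1 := hp.length_eq_one_of_mem_edges he
      have e2 : p.support.length = p.length + 1 := SimpleGraph.Walk.length_support p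
      rw [h1, e1] at e2
      simp at e2
    · intro x hx
      rw [SimpleGraph.Walk.support_cons, h1] at hx
      rcases List.mem_cons.mp hx with rfl | hx
      · exact ⟨u, by simp, rfl⟩
      · obtain ⟨c, hc, rfl⟩ := List.mem_map.mp hx
        refine ⟨c, ?_, rfl⟩
        exact (List.perm_append_singleton u (v :: y :: r)).mem_iff.mp hc
    · intro ψ
      rw [SimpleGraph.Walk.darts_cons, List.map_cons, List.sum_cons, h2]; rfl

/-! ### constants -/

/-- scale, subdivision and direction -/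
structure Scale (E : SpatialEmbedding G9) where
  ρ : ℝ
  hρ : 0 < ρ
  far : ∀ {a b x y : Fin 9} (h : G9.Adj a b) (h' : G9.Adj x y), a ≠ x → a ≠ y → b ≠ x → b ≠ y →
    ∀ s t : ℝ, 2 * ρ ≤ dist ((E.arc h).extend s) ((E.arc h').extend t)
  M : ℕ
  hM : 0 < M
  mod : ∀ {a b : Fin 9} (h : G9.Adj a b), Mod (E.arc h) M ρ
  v : R3
  hv : v ≠ 0
  reg : ∀ a b x y : Fin 9, a ≠ b → x ≠ y → a ≠ x → a ≠ y → b ≠ x → b ≠ y → ∀ i < M, ∀ j < M,
    RegPair v (pt E M a b i) (pt E M a b (i + 1)) (pt E M x y j) (pt E M x y (j + 1))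
  dis : ∀ a b x y : Fin 9, a ≠ b → x ≠ y → a ≠ x → a ≠ y → b ≠ x → b ≠ y → ∀ i < M, ∀ j < M,
    Disjoint (segment ℝ (pt E M a b i) (pt E M a b (i + 1)))
      (segment ℝ (pt E M x y j) (pt E M x y (j + 1)))

theorem exists_scale (E : SpatialEmbedding G9) : Nonempty (Scale E) := by
  have hf : ∀ᶠ ρ : ℝ in 𝓝[>] 0, ∀ q : Fin 9 × Fin 9 × Fin 9 × Fin 9,
      ∀ (h : G9.Adj q.1 q.2.1) (h' : G9.Adj q.2.2.1 q.2.2.2), q.1 ≠ q.2.2.1 → q.1 ≠ q.2.2.2 →
      q.2.1 ≠ q.2.2.1 → q.2.1 ≠ q.2.2.2 →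
      ∀ s t : ℝ, 2 * ρ ≤ dist ((E.arc h).extend s) ((E.arc h').extend t) := by
    rw [Filter.eventually_all]
    rintro ⟨a, b, x, y⟩
    by_cases hh : a ≠ b ∧ x ≠ y ∧ a ≠ x ∧ a ≠ y ∧ b ≠ x ∧ b ≠ y
    · obtain ⟨h1, h2, h3, h4, h5, h6⟩ := hh
      filter_upwards [ev_far (E.arc (show G9.Adj a b from h1)) (E.arc (show G9.Adj x y from h2)) (by
        intro s t hst
        obtain ⟨v, v1, v2, _⟩ := E.arc_disjoint (show G9.Adj a b from h1) (show G9.Adj x y from h2)
          (by
            intro he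
            have : a ∈ s(x, y) := he ▸ Sym2.mem_mk_left a b
            rcases Sym2.mem_iff.mp this with h | h
            · exact h3 h
            · exact h4 h) s t hst
        rcases Sym2.mem_iff.mp v1 with rfl | rfl <;> rcases Sym2.mem_iff.mp v2 with h | h
        · exact h3 h
        · exact h4 h
        · exact h5 h
        · exact h6 h)] with ρ hρ
      intro _ _ _ _ _ _
      exact hρ
    · apply Filter.Eventually.of_forall
      intro ρ h h' h3 h4 h5 h6
      exact absurd ⟨h, h', h3, h4, h5, h6⟩ hh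
  obtain ⟨ρ, hfar, hρ⟩ := (hf.and self_mem_nhdsWithin).exists
  have hm : ∀ᶠ M : ℕ in atTop, ∀ q : Fin 9 × Fin 9, ∀ h : G9.Adj q.1 q.2, Mod (E.arc h) M ρ := by
    rw [Filter.eventually_all]
    rintro ⟨a, b⟩
    by_cases h : a ≠ b
    · filter_upwards [ev_Mod (E.arc (show G9.Adj a b from h)) hρ] with M hM _
      exact hM
    · apply Filter.Eventually.of_forall
      intro M h'
      exact absurd h' h
  obtain ⟨M, hmod, hM⟩ := (hm.and (Filter.eventually_gt_atTop 0)).exists
  have hdis : ∀ a b x y : Fin 9, a ≠ b → x ≠ y → a ≠ x → a ≠ y → b ≠ x → b ≠ y → ∀ i < M, ∀ j < M,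
    Disjoint (segment ℝ (pt E M a b i) (pt E M a b (i + 1)))
      (segment ℝ (pt E M x y j) (pt E M x y (j + 1))) := by
    intro a b x y h1 h2 h3 h4 h5 h6 i _ j _
    have h1' : G9.Adj a b := h1
    have h2' : G9.Adj x y := h2
    rw [pt_adj E M h1', pt_adj E M h2']
    exact seg_disjoint ((hmod (a, b) h1').step hM le_rfl i) ((hmod (x, y) h2').step hM le_rfl j)
      (hfar (a, b, x, y) h1' h2' h3 h4 h5 h6 _ _)
  obtain ⟨v, hv, hreg⟩ := exists_dir
    (((Finset.univ : Finset (Fin 9 × Fin 9 × Fin 9 × Fin 9)).filter fun q =>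
      q.1 ≠ q.2.1 ∧ q.2.2.1 ≠ q.2.2.2 ∧ q.1 ≠ q.2.2.1 ∧ q.1 ≠ q.2.2.2 ∧ q.2.1 ≠ q.2.2.1 ∧
        q.2.1 ≠ q.2.2.2) ×ˢ (Finset.range M ×ˢ Finset.range M))
    (fun t => pt E M t.1.1 t.1.2.1 t.2.1) (fun t => pt E M t.1.1 t.1.2.1 (t.2.1 + 1))
    (fun t => pt E M t.1.2.2.1 t.1.2.2.2 t.2.2) (fun t => pt E M t.1.2.2.1 t.1.2.2.2 (t.2.2 + 1)) (by
      rintro ⟨⟨a, b, x, y⟩, i, j⟩ ht
      simp only [Finset.mem_product, Finset.mem_filter, Finset.mem_univ, true_and,
        Finset.mem_range] at ht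
      obtain ⟨⟨h1, h2, h3, h4, h5, h6⟩, h7, h8⟩ := ht
      exact hdis a b x y h1 h2 h3 h4 h5 h6 i h7 j h8)
  refine ⟨⟨ρ, hρ, ?_, M, hM, ?_, v, hv, ?_, hdis⟩⟩
  · intro a b x y h h' h3 h4 h5 h6 s t
    exact hfar (a, b, x, y) h h' h3 h4 h5 h6 s t
  · intro a b h
    exact hmod (a, b) h
  · intro a b x y h1 h2 h3 h4 h5 h6 i hi j hj
    apply hreg ((a, b, x, y), i, j)
    simp only [Finset.mem_product, Finset.mem_filter, Finset.mem_univ, true_and, Finset.mem_range]
    exact ⟨⟨h1, h2, h3, h4, h5, h6⟩, hi, hj⟩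

theorem regPair_sub {v a b c d a' b' c' d' : R3} (h : RegPair v a b c d)
    (ha : a' = a ∨ a' = b) (hb : b' = a ∨ b' = b) (hc : c' = c ∨ c' = d) (hd : d' = c ∨ d' = d) :
    RegPair v a' b' c' d' := by
  have s1 : segment ℝ a' b' ⊆ segment ℝ a b := by
    apply (convex_segment a b).segment_subset
    · rcases ha with rfl | rfl
      · exact left_mem_segment ℝ _ _
      · exact right_mem_segment ℝ _ _
    · rcases hb with rfl | rfl
      · exact left_mem_segment ℝ _ _
      · exact right_mem_segment ℝ _ _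
  have s2 : segment ℝ c' d' ⊆ segment ℝ c d := by
    apply (convex_segment c d).segment_subset
    · rcases hc with rfl | rfl
      · exact left_mem_segment ℝ _ _
      · exact right_mem_segment ℝ _ _
    · rcases hd with rfl | rfl
      · exact left_mem_segment ℝ _ _
      · exact right_mem_segment ℝ _ _
  refine ⟨fun y hy t => ⟨?_, ?_⟩, fun y hy t => ⟨?_, ?_⟩⟩
  · rcases ha with rfl | rfl
    · exact (h.1 y (s2 hy) t).1
    · exact (h.1 y (s2 hy) t).2
  · rcases hb with rfl | rfl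
    · exact (h.1 y (s2 hy) t).1
    · exact (h.1 y (s2 hy) t).2
  · rcases hc with rfl | rfl
    · exact (h.2 y (s1 hy) t).1
    · exact (h.2 y (s1 hy) t).2
  · rcases hd with rfl | rfl
    · exact (h.2 y (s1 hy) t).1
    · exact (h.2 y (s1 hy) t).2

theorem segDis_sub {a b c d a' b' c' d' : R3} (h : Disjoint (segment ℝ a b) (segment ℝ c d))
    (ha : a' = a ∨ a' = b) (hb : b' = a ∨ b' = b) (hc : c' = c ∨ c' = d) (hd : d' = c ∨ d' = d) :
    Disjoint (segment ℝ a' b') (segment ℝ c' d') := by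
  apply h.mono
  · apply (convex_segment a b).segment_subset
    · rcases ha with rfl | rfl
      · exact left_mem_segment ℝ _ _
      · exact right_mem_segment ℝ _ _
    · rcases hb with rfl | rfl
      · exact left_mem_segment ℝ _ _
      · exact right_mem_segment ℝ _ _
  · apply (convex_segment c d).segment_subset
    · rcases hc with rfl | rfl
      · exact left_mem_segment ℝ _ _
      · exact right_mem_segment ℝ _ _
    · rcases hd with rfl | rfl
      · exact left_mem_segment ℝ _ _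
      · exact right_mem_segment ℝ _ _

variable {E : SpatialEmbedding G9} (S : Scale E)

theorem darts_ne {a b c d : Fin 9} {w : G9.Walk a b} {w' : G9.Walk c d}
    (hd : List.Disjoint w.support w'.support) {e : G9.Dart} (he : e ∈ w.darts) {f : G9.Dart}
    (hf : f ∈ w'.darts) : e.fst ≠ f.fst ∧ e.fst ≠ f.snd ∧ e.snd ≠ f.fst ∧ e.snd ≠ f.snd := by
  have h1 := SimpleGraph.Walk.dart_fst_mem_support_of_mem_darts _ he
  have h2 := SimpleGraph.Walk.dart_snd_mem_support_of_mem_darts _ he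
  have h3 := SimpleGraph.Walk.dart_fst_mem_support_of_mem_darts _ hf
  have h4 := SimpleGraph.Walk.dart_snd_mem_support_of_mem_darts _ hf
  exact ⟨fun h => hd h1 (h ▸ h3), fun h => hd h1 (h ▸ h4), fun h => hd h2 (h ▸ h3),
    fun h => hd h2 (h ▸ h4)⟩

theorem sp_pair {a b c d : Fin 9} (w : G9.Walk a b) (w' : G9.Walk c d)
    (hd : List.Disjoint w.support w'.support) (hw : 0 < w.length) (hw' : 0 < w'.length) :
    ∀ i < S.M * w.length + 1, ∀ j < S.M * w'.length + 1,
      RegPair S.v (sp E S.M w i) (sp E S.M w (i + 1)) (sp E S.M w' j) (sp E S.M w' (j + 1)) ∧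
      Disjoint (segment ℝ (sp E S.M w i) (sp E S.M w (i + 1)))
        (segment ℝ (sp E S.M w' j) (sp E S.M w' (j + 1))) := by
  intro i hi j hj
  obtain ⟨e, he, k, hk, e1, e2⟩ := sp_edge E S.hM w hw i hi
  obtain ⟨f, hf, l, hl, f1, f2⟩ := sp_edge E S.hM w' hw' j hj
  obtain ⟨h1, h2, h3, h4⟩ := darts_ne hd he hf
  exact ⟨regPair_sub (S.reg _ _ _ _ e.adj f.adj h1 h2 h3 h4 k hk l hl) e1 e2 f1 f2,
    segDis_sub (S.dis _ _ _ _ e.adj f.adj h1 h2 h3 h4 k hk l hl) e1 e2 f1 f2⟩

/-- the linking number of two disjoint closed walks -/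
theorem isLk {a c : Fin 9} (w : G9.Walk a a) (w' : G9.Walk c c)
    (hd : List.Disjoint w.support w'.support) (hw : 0 < w.length) (hw' : 0 < w'.length) :
    IsLinkingNumber (E.curve w) (E.curve w')
      (crossSum S.v (S.M * w.length + 1) (sp E S.M w) (S.M * w'.length + 1) (sp E S.M w')) := by
  have hM := S.hM
  refine isLk_of (k := 2 ^ w.length * S.M) (k' := 2 ^ w'.length * S.M) S.hρ ?_ ?_ ?_ ?_ ?_ ?_
  · intro s t
    obtain ⟨e, he, s', hs'⟩ := curve_mem E w hw s
    obtain ⟨f, hf, t', ht'⟩ := curve_mem E w' hw' t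
    rw [hs', ht']
    obtain ⟨h1, h2, h3, h4⟩ := darts_ne hd he hf
    exact S.far e.adj f.adj h1 h2 h3 h4 s' t'
  · positivity
  · positivity
  · intro n hn
    have := sub_walk E hM S.hρ (fun h => S.mod h) w n hn
    rwa [mul_assoc] at this
  · intro n hn
    have := sub_walk E hM S.hρ (fun h => S.mod h) w' n hn
    rwa [mul_assoc] at this
  · exact regular_of S.hv (by omega) (by omega) fun i hi j hj =>
      (sp_pair S w w' hd hw hw' i hi j hj).1

/-- pairing of two edges -/
noncomputable def T (a b x y : Fin 9) : ℤ := crossSum S.v S.M (pt E S.M a b) S.M (pt E S.M x y)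

noncomputable def tt (a b x y : ℕ) : ℤ := T S (lab a) (lab b) (lab x) (lab y)

theorem sum_list {α : Type*} (l : List α) (s : Finset ℕ) (f : ℕ → α → ℤ) :
    ∑ i ∈ s, (l.map (f i)).sum = (l.map fun x => ∑ i ∈ s, f i x).sum := by
  induction l with
  | nil => simp
  | cons a l ih => simp only [List.map_cons, List.sum_cons]; rw [Finset.sum_add_distrib, ih]

theorem sp_T {a b c d : Fin 9} (w : G9.Walk a b) (w' : G9.Walk c d) :
    crossSum S.v (S.M * w.length + 1) (sp E S.M w) (S.M * w'.length + 1) (sp E S.M w') =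
      (w'.darts.map fun f => (w.darts.map fun e => T S e.fst e.snd f.fst f.snd).sum).sum := by
  have h1 : ∀ z z' : R3, (∑ i ∈ Finset.range (S.M * w.length + 1),
      crossSign S.v (sp E S.M w i) (sp E S.M w (i + 1)) z z') =
      (w.darts.map fun d => ∑ i ∈ Finset.range S.M,
        crossSign S.v (pt E S.M d.fst d.snd i) (pt E S.M d.fst d.snd (i + 1)) z z').sum := fun z z' =>
    sp_sum E S.hM (fun p q => crossSign S.v p q z z') (fun x => cs_deg12 _ _ _ _) w
  unfold crossSum
  rw [Finset.sum_comm, sp_sum E S.hM (fun z z' => ∑ i ∈ Finset.range (S.M * w.length + 1),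
      crossSign S.v (sp E S.M w i) (sp E S.M w (i + 1)) z z')
    (fun x => Finset.sum_eq_zero fun i _ => cs_deg34 _ _ _ _) w']
  congr 1
  apply List.map_congr_left
  intro f _
  rw [Finset.sum_congr rfl fun j _ => h1 _ _, sum_list]
  congr 1
  apply List.map_congr_left
  intro e _
  unfold T crossSum
  exact Finset.sum_comm

theorem cyc_congr {ψ χ : ℕ → ℕ → ℤ} (h : ∀ x y, ψ x y = χ x y) (C : List ℕ) : cyc ψ C = cyc χ C := by
  have : ψ = χ := by funext x y; exact h x y
  rw [this]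

/-- cycles of the list model and walks -/
theorem walks {C D : List ℕ} (h : OK (C ++ D)) (hC : 3 ≤ C.length) (hD : 3 ≤ D.length) :
    ∃ (a c : Fin 9) (w : G9.Walk a a) (w' : G9.Walk c c), w.IsCycle ∧ w'.IsCycle ∧
      List.Disjoint w.support w'.support ∧ 0 < w.length ∧ 0 < w'.length ∧
      crossSum S.v (S.M * w.length + 1) (sp E S.M w) (S.M * w'.length + 1) (sp E S.M w') =
        SS (tt S) C D ∧
      crossSum S.v (S.M * w'.length + 1) (sp E S.M w') (S.M * w.length + 1) (sp E S.M w) =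
        SS (tt S) D C := by
  have okC : OK C := ⟨(List.nodup_append.mp h.1).1, fun x hx => h.2 x (List.mem_append_left _ hx)⟩
  have okD : OK D := ⟨(List.nodup_append.mp h.1).2.1, fun x hx => h.2 x (List.mem_append_right _ hx)⟩
  obtain ⟨a, w, c1, s1, d1⟩ := exists_cycle C okC hC
  obtain ⟨c, w', c2, s2, d2⟩ := exists_cycle D okD hD
  refine ⟨a, c, w, w', c1, c2, ?_, ?_, ?_, ?_, ?_⟩
  · intro x hx hx'
    obtain ⟨p, hp, rfl⟩ := s1 x hx
    obtain ⟨q, hq, hpq⟩ := s2 _ hx'
    have : p = q := lab_inj (okC.2 p hp) (okD.2 q hq) hpq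
    subst this
    exact (List.nodup_append.mp h.1).2.2 p hp p hq rfl
  · exact lt_of_lt_of_le (by norm_num) c1.three_le_length
  · exact lt_of_lt_of_le (by norm_num) c2.three_le_length
  · rw [sp_T, d2 (fun x y => (w.darts.map fun e => T S e.fst e.snd x y).sum)]
    apply cyc_congr
    intro x y
    exact d1 (fun p q => T S p q (lab x) (lab y))
  · rw [sp_T, d1 (fun x y => (w'.darts.map fun e => T S e.fst e.snd x y).sum)]
    apply cyc_congr
    intro x y
    exact d2 (fun p q => T S p q (lab x) (lab y))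

/-! ### antisymmetry -/

theorem sum_reflect_anti {M : ℕ} {p q : ℕ → R3} (F : R3 → R3 → ℤ) (hF : ∀ x y, F y x = - F x y)
    (hpq : ∀ i ≤ M, q i = p (M - i)) :
    ∑ i ∈ Finset.range M, F (q i) (q (i + 1)) = - ∑ i ∈ Finset.range M, F (p i) (p (i + 1)) := by
  rw [← Finset.sum_range_reflect (fun i => F (p i) (p (i + 1))), ← Finset.sum_neg_distrib]
  apply Finset.sum_congr rfl
  intro i hi
  rw [Finset.mem_range] at hi
  rw [← hF, hpq i hi.le, hpq (i + 1) hi, show M - 1 - i + 1 = M - i by omega,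
    show M - 1 - i = M - (i + 1) by omega]

theorem pt_symm {a b : Fin 9} {i : ℕ} (hi : i ≤ S.M) :
    pt E S.M b a i = pt E S.M a b (S.M - i) := by
  by_cases h : a = b
  · subst h
    unfold pt
    rw [dif_neg (by simp), dif_neg (by simp)]
  · have h' : G9.Adj a b := h
    rw [pt_adj E S.M h', pt_adj E S.M h'.symm, E.arc_symm h', insc_symm _ S.hM hi]

theorem T_swap1 (a b x y : Fin 9) : T S b a x y = - T S a b x y := by
  unfold T crossSum
  exact sum_reflect_anti (fun p q => ∑ j ∈ Finset.range S.M,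
    crossSign S.v p q (pt E S.M x y j) (pt E S.M x y (j + 1)))
    (fun p q => by rw [← Finset.sum_neg_distrib]; exact Finset.sum_congr rfl fun j _ => cs_swap12 _ _ _ _ _)
    (fun i hi => pt_symm S hi)

theorem T_swap2 (a b x y : Fin 9) : T S a b y x = - T S a b x y := by
  unfold T crossSum
  rw [Finset.sum_comm]
  rw [sum_reflect_anti (fun p q => ∑ i ∈ Finset.range S.M,
    crossSign S.v (pt E S.M a b i) (pt E S.M a b (i + 1)) p q)
    (fun p q => by rw [← Finset.sum_neg_distrib]; exact Finset.sum_congr rfl fun j _ => cs_swap34 _ _ _ _ _)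
    (fun i hi => pt_symm S hi)]
  rw [Finset.sum_comm]

/-! ### parity -/

theorem SS_mod {t : ℕ → ℕ → ℕ → ℕ → ℤ} (h1 : ∀ a b x y, t b a x y = - t a b x y)
    (h2 : ∀ a b x y, t a b y x = - t a b x y) (a b c x y z : ℕ) :
    ((SS t [a, b, c] [x, y, z] : ℤ) : ZMod 2) =
      (t a b x y : ZMod 2) + t a b y z + t a b x z + t b c x y + t b c y z + t b c x z +
        t a c x y + t a c y z + t a c x z := by
  have e1 : ∀ x y, ((t c a x y : ℤ) : ZMod 2) = t a c x y := by
    intro x y; rw [h1 a c]; push_cast; exact neg2 _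
  have e2 : ∀ a b, ((t a b z x : ℤ) : ZMod 2) = t a b x z := by
    intro a b; rw [h2 a b x z]; push_cast; exact neg2 _
  unfold SS
  simp only [cyc3]
  push_cast
  simp only [e1, e2]
  ring

theorem par {l : List ℕ} (hl : l.length = 6) (hok : OK l) :
    ((tens.map fun q => SS (tt S) (q.1.map (gt l)) (q.2.map (gt l))).sum) % 2 = 1 := by
  have hlt : ∀ i : Fin 6, gt l i < 9 := by
    intro i
    apply hok.2
    unfold gt
    rw [List.getD_eq_getElem _ _ (by rw [hl]; exact i.2)]
    exact List.getElem_mem _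
  have hinj : ∀ i j : Fin 6, i ≠ j → lab (gt l i) ≠ lab (gt l j) := by
    intro i j hij h
    have h' := lab_inj (hlt i) (hlt j) h
    unfold gt at h'
    rw [List.getD_eq_getElem _ _ (by rw [hl]; exact i.2), List.getD_eq_getElem _ _ (by rw [hl]; exact j.2),
      List.Nodup.getElem_inj_iff hok.1] at h'
    exact hij (Fin.ext h')
  have K := k6_poly (fun i => E.pos (lab (gt l i))) (fun a b => pt E S.M (lab (gt l a)) (lab (gt l b))) S.M S.hM
    (by
      intro a b hab
      have h' : G9.Adj (lab (gt l a)) (lab (gt l b)) := hinj a b hab.ne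
      rw [pt_adj E S.M h', insc_zero])
    (by
      intro a b hab
      have h' : G9.Adj (lab (gt l a)) (lab (gt l b)) := hinj a b hab.ne
      rw [pt_adj E S.M h', insc_last _ S.hM])
    S.v S.hv
    (by
      intro a b x y h1 h2 h3 h4 h5 h6 i hi j hj
      exact S.reg _ _ _ _ (hinj _ _ h1.ne) (hinj _ _ h2.ne) (hinj _ _ h3) (hinj _ _ h4) (hinj _ _ h5)
        (hinj _ _ h6) i hi j hj)
    (by
      intro a b x y h1 h2 h3 h4 h5 h6 i hi j hj
      exact S.dis _ _ _ _ (hinj _ _ h1.ne) (hinj _ _ h2.ne) (hinj _ _ h3) (hinj _ _ h4) (hinj _ _ h5)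
        (hinj _ _ h6) i hi j hj)
  have K' : ten (fun a b x y : Fin 6 => ((tt S (gt l a) (gt l b) (gt l x) (gt l y) : ℤ) : ZMod 2)) = 1 := K
  have Emod : ∀ a b c x y z : ℕ, _ := fun a b c x y z =>
    SS_mod (t := tt S) (fun a b x y => T_swap1 S _ _ _ _) (fun a b x y => T_swap2 S _ _ _ _)
      (gt l a) (gt l b) (gt l c) (gt l x) (gt l y) (gt l z)
  have h : (((tens.map fun q => SS (tt S) (q.1.map (gt l)) (q.2.map (gt l))).sum : ℤ) : ZMod 2) = 1 := by
    rw [← K']
    unfold ten tens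
    simp only [List.map_cons, List.map_nil, List.sum_cons, List.sum_nil]
    push_cast
    rw [Emod 0 1 2 3 4 5, Emod 0 1 3 2 4 5, Emod 0 1 4 2 3 5, Emod 0 1 5 2 3 4, Emod 0 2 3 1 4 5,
      Emod 0 2 4 1 3 5, Emod 0 2 5 1 3 4, Emod 0 3 4 1 2 5, Emod 0 3 5 1 2 4, Emod 0 4 5 1 2 3]
    simp only [Fin.isValue, Fin.val_zero, Fin.val_one, Fin.coe_ofNat_eq_mod, Nat.reduceMod]
    ring
  have h' : (((tens.map fun q => SS (tt S) (q.1.map (gt l)) (q.2.map (gt l))).sum - 1 : ℤ) : ZMod 2) = 0 := by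
    push_cast at h ⊢
    rw [h]; ring
  rw [ZMod.intCast_zmod_eq_zero_iff_dvd] at h'
  omega

/-- the complete graph on nine vertices is strongly intrinsically linked -/
theorem k9_sil : StronglyIntrinsicallyLinked (⊤ : SimpleGraph (Fin 9)) := by
  intro E
  by_contra hneg
  obtain ⟨S⟩ := exists_scale E
  have hgood : Good (tt S) := by
    refine ⟨fun a b x y => T_swap1 S _ _ _ _, fun a b x y => T_swap2 S _ _ _ _, ?_, fun l hl hok => par S hl hok, ?_⟩
    · intro a b c x y z hok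
      obtain ⟨p, q, w, w', c1, c2, hd, h1, h2, e1, e2⟩ := walks S (C := [a, b, c]) (D := [x, y, z]) hok
        (by simp) (by simp)
      rw [← e1, ← e2]
      have hp := sp_pair S w w' hd h1 h2
      apply crossSum_symm
      · rw [sp_last, sp_zero E S.hM]
      · rw [sp_last, sp_zero E S.hM]
      · exact S.hv
      · exact fun i hi j hj => (hp i hi j hj).1
      · exact fun i hi j hj => (hp i hi j hj).2
    · intro C D hok hC hD
      obtain ⟨p, q, w, w', c1, c2, hd, h1, h2, e1, e2⟩ := walks S hok hC hD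
      by_contra hb
      apply hneg
      refine ⟨p, q, w, w', _, c1, c2, hd, isLk S w w' hd h1 h2, ?_⟩
      rw [e1]
      omega
  exact K9.no_good hgood

end Pool.Agent.Helper683.Lk
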